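import Pool.Agent.Lib.H73R.Defs

/-!
# Locating the pass
-/

set_option autoImplicit false

noncomputable section

open MeasureTheory Metric Set Real Filter Topology
open scoped RealInnerProductSpace NNReal ENNReal

namespace AstroR

open Astro

/-- Where a residue is visited. `Q R ≡ 1` modulo `K` and `R` is close to `K / 16`; `k0` is the index
of the meridian whose residue is `c0`, it lies in the block `l0 = 16 * k0 / K`. Let `s ≡ sig m`
modulo `16` be at distance at most `8` from `l0 + z`. Then stage `m` contains a pass `p`, not later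
than `k0 - l0 K / 16 + 2 E`, whose residue is `c0 + (s - l0)`.

Proof. Let `l0 = 16 * k0 / K`, `y = k0 - l0 K / 16 ∈ [0, K / 16)` (`Nat.div_add_mod`), `g = s - l0`, so
`|g| ≤ 9`; `q = (s - sig m) / 16`, `κ = k0 + g R - K q`,
`p = κ - sig m * K / 16 (natural division) + E`. Then
`κ - sig m K / 16 (real) = y + g (R - K / 16)` (as `16 q + sig m = s = l0 + g`), so
`p ≥ y - 9 |R - K / 16| + E ≥ 0` and `p ≤ y + 9 |R - K / 16| + 1 + E ≤ y + 2 E < K / 16 + 2 E`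
(real division), hence the integer `p` satisfies `0 ≤ p` and `p < K / 16 + 2 E + 1` (natural
division). `kap K E m p = κ`. Finally `Q κ = Q k0 + g Q R - K Q q ≡ Q R c0 + g ≡ c0 + g` modulo `K`
and `c0 + z - (l0 + z - s) = c0 + g`. -/
theorem loc {K E : ℕ} (hK : 0 < K) {Q R : ℤ} (hQR : (K : ℤ) ∣ Q * R - 1)
    (hR : 9 * |(R : ℝ) - (K : ℝ) / 16| + 1 ≤ E) {c0 : ℤ} {z : ℝ} (hz0 : 0 ≤ z) (hz1 : z < 1)
    {k0 : ℕ} (hk0 : k0 < K) (hk0' : (K : ℤ) ∣ (k0 : ℤ) - R * c0) {m : ℕ} {s : ℤ}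
    (hs : (16 : ℤ) ∣ s - (sig m : ℤ)) (hs8 : |((16 * k0 / K : ℕ) : ℝ) + z - s| ≤ 8) :
    ∃ p : ℕ, p < Np K E ∧
      (p : ℝ) ≤ (k0 : ℝ) - ((16 * k0 / K : ℕ) : ℝ) * K / 16 + 2 * E ∧
      ∃ z' : ℤ, (c0 : ℝ) + z = (Q : ℝ) * (kap K E m p : ℝ) + K * z' +
        (((16 * k0 / K : ℕ) : ℝ) + z - s) := by
  obtain ⟨q, hq⟩ := hs
  obtain ⟨a, ha⟩ := hQR
  obtain ⟨b, hb⟩ := hk0'
  have hl1 : (16 * k0 / K) * K ≤ 16 * k0 := Nat.div_mul_le_self _ _
  have hl2 : 16 * k0 < (16 * k0 / K) * K + K := Nat.lt_div_mul_add hK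
  have hF1 : (sig m * K / 16) * 16 ≤ sig m * K := Nat.div_mul_le_self _ _
  have hF2 : sig m * K < (sig m * K / 16) * 16 + 16 := Nat.lt_div_mul_add (by norm_num)
  have hkap : ∀ p : ℕ, kap K E m p = ((sig m * K / 16 : ℕ) : ℤ) - (E : ℤ) + (p : ℤ) := fun p => rfl
  have hNp : Np K E = K / 16 + 2 * E + 1 := rfl
  generalize 16 * k0 / K = l0 at hl1 hl2 hs8 ⊢
  generalize sig m * K / 16 = F at hF1 hF2 hkap
  obtain ⟨g, hg⟩ : ∃ g : ℤ, g = s - l0 := ⟨_, rfl⟩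
  obtain ⟨κ, hκ⟩ : ∃ κ : ℤ, κ = k0 + g * R - K * q := ⟨_, rfl⟩
  obtain ⟨P, hP⟩ : ∃ P : ℤ, P = κ - F + E := ⟨_, rfl⟩
  have hgr : (g : ℝ) = s - l0 := by rw [hg]; push_cast; ring
  have hκr : (κ : ℝ) = k0 + g * R - K * q := by rw [hκ]; push_cast; ring
  have hPr : (P : ℝ) = κ - F + E := by rw [hP]; push_cast; ring
  have hqr : (s : ℝ) - (sig m : ℝ) = 16 * q := by exact_mod_cast hq
  have hl1r : (l0 : ℝ) * K ≤ 16 * k0 := by exact_mod_cast hl1
  have hl2r : (16 : ℝ) * k0 < l0 * K + K := by exact_mod_cast hl2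
  have hF1r : (F : ℝ) * 16 ≤ sig m * K := by exact_mod_cast hF1
  have hF2r : (sig m : ℝ) * K < F * 16 + 16 := by exact_mod_cast hF2
  obtain ⟨h81, h82⟩ := abs_le.1 hs8
  have hg9 : |(g : ℝ)| ≤ 9 := by
    rw [abs_le]
    constructor <;> linarith
  obtain ⟨W, hW⟩ : ∃ W : ℝ, W = g * ((R : ℝ) - (K : ℝ) / 16) := ⟨_, rfl⟩
  have hWle : |W| ≤ 9 * |(R : ℝ) - (K : ℝ) / 16| := by
    rw [hW, abs_mul]
    exact mul_le_mul_of_nonneg_right hg9 (abs_nonneg _)
  obtain ⟨hW1, hW2⟩ := abs_le.1 hWle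
  have hmain : (κ : ℝ) - sig m * K / 16 = (k0 - l0 * K / 16) + W := by
    have e1 : (s : ℝ) = l0 + g := by linarith
    have e2 : (sig m : ℝ) = l0 + g - 16 * q := by linarith
    rw [hκr, hW, e2]
    ring
  have hP0r : (0 : ℝ) < P := by
    rw [hPr]
    linarith
  have hP0 : 0 ≤ P := by
    have : (0 : ℤ) < P := by exact_mod_cast hP0r
    exact this.le
  have hPle : (P : ℝ) ≤ k0 - l0 * K / 16 + 2 * E := by
    rw [hPr]
    linarith
  refine ⟨P.toNat, ?_, ?_, ?_⟩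
  · have h1 : (P : ℝ) < K / 16 + 2 * E := by linarith
    have h2 : (16 : ℝ) * P < K + 32 * E := by linarith
    have h3 : (16 : ℤ) * P < K + 32 * E := by exact_mod_cast h2
    rw [hNp]
    omega
  · have h1 : ((P.toNat : ℕ) : ℝ) = (P : ℝ) := by
      have : ((P.toNat : ℕ) : ℤ) = P := Int.toNat_of_nonneg hP0
      exact_mod_cast this
    rw [h1]
    exact hPle
  · have h1 : kap K E m P.toNat = κ := by
      rw [hkap, Int.toNat_of_nonneg hP0, hP]
      ring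
    rw [h1]
    refine ⟨-(c0 + g) * a - Q * (b - q), ?_⟩
    have h2 : (c0 : ℤ) + g = Q * κ + K * (-(c0 + g) * a - Q * (b - q)) := by
      have hk : (k0 : ℤ) = R * c0 + K * b := by linarith
      have hQR' : Q * R = 1 + K * a := by linarith
      rw [hκ, hk]
      have e3 : Q * (R * c0 + K * b + g * R - K * q) = (Q * R) * (c0 + g) + Q * K * (b - q) := by ring
      rw [e3, hQR']
      ring
    have h3 : (c0 : ℝ) + g = Q * κ + K * ((-(c0 + g) * a - Q * (b - q) : ℤ) : ℝ) := by exact_mod_cast h2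
    linarith

end AstroR
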