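import Mathlib

/-!
# Summation over blocks
-/

set_option autoImplicit false

noncomputable section

open Real Finset

namespace AstroR

theorem c2_sum (A B x : ℝ) (n : ℕ) :
    ∑ i ∈ Finset.range n, (A + B * (x + i)) = n * A + B * (n * x + n * (n - 1) / 2) := by
  induction n with
  | zero => simp
  | succ n ih =>
    rw [Finset.sum_range_succ, ih]
    push_cast
    ring

theorem c2_fib {K : ℕ} (hK : 0 < K) (l : ℕ) (hl : l < 16) :
    (Finset.range K).filter (fun k => 16 * k / K = l) =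
      Finset.Ico ((l * K + 15) / 16) (((l + 1) * K + 15) / 16) := by
  ext k
  rw [Finset.mem_filter, Finset.mem_range, Finset.mem_Ico]
  have h1 : 16 * k / K = l ↔ l * K ≤ 16 * k ∧ 16 * k < (l + 1) * K := by
    constructor
    · intro h
      exact ⟨(Nat.le_div_iff_mul_le hK).1 h.ge, (Nat.div_lt_iff_lt_mul hK).1 (by omega)⟩
    · rintro ⟨h2, h3⟩
      have a := (Nat.le_div_iff_mul_le hK).2 h2
      have b := (Nat.div_lt_iff_lt_mul hK).2 h3
      omega
  have h2 : (l + 1) * K ≤ 16 * K := Nat.mul_le_mul_right K hl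
  rw [h1]
  constructor
  · rintro ⟨-, h3, h4⟩
    omega
  · rintro ⟨h3, h4⟩
    omega

theorem c2_one {K : ℕ} (A B : ℝ) (hA : 0 ≤ A) (hB : 0 ≤ B) (l : ℕ) :
    ∑ k ∈ Finset.Ico ((l * K + 15) / 16) (((l + 1) * K + 15) / 16),
      (A + B * ((k : ℝ) - (l : ℝ) * K / 16)) ≤ ((K : ℝ) / 16 + 1) * (A + B * ((K : ℝ) / 32 + 1 / 2)) := by
  have hK0 : (0 : ℝ) ≤ K := Nat.cast_nonneg K
  set a := (l * K + 15) / 16 with ha
  set b := ((l + 1) * K + 15) / 16 with hb
  have e1 : (l + 1) * K = l * K + K := by ring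
  have hab : a ≤ b := by omega
  have ha1 : (l : ℝ) * K ≤ 16 * a := by
    have : l * K ≤ 16 * a := by omega
    exact_mod_cast this
  have ha2 : 16 * (a : ℝ) ≤ (l : ℝ) * K + 15 := by
    have : 16 * a ≤ l * K + 15 := by omega
    exact_mod_cast this
  have hb1 : 16 * (b : ℝ) ≤ (l : ℝ) * K + K + 15 := by
    have : 16 * b ≤ l * K + K + 15 := by omega
    exact_mod_cast this
  rw [Finset.sum_Ico_eq_sum_range]
  have e2 : ∀ i ∈ Finset.range (b - a), (A + B * (((a + i : ℕ) : ℝ) - (l : ℝ) * K / 16)) =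
      A + B * (((a : ℝ) - (l : ℝ) * K / 16) + i) := by
    intro i _
    push_cast
    ring
  rw [Finset.sum_congr rfl e2, c2_sum]
  have e3 : ((b - a : ℕ) : ℝ) = b - a := by push_cast [hab]; ring
  rw [e3]
  set n : ℝ := (b : ℝ) - a with hn
  have hn0 : 0 ≤ n := by
    have : (a : ℝ) ≤ b := by exact_mod_cast hab
    linarith
  have hn1 : n ≤ K / 16 + 1 := by linarith
  have e4 : n * A + B * (n * ((a : ℝ) - (l : ℝ) * K / 16) + n * (n - 1) / 2) =
      n * (A + B * (((a : ℝ) - (l : ℝ) * K / 16) + (n - 1) / 2)) := by ring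
  rw [e4]
  have h5 : ((a : ℝ) - (l : ℝ) * K / 16) + (n - 1) / 2 ≤ (K : ℝ) / 32 + 1 / 2 := by linarith
  have h6 : A + B * (((a : ℝ) - (l : ℝ) * K / 16) + (n - 1) / 2) ≤ A + B * ((K : ℝ) / 32 + 1 / 2) := by
    have := mul_le_mul_of_nonneg_left h5 hB
    linarith
  have h7 : 0 ≤ A + B * ((K : ℝ) / 32 + 1 / 2) := by positivity
  calc n * (A + B * (((a : ℝ) - (l : ℝ) * K / 16) + (n - 1) / 2)) ≤ n * (A + B * ((K : ℝ) / 32 + 1 / 2)) :=
        mul_le_mul_of_nonneg_left h6 hn0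
    _ ≤ ((K : ℝ) / 16 + 1) * (A + B * ((K : ℝ) / 32 + 1 / 2)) := mul_le_mul_of_nonneg_right hn1 h7

/-- Summation over the blocks `{k | 16 * k / K = l}`.

Proof. `Finset.sum_fiberwise_of_maps_to` (or `Finset.sum_fiberwise'`) for the map
`k ↦ 16 * k / K` from `range K` to `range 16` (`Nat.div_lt_iff_lt_mul`: `16 k < 16 K`). The fibre of
`l` is `Ico a b` with `a = (l * K + 15) / 16`, `b = ((l + 1) * K + 15) / 16`
(`16 * k / K = l` iff `l K ≤ 16 k < (l + 1) K`). Put `n = b - a ≤ K / 16 + 1` (real division, since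
`b ≤ (l + 1) K / 16 + 15 / 16` and `a ≥ l K / 16`). On the fibre the sum is
`n A + B (∑ k - n l K / 16)`, and `∑_{k = a}^{b - 1} (k - l K / 16)
= n ((a - l K / 16) + (b - 1 - l K / 16)) / 2 ≤ n (K / 16 + 14 / 16) / 2` (pair the terms, or
induction on `n` for `∑_{i < n} (a + i) = n a + n (n - 1) / 2`; if `n = 0` it is trivial). So the sum
over the fibre is at most `n (A l + B l (K / 32 + 1 / 2))` with `0 ≤ n ≤ K / 16 + 1`. -/
theorem block_sum {K : ℕ} (hK : 0 < K) (A B : ℕ → ℝ) (hA : ∀ l, 0 ≤ A l) (hB : ∀ l, 0 ≤ B l) :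
    ∑ k ∈ Finset.range K, (A (16 * k / K) +
        B (16 * k / K) * ((k : ℝ) - ((16 * k / K : ℕ) : ℝ) * K / 16)) ≤
      ((K : ℝ) / 16 + 1) * ∑ l ∈ Finset.range 16, (A l + B l * ((K : ℝ) / 32 + 1 / 2)) := by
  have hmaps : ∀ k ∈ Finset.range K, 16 * k / K ∈ Finset.range 16 := by
    intro k hk
    rw [Finset.mem_range] at hk ⊢
    exact (Nat.div_lt_iff_lt_mul hK).2 (by omega)
  rw [← Finset.sum_fiberwise_of_maps_to hmaps, Finset.mul_sum]
  refine Finset.sum_le_sum fun l hl => ?_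
  rw [Finset.mem_range] at hl
  have e : ∀ k ∈ (Finset.range K).filter (fun k => 16 * k / K = l),
      (A (16 * k / K) + B (16 * k / K) * ((k : ℝ) - ((16 * k / K : ℕ) : ℝ) * K / 16)) =
      A l + B l * ((k : ℝ) - (l : ℝ) * K / 16) := by
    intro k hk
    rw [(Finset.mem_filter.1 hk).2]
  rw [Finset.sum_congr rfl e, c2_fib hK l hl]
  exact c2_one (A l) (B l) (hA l) (hB l) l

end AstroR
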