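import Pool.Agent.Lib.H73R.Defs

/-!
# Hitting stages
-/

set_option autoImplicit false

noncomputable section

open MeasureTheory Metric Set Real Filter Topology
open scoped RealInnerProductSpace NNReal ENNReal

namespace AstroR

open Astro

theorem c3_fin : ∀ m ∈ List.range 16, 1 ≤ m → ∀ l ∈ List.range 16, ∃ q ∈ gaps m,
    q.1 ≤ l ∧ l < q.1 + q.2 ∧ q.1 + q.2 ≤ 16 ∧ (∃ m' ∈ List.range m, sig m' = q.1) ∧
      (∃ m' ∈ List.range m, sig m' = (q.1 + q.2) % 16) := by decide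

theorem c3_fin2 : ∀ l ∈ List.range 16, ∃ m ∈ List.range 16, sig m = l := by decide

theorem c3_fin3 : ∀ m ∈ List.range 16, ∀ q ∈ gaps m,
    q.2 ≤ (if m = 1 then 16 else if m < 4 then 8 else if m < 8 then 4 else 2) ∧ 1 ≤ q.2 := by
  decide

/-- Every location is hit in some stage: let `s = round x ∈ [0, 16]` (or `⌊x⌋`, `⌊x⌋ + 1`),
`|x - s| ≤ 1 / 2 ≤ 8` and `2 w |x - s| ≤ 1`; `s` is congruent to some `sig m`, `m < 16`, modulo `16`
(`c3_fin2` with `l = s % 16`). -/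
theorem exists_hit {x w : ℝ} (hx0 : 0 ≤ x) (hx1 : x < 16) (hw0 : 0 ≤ w) (hw1 : w ≤ 1) :
    ∃ m < 16, hit m x w := by
  have hr : |x - (round x : ℤ)| ≤ 1 / 2 := abs_sub_round x
  have h0 : 0 ≤ (round x : ℤ) % 16 := Int.emod_nonneg _ (by norm_num)
  have h1 : (round x : ℤ) % 16 < 16 := Int.emod_lt_of_pos _ (by norm_num)
  obtain ⟨m, hm, he⟩ := c3_fin2 ((round x : ℤ) % 16).toNat (by rw [List.mem_range]; omega)
  rw [List.mem_range] at hm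
  refine ⟨m, hm, round x, ?_, by linarith, ?_⟩
  · have e : (sig m : ℤ) = (round x : ℤ) % 16 := by rw [he]; exact Int.toNat_of_nonneg h0
    rw [e]; omega
  · have ha : 0 ≤ |x - (round x : ℤ)| := abs_nonneg _
    nlinarith

/-- The first hitting stage (`Nat.sInf_mem`, `Nat.sInf_le`). -/
theorem mst_spec {x w : ℝ} (hx0 : 0 ≤ x) (hx1 : x < 16) (hw0 : 0 ≤ w) (hw1 : w ≤ 1) :
    mst x w < 16 ∧ hit (mst x w) x w := by
  obtain ⟨m, hm, hh⟩ := exists_hit hx0 hx1 hw0 hw1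
  exact ⟨lt_of_le_of_lt (Nat.sInf_le hh) hm, Nat.sInf_mem (s := {m : ℕ | hit m x w}) ⟨m, hh⟩⟩

/-- A location which is not hit in the stages `0, ..., m - 1` is in `miss m w`.

Proof. `m = 0`: `miss 0 w = univ`. Let `1 ≤ m < 16`, `l = ⌊x⌋₊ < 16`. By the finite check `c3_fin` there is `q ∈ gaps m` with `q.1 ≤ l < q.1 + q.2 ≤ 16`,
`q.2 ≤ 16`, and `m', m'' < m` with `sig m' = q.1` and `sig m'' = (q.1 + q.2) % 16`. Let
`d₁ = x - q.1 ≥ 0`, `d₂ = q.1 + q.2 - x > 0`, `d₁ + d₂ = q.2 ≤ 16`. Since the stages `m'`, `m''` do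
not hit `x` (`Nat.notMem_of_lt_sInf`), `d₁ ≤ 8 → 1 < 2 w d₁` and `d₂ ≤ 8 → 1 < 2 w d₂`. If both are
`≤ 8` we are done; if `d₁ > 8` then `d₂ < 8`, `1 < 2 w d₂ ≤ 2 w d₁`; symmetrically for `d₂ > 8`. -/
theorem mem_miss {x w : ℝ} (hx0 : 0 ≤ x) (hx1 : x < 16) (hw0 : 0 ≤ w) {m : ℕ} (hm : m < 16)
    (h : m ≤ mst x w) : x ∈ miss m w := by
  unfold miss
  split_ifs with hm0
  · exact mem_univ _
  have hl : ⌊x⌋₊ < 16 := by
    have h1 : ((⌊x⌋₊ : ℕ) : ℝ) ≤ x := Nat.floor_le hx0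
    have h2 : ((⌊x⌋₊ : ℕ) : ℝ) < 16 := lt_of_le_of_lt h1 hx1
    exact_mod_cast h2
  obtain ⟨q, hq, h1, h2, h3, ⟨m', hm', e'⟩, ⟨m'', hm'', e''⟩⟩ :=
    c3_fin m (List.mem_range.2 hm) (Nat.one_le_iff_ne_zero.2 hm0) ⌊x⌋₊ (List.mem_range.2 hl)
  rw [List.mem_range] at hm' hm''
  have f1 : ((⌊x⌋₊ : ℕ) : ℝ) ≤ x := Nat.floor_le hx0
  have f2 : x < ((⌊x⌋₊ : ℕ) : ℝ) + 1 := Nat.lt_floor_add_one x
  have g1 : ((q.1 : ℕ) : ℝ) ≤ ((⌊x⌋₊ : ℕ) : ℝ) := by exact_mod_cast h1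
  have g2 : ((⌊x⌋₊ : ℕ) : ℝ) + 1 ≤ (q.1 : ℝ) + (q.2 : ℝ) := by exact_mod_cast h2
  have g3 : (q.1 : ℝ) + (q.2 : ℝ) ≤ 16 := by exact_mod_cast h3
  have g0 : (0 : ℝ) ≤ (q.1 : ℝ) := by positivity
  have d1 : 0 ≤ x - (q.1 : ℝ) := by linarith
  have d2 : 0 < (q.1 : ℝ) + (q.2 : ℝ) - x := by linarith
  have n1 : ¬ hit m' x w := fun hh => absurd (Nat.sInf_le (s := {m : ℕ | hit m x w}) hh)
    (not_le.2 (lt_of_lt_of_le hm' h))
  have n2 : ¬ hit m'' x w := fun hh => absurd (Nat.sInf_le (s := {m : ℕ | hit m x w}) hh)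
    (not_le.2 (lt_of_lt_of_le hm'' h))
  have k1 : x - (q.1 : ℝ) ≤ 8 → 1 < 2 * w * (x - (q.1 : ℝ)) := by
    intro h8
    by_contra hc
    push Not at hc
    apply n1
    refine ⟨((q.1 : ℕ) : ℤ), ?_, ?_, ?_⟩
    · rw [e', sub_self]; exact dvd_zero _
    · rw [Int.cast_natCast, abs_of_nonneg d1]; exact h8
    · rw [Int.cast_natCast, abs_of_nonneg d1]; exact hc
  have k2 : (q.1 : ℝ) + (q.2 : ℝ) - x ≤ 8 → 1 < 2 * w * ((q.1 : ℝ) + (q.2 : ℝ) - x) := by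
    intro h8
    by_contra hc
    push Not at hc
    apply n2
    have ea : |x - (((q.1 + q.2 : ℕ) : ℤ) : ℝ)| = (q.1 : ℝ) + (q.2 : ℝ) - x := by
      rw [abs_sub_comm]
      push_cast
      exact abs_of_pos d2
    refine ⟨((q.1 + q.2 : ℕ) : ℤ), ?_, ?_, ?_⟩
    · rw [e'']; omega
    · rw [ea]; exact h8
    · rw [ea]; exact hc
  refine ⟨q, hq, ?_, ?_⟩
  · by_cases c1 : x - (q.1 : ℝ) ≤ 8
    · exact k1 c1
    · push Not at c1
      have k3 := k2 (by linarith)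
      refine lt_of_lt_of_le k3 (mul_le_mul_of_nonneg_left (by linarith) (by linarith))
  · by_cases c1 : (q.1 : ℝ) + (q.2 : ℝ) - x ≤ 8
    · exact k2 c1
    · push Not at c1
      have k3 := k1 (by linarith)
      refine lt_of_lt_of_le k3 (mul_le_mul_of_nonneg_left (by linarith) (by linarith))

/-- The passes of the first hitting stage are long enough.

Proof. `m = mst x w`. If `m = 0` then `cut m = 0 ≤ w`. Otherwise `x ∈ miss m w` (`mem_miss`), so there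
is `q ∈ gaps m` with `1 < 2 w d₁`, `1 < 2 w d₂`, `d₁ + d₂ = q.2`: adding, `1 < w q.2`; and
`q.2 * cut m ≤ 1` by `c3_fin3` (and the definition of `cut`, same case distinction). Hence
`cut m ≤ cut m * (w * q.2) ≤ w`. -/
theorem cut_mst_le {x w : ℝ} (hx0 : 0 ≤ x) (hx1 : x < 16) (hw0 : 0 ≤ w) (hw1 : w ≤ 1) :
    cut (mst x w) ≤ w := by
  obtain ⟨hm, -⟩ := mst_spec hx0 hx1 hw0 hw1
  have hx := mem_miss hx0 hx1 hw0 hm le_rfl
  generalize mst x w = m at hm hx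
  by_cases hm0 : m = 0
  · rw [hm0]
    have : cut 0 = 0 := by unfold cut; rw [if_pos rfl]
    rw [this]; exact hw0
  unfold miss at hx
  rw [if_neg hm0] at hx
  obtain ⟨q, hq, h1, h2⟩ := hx
  obtain ⟨h3, -⟩ := c3_fin3 m (List.mem_range.2 hm) q hq
  have h4 : 1 < w * (q.2 : ℝ) := by nlinarith
  unfold cut
  rw [if_neg hm0]
  by_cases c1 : m = 1
  · rw [if_pos c1]
    rw [if_pos c1] at h3
    have h5 : (q.2 : ℝ) ≤ 16 := by exact_mod_cast h3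
    nlinarith
  rw [if_neg c1]
  rw [if_neg c1] at h3
  by_cases c2 : m < 4
  · rw [if_pos c2]
    rw [if_pos c2] at h3
    have h5 : (q.2 : ℝ) ≤ 8 := by exact_mod_cast h3
    nlinarith
  rw [if_neg c2]
  rw [if_neg c2] at h3
  by_cases c3 : m < 8
  · rw [if_pos c3]
    rw [if_pos c3] at h3
    have h5 : (q.2 : ℝ) ≤ 4 := by exact_mod_cast h3
    nlinarith
  rw [if_neg c3]
  rw [if_neg c3] at h3
  have h5 : (q.2 : ℝ) ≤ 2 := by exact_mod_cast h3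
  nlinarith

end AstroR
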