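import Pool.Agent.Lib.H73R.Defs

/-!
# The measure of the missed locations
-/

set_option autoImplicit false

noncomputable section

open MeasureTheory Metric Set Real Filter Topology
open scoped RealInnerProductSpace NNReal ENNReal

namespace AstroR

open Astro

/-- the set of a list of gaps -/
def c4_S (Q : List (ℕ × ℕ)) (w : ℝ) : Set ℝ :=
  {x | ∃ q ∈ Q, 1 < 2 * w * (x - (q.1 : ℝ)) ∧ 1 < 2 * w * ((q.1 : ℝ) + (q.2 : ℝ) - x)}

theorem c4_S_nil (w : ℝ) : c4_S [] w = ∅ := by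
  ext x
  simp [c4_S]

theorem c4_S_cons (q : ℕ × ℕ) (Q : List (ℕ × ℕ)) (w : ℝ) :
    c4_S (q :: Q) w = {x : ℝ | 1 < 2 * w * (x - (q.1 : ℝ)) ∧ 1 < 2 * w * ((q.1 : ℝ) + (q.2 : ℝ) - x)} ∪ c4_S Q w := by
  ext x
  simp [c4_S]

theorem c4_meas1 (q : ℕ × ℕ) :
    MeasurableSet {p : ℝ × ℝ | 1 < 2 * p.1 * (p.2 - (q.1 : ℝ)) ∧ 1 < 2 * p.1 * ((q.1 : ℝ) + (q.2 : ℝ) - p.2)} := by
  have h1 : Measurable fun p : ℝ × ℝ => 2 * p.1 * (p.2 - (q.1 : ℝ)) := by fun_prop
  have h2 : Measurable fun p : ℝ × ℝ => 2 * p.1 * ((q.1 : ℝ) + (q.2 : ℝ) - p.2) := by fun_prop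
  exact (measurableSet_lt measurable_const h1).inter (measurableSet_lt measurable_const h2)

theorem c4_meas (Q : List (ℕ × ℕ)) : MeasurableSet {p : ℝ × ℝ | p.2 ∈ c4_S Q p.1} := by
  induction Q with
  | nil =>
    have : {p : ℝ × ℝ | p.2 ∈ c4_S [] p.1} = ∅ := by
      ext p
      simp [c4_S_nil]
    rw [this]
    exact MeasurableSet.empty
  | cons q Q ih =>
    have : {p : ℝ × ℝ | p.2 ∈ c4_S (q :: Q) p.1} =
        {p : ℝ × ℝ | 1 < 2 * p.1 * (p.2 - (q.1 : ℝ)) ∧ 1 < 2 * p.1 * ((q.1 : ℝ) + (q.2 : ℝ) - p.2)} ∪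
          {p : ℝ × ℝ | p.2 ∈ c4_S Q p.1} := by
      ext p
      rw [mem_setOf_eq, c4_S_cons]
      rfl
    rw [this]
    exact (c4_meas1 q).union ih

theorem c4_vol1 (q : ℕ × ℕ) {w : ℝ} (hw : 0 ≤ w) :
    volume {x : ℝ | 1 < 2 * w * (x - (q.1 : ℝ)) ∧ 1 < 2 * w * ((q.1 : ℝ) + (q.2 : ℝ) - x)} ≤
      ENNReal.ofReal ((q.2 : ℝ) - 1 / w) := by
  rcases hw.eq_or_lt with h0 | h0
  · have : {x : ℝ | 1 < 2 * w * (x - (q.1 : ℝ)) ∧ 1 < 2 * w * ((q.1 : ℝ) + (q.2 : ℝ) - x)} = ∅ := by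
      ext x
      rw [mem_setOf_eq, ← h0]
      simp only [mul_zero, zero_mul, mem_empty_iff_false, iff_false, not_and, not_lt]
      intro _
      exact zero_le_one
    rw [this, measure_empty]
    exact zero_le
  · have hs : {x : ℝ | 1 < 2 * w * (x - (q.1 : ℝ)) ∧ 1 < 2 * w * ((q.1 : ℝ) + (q.2 : ℝ) - x)} ⊆
        Ioo ((q.1 : ℝ) + 1 / (2 * w)) ((q.1 : ℝ) + (q.2 : ℝ) - 1 / (2 * w)) := by
      rintro x ⟨h1, h2⟩
      have h3 : 0 < 2 * w := by linarith
      have h4 : 1 / (2 * w) < x - (q.1 : ℝ) := by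
        rw [div_lt_iff₀ h3]
        linarith [mul_comm (2 * w) (x - (q.1 : ℝ))]
      have h5 : 1 / (2 * w) < (q.1 : ℝ) + (q.2 : ℝ) - x := by
        rw [div_lt_iff₀ h3]
        linarith [mul_comm (2 * w) ((q.1 : ℝ) + (q.2 : ℝ) - x)]
      exact ⟨by linarith, by linarith⟩
    refine (measure_mono hs).trans ?_
    rw [Real.volume_Ioo]
    refine ENNReal.ofReal_le_ofReal (le_of_eq ?_)
    field_simp
    ring

theorem c4_vol (Q : List (ℕ × ℕ)) {w : ℝ} (hw : 0 ≤ w) :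
    volume (c4_S Q w) ≤ (Q.map (fun q => ENNReal.ofReal ((q.2 : ℝ) - 1 / w))).sum := by
  induction Q with
  | nil =>
    rw [c4_S_nil, measure_empty]
    exact zero_le
  | cons q Q ih =>
    rw [c4_S_cons, List.map_cons, List.sum_cons]
    exact (measure_union_le _ _).trans (add_le_add (c4_vol1 q hw) ih)

theorem c4_miss (m : ℕ) (hm : m ≠ 0) (w : ℝ) : miss m w = c4_S (gaps m) w := by
  unfold miss
  rw [if_neg hm]
  rfl

/-- Joint measurability in `(w, x)` (`measurableSet_lt`, finite union). -/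
theorem measurableSet_miss_prod (m : ℕ) : MeasurableSet {p : ℝ × ℝ | p.2 ∈ miss m p.1} := by
  by_cases hm : m = 0
  · have : {p : ℝ × ℝ | p.2 ∈ miss m p.1} = univ := by
      ext p
      rw [mem_setOf_eq]
      unfold miss
      rw [if_pos hm]
      simp
    rw [this]
    exact MeasurableSet.univ
  · have : {p : ℝ × ℝ | p.2 ∈ miss m p.1} = {p : ℝ × ℝ | p.2 ∈ c4_S (gaps m) p.1} := by
      ext p
      rw [mem_setOf_eq, mem_setOf_eq, c4_miss m hm]
    rw [this]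
    exact c4_meas _

/-- `miss m w` is measurable: `univ`, or a finite union of open intervals (`List` induction, or the
set `{x | ∃ q ∈ gaps m, ..}` is open: `isOpen_biUnion`). -/
theorem measurableSet_miss (m : ℕ) (w : ℝ) : MeasurableSet (miss m w) := by
  have h := measurableSet_miss_prod m
  have h2 : Measurable fun x : ℝ => (w, x) := measurable_prodMk_left
  exact h2 h

/-- Proof: for a list `Q` of gaps, by induction on `Q` (`measure_union_le`), the measure of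
`{x | ∃ q ∈ Q, ..}` is at most the sum. One gap `(s, g)`: if `w = 0` the set is empty; if `w > 0` it
is `Ioo (s + 1 / (2 w)) (s + g - 1 / (2 w))`, of measure `ENNReal.ofReal (g - 1 / w)`
(`Real.volume_Ioo`). -/
theorem vol_miss {m : ℕ} (hm : 1 ≤ m) {w : ℝ} (hw : 0 ≤ w) :
    volume (miss m w) ≤ ((gaps m).map (fun q => ENNReal.ofReal ((q.2 : ℝ) - 1 / w))).sum := by
  rw [c4_miss m (by omega)]
  exact c4_vol _ hw

end AstroR
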