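import Pool.Agent.Lib.H73R.Defs

/-!
# The law of the distance parameter
-/

set_option autoImplicit false

noncomputable section

open MeasureTheory Metric Set Real Filter Topology
open scoped RealInnerProductSpace NNReal ENNReal

namespace AstroR

open Astro

/-- `wd h ^ 2 = (1 - ⟪e3, act h e3⟫) / 2` (`norm_sub_sq_real`, `norm_act`, `norm_e3`). -/
theorem wd_sq (h : O3) : wd h ^ 2 = (1 - ⟪e3, act h e3⟫) / 2 := by
  unfold wd
  rw [div_pow, norm_sub_sq_real, norm_act, norm_e3]
  ring

/-- `wd` is continuous (`continuous_act_left`). -/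
theorem continuous_wd : Continuous wd := by
  unfold wd
  exact ((continuous_const.sub (continuous_act_left e3)).norm).div_const 2

theorem c5_key (g₁ A g : O3) :
    wd ((g₁ * A)⁻¹ * (g * A)) ^ 2 = (1 - ⟪act (g₁ * A) e3, act g (act A e3)⟫) / 2 := by
  rw [wd_sq, ← inner_act (g₁ * A) e3, ← act_mul (g₁ * A), ← act_mul g A, mul_inv_cancel_left]

theorem c5_gt {x y : E3} (hx : ‖x‖ = 1) (hy : ‖y‖ = 1) {k : ℝ} (hk0 : 0 ≤ k) (hk1 : k ≤ 1) :
    haarO3 {h | k < ⟪x, act h y⟫} = ENNReal.ofReal ((1 - k) / 2) := by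
  apply le_antisymm
  · rw [← haar_cap hx hy hk0 hk1]
    refine measure_mono fun h hh => ?_
    have h' : k < ⟪x, act h y⟫ := hh
    show k ≤ ⟪x, act h y⟫
    exact h'.le
  · refine le_of_forall_lt fun c hc => ?_
    by_cases hk : k = 1
    · subst hk
      simp at hc
    have hk2 : k < 1 := lt_of_le_of_ne hk1 hk
    have hc' : c ≠ ⊤ := ne_top_of_lt hc
    have h1 : c.toReal < (1 - k) / 2 := by
      have := (ENNReal.lt_ofReal_iff_toReal_lt hc').1 hc
      exact this
    obtain ⟨k', hk'⟩ : ∃ k' : ℝ, k' = min 1 ((k + (1 - 2 * c.toReal)) / 2) := ⟨_, rfl⟩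
    have h2 : k < k' := by
      rw [hk', lt_min_iff]
      constructor
      · exact hk2
      · linarith
    have h3 : k' ≤ 1 := by rw [hk']; exact min_le_left _ _
    have h4 : k' < 1 - 2 * c.toReal := by
      have : k' ≤ (k + (1 - 2 * c.toReal)) / 2 := by rw [hk']; exact min_le_right _ _
      linarith
    calc c < ENNReal.ofReal ((1 - k') / 2) := by
          rw [ENNReal.lt_ofReal_iff_toReal_lt hc']
          linarith
      _ = haarO3 {h | k' ≤ ⟪x, act h y⟫} := (haar_cap hx hy (by linarith) h3).symm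
      _ ≤ _ := measure_mono fun h hh => lt_of_lt_of_le h2 hh

/-- The square of the distance parameter is uniformly distributed on `[0, 1]`.

Proof. Let `x = act (g₁ * A) e3`, `y = act A e3` (unit vectors); by `wd_sq`, `act_mul`, `inner_act`
(apply `inner_act (g₁ * A)`), `wd ((g₁ * A)⁻¹ * (g * A)) ^ 2 = (1 - ⟪x, act g y⟫) / 2 =: X g`. Let
`ν = haarO3.map X` (a probability measure on `ℝ`); the claim is `ν = volume.restrict (Icc 0 1)`
(then `lintegral_map`). By `Astro.haar_cap` (with `x` and with `-x`): for `0 ≤ k ≤ 1`,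
`haarO3 {k ≤ ⟪x, act g y⟫} = (1 - k) / 2` and `haarO3 {⟪x, act g y⟫ ≤ -k} = (1 - k) / 2`. So
`ν (Iic u) = u` for `0 ≤ u ≤ 1 / 2` (`k = 1 - 2 u`) and `ν (Ici u) = 1 - u` for `1 / 2 ≤ u ≤ 1`
(`k = 2 u - 1`), i.e. `ν (Iio u) = u`. For `1 / 2 ≤ u < 1` also `ν (Iic u) = u`, since
`u = ν (Iio u) ≤ ν (Iic u) ≤ ν (Iio u') = u'` for all `u' ∈ (u, 1]`. Finally `0 ≤ X ≤ 1`. Conclude
with `MeasureTheory.Measure.ext_of_Iic`. -/
theorem law_wd (g₁ A : O3) {f : ℝ → ℝ≥0∞} (hf : Measurable f) :
    ∫⁻ g, f (wd ((g₁ * A)⁻¹ * (g * A)) ^ 2) ∂haarO3 = ∫⁻ u in Icc (0 : ℝ) 1, f u := by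
  obtain ⟨x, hx⟩ : ∃ x, x = act (g₁ * A) e3 := ⟨_, rfl⟩
  obtain ⟨y, hy⟩ : ∃ y, y = act A e3 := ⟨_, rfl⟩
  have hx1 : ‖x‖ = 1 := by rw [hx, norm_act, norm_e3]
  have hy1 : ‖y‖ = 1 := by rw [hy, norm_act, norm_e3]
  obtain ⟨X, hX⟩ : ∃ X : O3 → ℝ, X = fun g => (1 - ⟪x, act g y⟫) / 2 := ⟨_, rfl⟩
  have hXc : Continuous X := by
    rw [hX]
    exact (continuous_const.sub (continuous_const.inner (continuous_act_left y))).div_const 2
  have hXm : Measurable X := hXc.measurable
  have hin : ∀ g, |(⟪x, act g y⟫ : ℝ)| ≤ 1 := by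
    intro g
    have := abs_real_inner_le_norm x (act g y)
    rwa [norm_act, hx1, hy1, one_mul] at this
  have hlaw : haarO3.map X = volume.restrict (Icc (0 : ℝ) 1) := by
    refine MeasureTheory.Measure.ext_of_Iic _ _ fun a => ?_
    rw [Measure.map_apply hXm measurableSet_Iic, Measure.restrict_apply measurableSet_Iic]
    have hpre : X ⁻¹' Iic a = {h | 1 - 2 * a ≤ ⟪x, act h y⟫} := by
      ext g
      rw [hX]
      simp only [mem_preimage, mem_Iic]
      constructor
      · intro h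
        show 1 - 2 * a ≤ _
        linarith
      · intro h
        have h' : 1 - 2 * a ≤ ⟪x, act g y⟫ := h
        linarith
    rw [hpre]
    rcases lt_or_ge a 0 with h0 | h0
    · have e1 : {h : O3 | 1 - 2 * a ≤ ⟪x, act h y⟫} = ∅ := by
        ext g
        simp only [mem_empty_iff_false, iff_false]
        intro h
        have h' : 1 - 2 * a ≤ ⟪x, act g y⟫ := h
        have := (abs_le.1 (hin g)).2
        linarith
      have e2 : Iic a ∩ Icc (0 : ℝ) 1 = ∅ := by
        ext u
        simp only [mem_inter_iff, mem_Iic, mem_Icc, mem_empty_iff_false, iff_false]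
        rintro ⟨h1, h2, -⟩
        linarith
      rw [e1, e2, measure_empty, measure_empty]
    rcases le_or_gt a (1 / 2) with h1 | h1
    · rw [haar_cap hx1 hy1 (by linarith) (by linarith)]
      have e2 : Iic a ∩ Icc (0 : ℝ) 1 = Icc 0 a := by
        ext u
        simp only [mem_inter_iff, mem_Iic, mem_Icc]
        constructor
        · rintro ⟨h1, h2, -⟩
          exact ⟨h2, h1⟩
        · rintro ⟨h2, h3⟩
          exact ⟨h3, h2, by linarith⟩
      rw [e2, Real.volume_Icc]
      congr 1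
      ring
    rcases lt_or_ge a 1 with h2 | h2
    · have hc : {h : O3 | 1 - 2 * a ≤ ⟪x, act h y⟫} = {h : O3 | 2 * a - 1 < ⟪-x, act h y⟫}ᶜ := by
        ext g
        simp only [mem_compl_iff]
        constructor
        · intro h h'
          have h1 : 1 - 2 * a ≤ ⟪x, act g y⟫ := h
          have h2 : 2 * a - 1 < ⟪-x, act g y⟫ := h'
          rw [inner_neg_left] at h2
          linarith
        · intro h
          have h2 : ¬ (2 * a - 1 < ⟪-x, act g y⟫) := h
          rw [inner_neg_left, not_lt] at h2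
          show 1 - 2 * a ≤ ⟪x, act g y⟫
          linarith
      have hm : MeasurableSet {h : O3 | 2 * a - 1 < ⟪-x, act h y⟫} :=
        (isOpen_lt continuous_const (continuous_const.inner (continuous_act_left y))).measurableSet
      rw [hc, prob_compl_eq_one_sub hm, c5_gt (by rw [norm_neg, hx1]) hy1 (by linarith) (by linarith)]
      have e2 : Iic a ∩ Icc (0 : ℝ) 1 = Icc 0 a := by
        ext u
        simp only [mem_inter_iff, mem_Iic, mem_Icc]
        constructor
        · rintro ⟨h1, h2, -⟩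
          exact ⟨h2, h1⟩
        · rintro ⟨h2, h3⟩
          exact ⟨h3, h2, by linarith⟩
      rw [e2, Real.volume_Icc, ← ENNReal.ofReal_one, ← ENNReal.ofReal_sub _ (by linarith)]
      congr 1
      ring
    · have e1 : {h : O3 | 1 - 2 * a ≤ ⟪x, act h y⟫} = univ := by
        ext g
        simp only [mem_univ, iff_true]
        show 1 - 2 * a ≤ ⟪x, act g y⟫
        have := (abs_le.1 (hin g)).1
        linarith
      have e2 : Iic a ∩ Icc (0 : ℝ) 1 = Icc 0 1 := by
        ext u
        simp only [mem_inter_iff, mem_Iic, mem_Icc]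
        constructor
        · rintro ⟨h1, h2, h3⟩
          exact ⟨h2, h3⟩
        · rintro ⟨h2, h3⟩
          exact ⟨by linarith, h2, h3⟩
      rw [e1, e2, measure_univ, Real.volume_Icc]
      simp
  have h1 : ∀ g, f (wd ((g₁ * A)⁻¹ * (g * A)) ^ 2) = f (X g) := by
    intro g
    rw [c5_key, hX, ← hx, ← hy]
  rw [lintegral_congr h1, ← hlaw, lintegral_map hf hXm]

end AstroR
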