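import Mathlib

/-!
# An integral
-/

set_option autoImplicit false

noncomputable section

open Real Finset

namespace AstroR

open MeasureTheory in
/-- Proof: for `u ≤ 1 / q ^ 2` the integrand is zero (`1 / √u ≥ q`; also at `u = 0`, a null set: the
value at the single point `0` is irrelevant); on `(1 / q ^ 2, 1]` it is `q - u ^ (-1/2) ≥ 0`, with
primitive `q u - 2 √u`, so the integral is `q (1 - 1 / q ^ 2) - 2 (1 - 1 / q) = (q - 1) ^ 2 / q`
(`ofReal_integral_eq_lintegral_ofReal`, `intervalIntegral.integral_eq_sub_of_hasDerivAt`). -/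
theorem int_gap {q : ℕ} (hq : 1 ≤ q) :
    ∫⁻ u in Set.Icc (0 : ℝ) 1, ENNReal.ofReal ((q : ℝ) - 1 / √u) ≤
      ENNReal.ofReal (((q : ℝ) - 1) ^ 2 / q) := by
  have hq1 : (1 : ℝ) ≤ q := by exact_mod_cast hq
  have hq0 : (0 : ℝ) < q := by linarith
  obtain ⟨a, ha⟩ : ∃ a : ℝ, a = (1 / (q : ℝ)) ^ 2 := ⟨_, rfl⟩
  have hinv : 0 < 1 / (q : ℝ) := by positivity
  have hinv1 : 1 / (q : ℝ) ≤ 1 := by rw [div_le_one hq0]; exact hq1
  have ha0 : 0 < a := by rw [ha]; positivity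
  have ha1 : a ≤ 1 := by rw [ha]; exact pow_le_one₀ hinv.le hinv1
  have hsa : √a = 1 / (q : ℝ) := by rw [ha]; exact Real.sqrt_sq hinv.le
  have e1 : ∫⁻ u in Set.Icc (0 : ℝ) 1, ENNReal.ofReal ((q : ℝ) - 1 / √u) =
      ∫⁻ u in Set.Ioc (0 : ℝ) 1, ENNReal.ofReal ((q : ℝ) - 1 / √u) := by
    rw [restrict_Ioc_eq_restrict_Icc]
  have e2 : ∫⁻ u in Set.Ioc (0 : ℝ) 1, ENNReal.ofReal ((q : ℝ) - 1 / √u) =
      (∫⁻ u in Set.Ioc (0 : ℝ) a, ENNReal.ofReal ((q : ℝ) - 1 / √u)) +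
        ∫⁻ u in Set.Ioc a 1, ENNReal.ofReal ((q : ℝ) - 1 / √u) := by
    rw [← Set.Ioc_union_Ioc_eq_Ioc ha0.le ha1]
    exact lintegral_union measurableSet_Ioc (Set.Ioc_disjoint_Ioc_of_le le_rfl)
  have e3 : ∫⁻ u in Set.Ioc (0 : ℝ) a, ENNReal.ofReal ((q : ℝ) - 1 / √u) = 0 := by
    rw [setLIntegral_congr_fun measurableSet_Ioc (g := fun _ => 0)]
    · simp
    · intro u hu
      have hu0 : 0 < √u := Real.sqrt_pos.2 hu.1
      have h1 : √u ≤ 1 / (q : ℝ) := by rw [← hsa]; exact Real.sqrt_le_sqrt hu.2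
      have h2 : (q : ℝ) ≤ 1 / √u := by
        rw [le_div_iff₀ hu0]
        calc (q : ℝ) * √u ≤ q * (1 / (q : ℝ)) := by gcongr
          _ = 1 := by field_simp
      exact ENNReal.ofReal_of_nonpos (by linarith)
  have hcont : ContinuousOn (fun u : ℝ => (q : ℝ) - 1 / √u) (Set.Icc a 1) := by
    refine continuousOn_const.sub (continuousOn_const.div Real.continuous_sqrt.continuousOn ?_)
    intro u hu
    exact (Real.sqrt_pos.2 (lt_of_lt_of_le ha0 hu.1)).ne'
  have hint : IntegrableOn (fun u : ℝ => (q : ℝ) - 1 / √u) (Set.Ioc a 1) :=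
    (hcont.integrableOn_Icc).mono_set Set.Ioc_subset_Icc_self
  have e4 : ∫⁻ u in Set.Ioc a 1, ENNReal.ofReal ((q : ℝ) - 1 / √u) =
      ENNReal.ofReal (∫ u in Set.Ioc a 1, ((q : ℝ) - 1 / √u)) := by
    refine (ofReal_integral_eq_lintegral_ofReal hint ?_).symm
    refine (ae_restrict_iff' measurableSet_Ioc).2 (Filter.Eventually.of_forall ?_)
    intro u hu
    have hu0 : 0 < √u := Real.sqrt_pos.2 (lt_trans ha0 hu.1)
    have h1 : 1 / (q : ℝ) ≤ √u := by rw [← hsa]; exact Real.sqrt_le_sqrt hu.1.le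
    have h2 : 1 / √u ≤ (q : ℝ) := by
      rw [div_le_iff₀ hu0]
      calc (1 : ℝ) = q * (1 / (q : ℝ)) := by field_simp
        _ ≤ q * √u := by gcongr
    simp only [Pi.zero_apply]
    linarith
  have e5 : ∫ u in Set.Ioc a 1, ((q : ℝ) - 1 / √u) = ((q : ℝ) - 1) ^ 2 / q := by
    rw [← intervalIntegral.integral_of_le ha1]
    rw [intervalIntegral.integral_eq_sub_of_hasDerivAt (f := fun u : ℝ => (q : ℝ) * u - 2 * √u)]
    · rw [hsa, Real.sqrt_one, ha]
      field_simp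
      ring
    · intro u hu
      rw [Set.uIcc_of_le ha1] at hu
      have hu0 : 0 < u := lt_of_lt_of_le ha0 hu.1
      have hd := ((hasDerivAt_id u).const_mul (q : ℝ)).sub
        ((Real.hasDerivAt_sqrt hu0.ne').const_mul 2)
      have hs : √u ≠ 0 := (Real.sqrt_pos.2 hu0).ne'
      have hval : (q : ℝ) * 1 - 2 * (1 / (2 * √u)) = (q : ℝ) - 1 / √u := by
        field_simp
      rw [hval] at hd
      exact hd
    · refine ContinuousOn.intervalIntegrable ?_
      rw [Set.uIcc_of_le ha1]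
      exact hcont
  rw [e1, e2, e3, e4, e5, zero_add]

end AstroR
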