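import Pool.Agent.Lib.H73R.C4
import Pool.Agent.Lib.H73R.C5
import Pool.Agent.Lib.H73R.C6

/-!
# The mean measure of the missed locations
-/

set_option autoImplicit false

noncomputable section

open MeasureTheory Metric Set Real Filter Topology
open scoped RealInnerProductSpace NNReal ENNReal

namespace AstroR

open Astro

theorem c7_meas (Q : List (ℕ × ℕ)) :
    Measurable fun u : ℝ => (Q.map (fun q => ENNReal.ofReal ((q.2 : ℝ) - 1 / √u))).sum := by
  induction Q with
  | nil =>
    simp only [List.map_nil, List.sum_nil]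
    exact measurable_const
  | cons q Q ih =>
    simp only [List.map_cons, List.sum_cons]
    have h1 : Measurable fun u : ℝ => ENNReal.ofReal ((q.2 : ℝ) - 1 / √u) := by fun_prop
    exact h1.add ih

theorem c7_int (Q : List (ℕ × ℕ)) (hQ : ∀ q ∈ Q, 1 ≤ q.2) :
    ∫⁻ u in Icc (0 : ℝ) 1, (Q.map (fun q => ENNReal.ofReal ((q.2 : ℝ) - 1 / √u))).sum ≤
      ENNReal.ofReal (Q.map (fun q => ((q.2 : ℝ) - 1) ^ 2 / (q.2 : ℝ))).sum := by
  induction Q with
  | nil => simp
  | cons q Q ih =>
    simp only [List.map_cons, List.sum_cons]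
    have h1 : Measurable fun u : ℝ => ENNReal.ofReal ((q.2 : ℝ) - 1 / √u) := by fun_prop
    rw [lintegral_add_left h1]
    have h2 : 1 ≤ q.2 := hQ q (by simp)
    have h3 := int_gap h2
    have h4 := ih fun q' hq' => hQ q' (by simp [hq'])
    have h5 : 0 ≤ (Q.map (fun q => ((q.2 : ℝ) - 1) ^ 2 / (q.2 : ℝ))).sum := by
      apply List.sum_nonneg
      intro x hx
      rw [List.mem_map] at hx
      obtain ⟨q', -, rfl⟩ := hx
      positivity
    rw [ENNReal.ofReal_add (by positivity) h5]
    exact add_le_add h3 h4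

theorem c7_gaps : ∀ m < 16, ∀ q ∈ gaps m, 1 ≤ q.2 := by decide

/-- Proof. `m = 0`: `miss 0 w ∩ Ico 0 16 = Ico 0 16` has measure `16 = 16 * Um 0`, and `haarO3` is a
probability measure. `m ≥ 1`: by `vol_miss` (`wd ≥ 0`, `wd = √(wd ^ 2)`) the integrand is at most
`f (wd .. ^ 2)` with `f u = ((gaps m).map (fun q => ENNReal.ofReal (q.2 - 1 / √u))).sum`, a measurable
function (`List.measurable_sum` or `List` induction). By `law_wd` the integral is at most
`∫⁻ u in Icc 0 1, f u = ` the sum over `gaps m` of the integrals of `int_gap` (`List` induction with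
`lintegral_add_left`; `1 ≤ q.2` for `q ∈ gaps m`, finite check), at most
`((gaps m).map (fun q => ENNReal.ofReal ((q.2 - 1) ^ 2 / q.2))).sum = ENNReal.ofReal (16 * Um m)`
(`ENNReal.ofReal` of a sum of nonnegative terms, `List` induction). -/
theorem avg_miss {m : ℕ} (hm : m < 16) (g₁ A : O3) :
    ∫⁻ g, volume (miss m (wd ((g₁ * A)⁻¹ * (g * A))) ∩ Ico 0 16) ∂haarO3 ≤
      ENNReal.ofReal (16 * Um m) := by
  by_cases h0 : m = 0
  · subst h0
    have h1 : ∀ g : O3, volume (miss 0 (wd ((g₁ * A)⁻¹ * (g * A))) ∩ Ico 0 16) = ENNReal.ofReal 16 := by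
      intro g
      have h2 : miss 0 (wd ((g₁ * A)⁻¹ * (g * A))) = univ := by
        unfold miss
        rw [if_pos rfl]
      rw [h2, univ_inter, Real.volume_Ico]
      norm_num
    rw [lintegral_congr h1, lintegral_const, measure_univ, mul_one]
    unfold Um
    rw [if_pos rfl, mul_one]
  · have h1 : ∀ g : O3, volume (miss m (wd ((g₁ * A)⁻¹ * (g * A))) ∩ Ico 0 16) ≤
        ((gaps m).map (fun q => ENNReal.ofReal ((q.2 : ℝ) - 1 / √(wd ((g₁ * A)⁻¹ * (g * A)) ^ 2)))).sum := by
      intro g
      have h2 : 0 ≤ wd ((g₁ * A)⁻¹ * (g * A)) := by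
        unfold wd
        positivity
      rw [Real.sqrt_sq h2]
      exact (measure_mono inter_subset_left).trans (vol_miss (by omega) h2)
    refine (lintegral_mono h1).trans ?_
    rw [law_wd g₁ A (c7_meas (gaps m))]
    refine (c7_int (gaps m) (c7_gaps m hm)).trans (le_of_eq ?_)
    congr 1
    unfold Um
    rw [if_neg h0]
    ring

end AstroR
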