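import Mathlib

/-!
# Averages over a period
-/

set_option autoImplicit false

noncomputable section

open Real Finset

namespace AstroR

open MeasureTheory in
/-- Integrals of a function of the fractional part over intervals of length one. -/
theorem c8_per {H : ℝ → ENNReal} (t : ℝ) :
    ∫⁻ z in Set.Ioc t (t + 1), H (Int.fract z) = ∫⁻ z in Set.Ico (0 : ℝ) 1, H z := by
  have h1 := isAddFundamentalDomain_Ioc (T := (1 : ℝ)) one_pos t volume
  have h2 := isAddFundamentalDomain_Ioc (T := (1 : ℝ)) one_pos 0 volume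
  have h3 : ∫⁻ z in Set.Ioc t (t + 1), H (Int.fract z) = ∫⁻ z in Set.Ioc (0 : ℝ) (0 + 1), H (Int.fract z) := by
    refine h1.setLIntegral_eq h2 (fun z => H (Int.fract z)) ?_
    rintro ⟨g, hg⟩ x
    obtain ⟨n, hn⟩ := AddSubgroup.mem_zmultiples_iff.1 hg
    have h4 : (⟨g, hg⟩ : AddSubgroup.zmultiples (1 : ℝ)) +ᵥ x = (n : ℝ) + x := by
      rw [AddSubgroup.vadd_def, vadd_eq_add]
      change g + x = (n : ℝ) + x
      rw [← hn, zsmul_one]
    rw [h4, Int.fract_intCast_add]
  rw [h3, zero_add]
  have h5 : ∫⁻ z in Set.Ioc (0 : ℝ) 1, H (Int.fract z) = ∫⁻ z in Set.Ico (0 : ℝ) 1, H (Int.fract z) :=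
    (setLIntegral_congr Ico_ae_eq_Ioc).symm
  rw [h5]
  refine setLIntegral_congr_fun measurableSet_Ico fun z hz => ?_
  rw [Int.fract_eq_self.2 ⟨hz.1, hz.2⟩]

open MeasureTheory in
/-- Proof. `H ∘ Int.fract` is measurable and periodic with period `1`. For `ε = 1`: the map
`v ↦ a - v` preserves the measure (`Measure.measurePreserving_sub_left volume a`,
`MeasurePreserving.setLIntegral_comp_preimage` with `measurableEmbedding`), so the left side is the
integral of `H ∘ Int.fract` over `Ioc (a - 1) a`; for `ε = -1` the map `v ↦ v - a` gives the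
integral over `Ico (-a) (-a + 1)`. Both are fundamental domains of `AddSubgroup.zmultiples (1 : ℝ)`
(`isAddFundamentalDomain_Ioc`; `Ico` and `Ioc` differ by a null set: `Ico_ae_eq_Ioc`), so by
`IsAddFundamentalDomain.setLIntegral_eq` the value is that over `Ioc 0 1`, i.e. over `Ico 0 1`,
where `Int.fract z = z`. -/
theorem fract_avg {H : ℝ → ENNReal} (hH : Measurable H) (a : ℝ) {ε : ℝ} (hε : ε = 1 ∨ ε = -1) :
    ∫⁻ v in Set.Ico (0 : ℝ) 1, H (Int.fract (ε * (a - v))) = ∫⁻ z in Set.Ico (0 : ℝ) 1, H z := by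
  have hm : Measurable fun z : ℝ => H (Int.fract z) := hH.comp measurable_fract
  rcases hε with rfl | rfl
  · have h1 := (Measure.measurePreserving_sub_left volume a).setLIntegral_comp_preimage
      (measurableSet_Ioc (a := a - 1) (b := a - 1 + 1)) hm
    have h2 : (fun v : ℝ => a - v) ⁻¹' Set.Ioc (a - 1) (a - 1 + 1) = Set.Ico (0 : ℝ) 1 := by
      ext v
      simp only [Set.mem_preimage, Set.mem_Ioc, Set.mem_Ico]
      constructor
      · rintro ⟨h3, h4⟩
        constructor <;> linarith
      · rintro ⟨h3, h4⟩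
        constructor <;> linarith
    rw [h2, c8_per] at h1
    simp only [one_mul]
    exact h1
  · have h1 := (measurePreserving_sub_right volume a).setLIntegral_comp_preimage
      (measurableSet_Ico (a := -a) (b := -a + 1)) hm
    have h2 : (fun v : ℝ => v - a) ⁻¹' Set.Ico (-a) (-a + 1) = Set.Ico (0 : ℝ) 1 := by
      ext v
      simp only [Set.mem_preimage, Set.mem_Ico]
      constructor
      · rintro ⟨h3, h4⟩
        constructor <;> linarith
      · rintro ⟨h3, h4⟩
        constructor <;> linarith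
    rw [h2, setLIntegral_congr Ico_ae_eq_Ioc (f := fun z => H (Int.fract z)), c8_per] at h1
    have h3 : ∀ v : ℝ, -1 * (a - v) = v - a := fun v => by ring
    simp only [h3]
    exact h1

open MeasureTheory in
theorem c8_one {S : Set ℝ} (hS : MeasurableSet S) (l : ℕ) :
    ∫⁻ z in Set.Ico (0 : ℝ) 1, S.indicator (fun _ => (1 : ENNReal)) (l + z) = volume (S ∩ Set.Ico (l : ℝ) (l + 1)) := by
  have hm : Measurable (S.indicator (fun _ => (1 : ENNReal))) := measurable_const.indicator hS
  have h1 := (measurePreserving_add_left volume (l : ℝ)).setLIntegral_comp_preimage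
    (measurableSet_Ico (a := (l : ℝ)) (b := l + 1)) hm
  have h2 : (fun z : ℝ => (l : ℝ) + z) ⁻¹' Set.Ico (l : ℝ) (l + 1) = Set.Ico (0 : ℝ) 1 := by
    ext v
    simp only [Set.mem_preimage, Set.mem_Ico]
    constructor
    · rintro ⟨h3, h4⟩
      constructor <;> linarith
    · rintro ⟨h3, h4⟩
      constructor <;> linarith
  rw [h2] at h1
  rw [h1, lintegral_indicator hS, setLIntegral_const, one_mul, Measure.restrict_apply hS]

open MeasureTheory in
theorem c8_sum {S : Set ℝ} (hS : MeasurableSet S) (n : ℕ) :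
    ∑ l ∈ Finset.range n, volume (S ∩ Set.Ico (l : ℝ) (l + 1)) = volume (S ∩ Set.Ico (0 : ℝ) n) := by
  induction n with
  | zero => simp
  | succ n ih =>
    rw [Finset.sum_range_succ, ih]
    have h1 : Set.Ico (0 : ℝ) n ∪ Set.Ico (n : ℝ) (n + 1) = Set.Ico (0 : ℝ) ((n + 1 : ℕ) : ℝ) := by
      push_cast
      exact Set.Ico_union_Ico_eq_Ico (Nat.cast_nonneg n) (by linarith)
    rw [← h1, Set.inter_union_distrib_left, measure_union ?_ (hS.inter measurableSet_Ico)]
    refine Set.disjoint_left.2 ?_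
    rintro x ⟨-, hx⟩ ⟨-, hx'⟩
    have := hx.2
    have := hx'.1
    linarith

open MeasureTheory in
/-- Proof: `∫⁻ z in Ico 0 1, S.indicator 1 (l + z)` is the integral of `S.indicator 1` over
`Ico l (l + 1)` (`lintegral_add_left_eq_self`/`measurePreserving_add_left`), i.e.
`volume (S ∩ Ico l (l + 1))`; `Ico 0 16` is the disjoint union of these sets (`measure_biUnion_finset`,
or induction on the upper end with `Ico_union_Ico_eq_Ico`). -/
theorem sum_translates {S : Set ℝ} (hS : MeasurableSet S) :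
    ∑ l ∈ Finset.range 16, ∫⁻ z in Set.Ico (0 : ℝ) 1, S.indicator (fun _ => (1 : ENNReal)) (l + z) =
      volume (S ∩ Set.Ico 0 16) := by
  have h1 := c8_sum hS 16
  rw [← show ((16 : ℕ) : ℝ) = 16 by norm_num, ← h1]
  exact Finset.sum_congr rfl fun l _ => c8_one hS l

end AstroR
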