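import Pool.Agent.Lib.H33Astro.Main

/-!
# The astronaut problem, upper constant `5 π² / 16`: definitions

Project H73R (MP_98cbc5_pr). Overview: `PROOF.md` in this directory. The base library is
`Pool.Agent.Lib.H33Astro` (namespace `Astro`): `E3`, `O3`, `act`, `haarO3`, `gdist`, `Paths`,
`meetTime`, `expMeet`, `value`, `uv`, `rot`, `e3`, `actE`.
-/

set_option autoImplicit false

noncomputable section

open MeasureTheory Metric Set Real Filter Topology
open scoped RealInnerProductSpace NNReal ENNReal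

namespace AstroR

open Astro

/-- The point of the unit sphere with polar angle `t` and azimuth `α`. -/
def sph (t α : ℝ) : E3 := sin t • uv α + cos t • e3

/-- Half the distance of the two poles (`h` is the frame of the second player seen by the first). -/
def wd (h : O3) : ℝ := ‖e3 - act h e3‖ / 2

/-- Unit speed curves on the unit sphere (defined for all real times). -/
def LipU (c : ℝ → E3) : Prop :=
  (∀ t, ‖c t‖ = 1) ∧ ∀ s t, InnerProductGeometry.angle (c s) (c t) ≤ |s - t|

/-- The geometric property of a relative position `h` (proved in `G1` for some `θ`, `ς = ± 1`). -/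
def GeoProp (h : O3) (θ ς : ℝ) : Prop :=
  ∀ α β : ℝ, cos ((θ + ς * α - β) / 2) ≠ 0 →
    ∃ t, 0 ≤ t ∧ t ≤ π ∧ wd h ≤ sin t ∧
      ‖sph t α - act h (sph t β)‖ ≤ 2 * wd h * |tan ((θ + ς * α - β) / 2)|

/-! ### The order of the blocks -/

/-- Bit reversal of four bits. -/
def sigL : List ℕ := [0, 8, 4, 12, 2, 10, 6, 14, 1, 9, 5, 13, 3, 11, 7, 15]

/-- The block traversed in stage `m < 16`. -/
def sig (m : ℕ) : ℕ := sigL.getD m 0

/-- The polar angle at which the passes of stage `m` begin. -/
def cut (m : ℕ) : ℝ :=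
  if m = 0 then 0 else if m = 1 then 1 / 16 else if m < 4 then 1 / 8 else if m < 8 then 1 / 4
    else 1 / 2

/-- Is the block `l` traversed in one of the stages `0, ..., m - 1`? -/
def used (m l : ℕ) : Bool := (sigL.take m).contains l

/-- The next used block after `l` (`16` if there is none). -/
def nxt (m l : ℕ) : ℕ :=
  ((List.range 17).filter (fun n => decide (l < n) && (n == 16 || used m n))).headD 16

/-- The gaps `(start, length)` between used blocks before stage `m`. -/
def gaps (m : ℕ) : List (ℕ × ℕ) :=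
  ((List.range 16).filter (fun l => used m l)).map (fun l => (l, nxt m l - l))

/-- The location `x` (a point of the circle `ℝ / 16`) is hit in stage `m` by players whose frames
have distance parameter `w`. -/
def hit (m : ℕ) (x w : ℝ) : Prop :=
  ∃ s : ℤ, (16 : ℤ) ∣ s - (sig m : ℤ) ∧ |x - s| ≤ 8 ∧ 2 * w * |x - s| ≤ 1

/-- The first stage in which the location `x` is hit. -/
def mst (x w : ℝ) : ℕ := sInf {m : ℕ | hit m x w}

/-- The set of locations which can be missed by the stages `0, ..., m - 1`. -/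
def miss (m : ℕ) (w : ℝ) : Set ℝ :=
  if m = 0 then univ else
    {x | ∃ q ∈ gaps m, 1 < 2 * w * (x - (q.1 : ℝ)) ∧ 1 < 2 * w * ((q.1 : ℝ) + (q.2 : ℝ) - x)}

/-- Probability that a location is missed by the stages `0, ..., m - 1`. -/
def Um (m : ℕ) : ℝ :=
  if m = 0 then 1 else ((gaps m).map (fun q => ((q.2 : ℝ) - 1) ^ 2 / (q.2 : ℝ))).sum / 16

/-! ### The schedule -/

/-- Duration of a pass of stage `m`, including the allowance `τ` for the transfer. -/
def Lp (τ : ℝ) (m : ℕ) : ℝ := π - 2 * cut m + τ

/-- Number of passes of each stage. -/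
def Np (K E : ℕ) : ℕ := K / 16 + 2 * E + 1

/-- Beginning of stage `m`. -/
def Dm (K E : ℕ) (τ : ℝ) (m : ℕ) : ℝ :=
  4 * ((m : ℝ) + 1) + (Np K E : ℝ) * ∑ j ∈ Finset.range m, Lp τ j

/-- Time within pass `p` (of stage `m`) at which the polar angle is `t`. -/
def lt (m p : ℕ) (t : ℝ) : ℝ := if Even p then t - cut m else π - cut m - t

/-- Time at which the polar angle is `t` in pass `p` of stage `m`. -/
def tm (K E : ℕ) (τ : ℝ) (m p : ℕ) (t : ℝ) : ℝ := Dm K E τ m + p * Lp τ m + lt m p t

/-- Index of the meridian of pass `p` of stage `m`. -/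
def kap (K E m p : ℕ) : ℤ := ((sig m * K / 16 : ℕ) : ℤ) - (E : ℤ) + (p : ℤ)

/-- Azimuth of the meridian with index `k` of a player of type `a`. -/
def az (K a : ℕ) (k : ℤ) : ℝ := 2 * π * (a : ℝ) * (k : ℝ) / (K : ℝ)

/-- The epoch curve of a player of type `a`. -/
structure Epo (K E : ℕ) (τ : ℝ) (a : ℕ) (c : ℝ → E3) : Prop where
  lip : LipU c
  start : c 0 = e3
  fin : c (Dm K E τ 16) = e3
  pass : ∀ m < 16, ∀ p < Np K E, ∀ t, cut m ≤ t → t ≤ π - cut m →
    c (tm K E τ m p t) = sph t (az K a (kap K E m p))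

/-- Bound for the average meeting time of the pairs which meet in stage `m`. -/
def Vm (K E : ℕ) (τ : ℝ) (m : ℕ) : ℝ := Dm K E τ m + Lp τ m * ((K : ℝ) / 32 + 2 * E + 2)

/-- Increments of `Vm`. -/
def dV (K E : ℕ) (τ : ℝ) (m : ℕ) : ℝ := if m = 0 then Vm K E τ 0 else Vm K E τ m - Vm K E τ (m - 1)

/-- The mean meeting time (on the unit sphere) of two players of different types. -/
def Phi (K E : ℕ) (τ : ℝ) : ℝ :=
  1 / (K : ℝ) * ((K : ℝ) / 16 + 1) * ∑ m ∈ Finset.range 16, dV K E τ m * (16 * Um m)

end AstroR
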