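import Pool.Agent.Lib.H73R.P0

/-!
# The geometric core: two players on meridians
-/

set_option autoImplicit false

noncomputable section

open MeasureTheory Metric Set Real Filter Topology
open scoped RealInnerProductSpace NNReal ENNReal

namespace AstroR

open Astro

/-- The computation in coordinates. -/
theorem g1_alg (a b w α β : ℝ) (h1 : a ^ 2 + b ^ 2 + w ^ 2 = 1) (hw : 0 < w)
    (hc : cos ((α - β) / 2) ≠ 0) : ∃ t, 0 ≤ t ∧ t ≤ π ∧ w ≤ sin t ∧
      (sin t * cos α - sin t * cos β) ^ 2 + (sin t * sin α - sin t * sin β) ^ 2 +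
        4 * ((sin t * (a * cos α + b * sin α) + w * cos t) *
          (sin t * (a * cos β + b * sin β) + w * cos t)) ≤ (2 * w * |tan ((α - β) / 2)|) ^ 2 := by
  set μ := (α + β) / 2 with hμ
  set ν := (α - β) / 2 with hν
  have hα : α = μ + ν := by rw [hμ, hν]; ring
  have hβ : β = μ - ν := by rw [hμ, hν]; ring
  set p := a * cos μ + b * sin μ with hp
  set q := -a * sin μ + b * cos μ with hq
  have hpq : p ^ 2 + q ^ 2 = 1 - w ^ 2 := by
    rw [hp, hq]
    have := sin_sq_add_cos_sq μ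
    linear_combination (a ^ 2 + b ^ 2) * this + h1
  have e1 : a * cos α + b * sin α = p * cos ν + q * sin ν := by
    rw [hα, cos_add, sin_add, hp, hq]; ring
  have e2 : a * cos β + b * sin β = p * cos ν - q * sin ν := by
    rw [hβ, cos_sub, sin_sub, hp, hq]; ring
  have e3 : (cos α - cos β) ^ 2 + (sin α - sin β) ^ 2 = 4 * sin ν ^ 2 := by
    rw [hα, hβ, cos_add, sin_add, cos_sub, sin_sub]
    have := sin_sq_add_cos_sq μ
    linear_combination (4 * sin ν ^ 2) * this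
  set s := p * cos ν with hs
  have hν1 := sin_sq_add_cos_sq ν
  have hr0 : 0 < w ^ 2 + s ^ 2 := by positivity
  have hcos1 : cos ν ^ 2 ≤ 1 := by nlinarith [sq_nonneg (sin ν)]
  have hs2 : s ^ 2 ≤ p ^ 2 := by
    rw [hs, mul_pow]
    nlinarith [sq_nonneg p]
  have hr1 : w ^ 2 + s ^ 2 ≤ 1 := by nlinarith [sq_nonneg q]
  set r := √(w ^ 2 + s ^ 2) with hr
  have hrpos : 0 < r := Real.sqrt_pos.2 hr0
  have hrsq : r ^ 2 = w ^ 2 + s ^ 2 := Real.sq_sqrt hr0.le
  have hr1' : r ≤ 1 := by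
    rw [hr]
    exact Real.sqrt_le_one.2 hr1
  have hsr : |s| ≤ r := by
    rw [hr]
    exact Real.abs_le_sqrt (by nlinarith [sq_nonneg w])
  have hlow : -1 ≤ -(s / r) := by
    have h2 : s / r ≤ 1 := by
      rw [div_le_one hrpos]
      exact (le_abs_self s).trans hsr
    linarith
  have hupp : -(s / r) ≤ 1 := by
    rw [← neg_div, div_le_one hrpos]
    exact (neg_le_abs s).trans hsr
  refine ⟨arccos (-(s / r)), arccos_nonneg _, arccos_le_pi _, ?_⟩
  have hct : cos (arccos (-(s / r))) = -(s / r) := Real.cos_arccos hlow hupp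
  have hst : sin (arccos (-(s / r))) = w / r := by
    rw [Real.sin_arccos]
    have h2 : 1 - (-(s / r)) ^ 2 = (w / r) ^ 2 := by
      have h3 : w ^ 2 = r ^ 2 - s ^ 2 := by linarith
      rw [neg_sq, div_pow, div_pow, h3]
      field_simp
    rw [h2]
    exact Real.sqrt_sq (by positivity)
  rw [hct, hst, e1, e2]
  refine ⟨?_, ?_⟩
  · rw [le_div_iff₀ hrpos]
    nlinarith
  · have hz : w / r * s + w * -(s / r) = 0 := by
      field_simp
      ring
    have h4 : (w / r * cos α - w / r * cos β) ^ 2 + (w / r * sin α - w / r * sin β) ^ 2 +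
        4 * ((w / r * (s + q * sin ν) + w * -(s / r)) * (w / r * (s - q * sin ν) + w * -(s / r))) =
        4 * (w / r) ^ 2 * sin ν ^ 2 * (1 - q ^ 2) := by
      have h5 : w / r * (s + q * sin ν) + w * -(s / r) = w / r * (q * sin ν) := by
        linear_combination hz
      have h6 : w / r * (s - q * sin ν) + w * -(s / r) = -(w / r * (q * sin ν)) := by
        linear_combination hz
      rw [h5, h6]
      linear_combination (w / r) ^ 2 * e3
    rw [h4]
    have hcpos : 0 < cos ν ^ 2 := by positivity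
    have h7 : (2 * w * |tan ν|) ^ 2 = 4 * w ^ 2 * sin ν ^ 2 / cos ν ^ 2 := by
      rw [mul_pow, sq_abs, Real.tan_eq_sin_div_cos, div_pow]
      ring
    rw [h7, le_div_iff₀ hcpos, div_pow, hrsq]
    have h8 : cos ν ^ 2 * (1 - q ^ 2) ≤ w ^ 2 + s ^ 2 := by
      have h9 : 1 - q ^ 2 = w ^ 2 + p ^ 2 := by linarith
      rw [h9, hs]
      nlinarith [sq_nonneg w]
    have h10 : 4 * (w ^ 2 / (w ^ 2 + s ^ 2)) * sin ν ^ 2 * (1 - q ^ 2) * cos ν ^ 2 =
        4 * w ^ 2 * sin ν ^ 2 * ((cos ν ^ 2 * (1 - q ^ 2)) / (w ^ 2 + s ^ 2)) := by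
      ring
    rw [h10]
    have h11 : (cos ν ^ 2 * (1 - q ^ 2)) / (w ^ 2 + s ^ 2) ≤ 1 := by
      rw [div_le_one hr0]
      exact h8
    exact mul_le_of_le_one_right (by positivity) h11

theorem g1_refl (n x : E3) (hn : n ≠ 0) :
    (ℝ ∙ n)ᗮ.reflection x = x - (2 * (⟪n, x⟫ / ‖n‖ ^ 2)) • n := by
  rw [Submodule.reflection_orthogonal_apply, Submodule.reflection_singleton_apply]
  simp only [RCLike.ofReal_real_eq_id, id_eq]
  module

theorem g1_sph_0 (t α : ℝ) : sph t α 0 = sin t * cos α := by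
  simp [sph]

theorem g1_sph_1 (t α : ℝ) : sph t α 1 = sin t * sin α := by
  simp [sph]

theorem g1_sph_2 (t α : ℝ) : sph t α 2 = cos t := by
  simp [sph]

/-- `‖P - S P'‖ ^ 2 = ‖P - P'‖ ^ 2 + 4 ⟪ν, P⟫ ⟪ν, P'⟫`. -/
theorem g1_normsq (n P P' : E3) (hn : n ≠ 0) :
    ‖P - (P' - (2 * (⟪n, P'⟫ / ‖n‖ ^ 2)) • n)‖ ^ 2 =
      ‖P - P'‖ ^ 2 + 4 * ((⟪n, P⟫ / ‖n‖) * (⟪n, P'⟫ / ‖n‖)) := by
  have hn0 : ‖n‖ ≠ 0 := norm_ne_zero_iff.2 hn
  have e1 : P - (P' - (2 * (⟪n, P'⟫ / ‖n‖ ^ 2)) • n) = (P - P') + (2 * (⟪n, P'⟫ / ‖n‖ ^ 2)) • n := by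
    abel
  rw [e1, norm_add_sq_real, norm_smul, inner_smul_right, real_inner_comm n (P - P'), inner_sub_right, mul_pow,
    Real.norm_eq_abs, sq_abs]
  field_simp
  ring

/-- For every relative position `h` there are `θ` and a sign `ς` with the geometric property.

Proof. Copy the beginning of `Astro.meet_core`: `n = e3 - act h e3`, `S = (ℝ ∙ n)ᗮ.reflection`,
`S e3 = act h e3`, `L = S.trans (actE h).symm`, `act h (L x) = S x`, `L e3 = e3`,
`L (uv α) = uv (θ + ς α)` (`isometry_fix_pole`), hence `L (sph t α) = sph t (θ + ς α)`.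
Fix `α β`, `Δ = θ + ς α - β`, `cos (Δ / 2) ≠ 0`, `w = wd h = ‖n‖ / 2`.

Case `n = 0`: then `w = 0`, `act h e3 = e3`; take `t = 0` (`sph_zero`): both sides are zero.

Case `n ≠ 0`: put `β' = ς (β - θ)`, so `θ + ς β' = β` (`ς ^ 2 = 1`) and
`act h (sph t β) = act h (L (sph t β')) = S (sph t β')`. With `ν = ‖n‖⁻¹ • n` (unit vector) the
reflection is `S x = x - 2 ⟪ν, x⟫ ν` (`Submodule.reflection_orthogonal_apply`,
`Submodule.reflection_singleton_apply`, or `reflection_apply` and the projection on a line), hence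
`‖P - S P'‖ ^ 2 = ‖P - P'‖ ^ 2 + 4 ⟪ν, P⟫ ⟪ν, P'⟫` for unit `P`, `P'`.
Moreover `ν 2 = ⟪ν, e3⟫ = w`, because `‖n‖ ^ 2 = 2 - 2 ⟪act h e3, e3⟫ = 2 ⟪n, e3⟫`.
Let `μ₁ = (α + β') / 2`, `μ₂ = (α - β') / 2 = ς Δ / 2`, `p = ν 0 cos μ₁ + ν 1 sin μ₁`,
`q = - ν 0 sin μ₁ + ν 1 cos μ₁`; so `p ^ 2 + q ^ 2 = ν 0 ^ 2 + ν 1 ^ 2 = 1 - w ^ 2`, and for
`P = sph t α`, `P' = sph t β'`:
`⟪ν, P⟫ = sin t (p cos μ₂ + q sin μ₂) + w cos t`, `⟪ν, P'⟫ = sin t (p cos μ₂ - q sin μ₂) + w cos t`,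
`‖P - P'‖ ^ 2 = 4 sin t ^ 2 sin μ₂ ^ 2`.
Let `s = p cos μ₂`, `r = √(w ^ 2 + s ^ 2) > 0`, `t = arccos (- s / r)`: `cos t = - s / r`,
`sin t = w / r ≥ w` since `w ^ 2 + s ^ 2 ≤ w ^ 2 + p ^ 2 ≤ 1`. Then `⟪ν, P⟫ ⟪ν, P'⟫ =
(sin t s + w cos t) ^ 2 - sin t ^ 2 q ^ 2 sin μ₂ ^ 2 = - sin t ^ 2 q ^ 2 sin μ₂ ^ 2`, so
`‖P - S P'‖ ^ 2 = 4 (w ^ 2 / (w ^ 2 + p ^ 2 cos μ₂ ^ 2)) sin μ₂ ^ 2 (1 - q ^ 2)` with
`1 - q ^ 2 = w ^ 2 + p ^ 2`, and `cos μ₂ ^ 2 (w ^ 2 + p ^ 2) ≤ w ^ 2 + p ^ 2 cos μ₂ ^ 2`, so this is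
at most `4 w ^ 2 sin μ₂ ^ 2 / cos μ₂ ^ 2 = (2 w |tan (Δ / 2)|) ^ 2` (`sin`, `cos` of `μ₂` and of
`Δ / 2` agree up to a sign). (Checked numerically.) -/
theorem geo (h : O3) : ∃ θ ς : ℝ, (ς = 1 ∨ ς = -1) ∧ GeoProp h θ ς := by
  set n : E3 := e3 - act h e3 with hn
  set S : E3 ≃ₗᵢ[ℝ] E3 := (ℝ ∙ n)ᗮ.reflection with hS
  have hSe : S e3 = act h e3 := Submodule.reflection_sub (by rw [norm_act])
  set L : E3 ≃ₗᵢ[ℝ] E3 := S.trans (actE h).symm with hLdef
  have hL : ∀ x, act h (L x) = S x := by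
    intro x
    have : actE h ((actE h).symm (S x)) = S x := LinearIsometryEquiv.apply_symm_apply _ _
    exact this
  have hLe : L e3 = e3 := by
    have h1 : act h (L e3) = act h e3 := by rw [hL, hSe]
    exact (actE h).injective h1
  obtain ⟨θ, ς, hς, hLuv⟩ := isometry_fix_pole L hLe
  have hς2 : ς * ς = 1 := by rcases hς with h | h <;> rw [h] <;> norm_num
  refine ⟨θ, ς, hς, fun α β hcos => ?_⟩
  by_cases hn0 : n = 0
  · have he : act h e3 = e3 := (sub_eq_zero.1 hn0).symm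
    have hw : wd h = 0 := by rw [wd, ← hn, hn0, norm_zero, zero_div]
    refine ⟨0, le_refl _, pi_pos.le, by rw [hw, sin_zero], ?_⟩
    rw [sph_zero, sph_zero, he, sub_self, norm_zero, hw]
    simp
  · have hnn : 0 < ‖n‖ := norm_pos_iff.2 hn0
    set β' := ς * (β - θ) with hβ'
    have hβ : θ + ς * β' = β := by
      rw [hβ', ← mul_assoc, hς2]; ring
    have hLs : ∀ t x, L (sph t x) = sph t (θ + ς * x) := by
      intro t x
      rw [sph, map_add, map_smul, map_smul, hLuv, hLe, sph]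
    have hact : ∀ t, act h (sph t β) = S (sph t β') := by
      intro t
      rw [← hL, hLs, hβ]
    -- the coordinates of the unit normal vector
    have hn2 : ‖n‖ ^ 2 = 2 * n 2 := by
      rw [hn, norm_sub_sq_real, norm_act, norm_e3, ← inner_e3, inner_sub_right, real_inner_self_eq_norm_sq, norm_e3]
      ring
    have hwd : wd h = n 2 / ‖n‖ := by
      rw [wd, ← hn, div_eq_div_iff (by norm_num) hnn.ne']
      linarith
    have hwpos : 0 < wd h := by
      rw [wd, ← hn]; positivity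
    have h1 : (n 0 / ‖n‖) ^ 2 + (n 1 / ‖n‖) ^ 2 + (wd h) ^ 2 = 1 := by
      rw [hwd]
      have h2 := normsq3 n
      rw [div_pow, div_pow, div_pow, ← add_div, ← add_div, ← h2]
      exact div_self (by positivity)
    have hang : (α - β') / 2 = ς * ((θ + ς * α - β) / 2) := by
      have : α = ς * (ς * α) := by rw [← mul_assoc, hς2, one_mul]
      rw [hβ']
      nth_rewrite 1 [this]
      ring
    have hc' : cos ((α - β') / 2) ≠ 0 := by
      rw [hang]
      rcases hς with h | h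
      · rw [h, one_mul]; rw [h] at hcos; exact hcos
      · rw [h, neg_one_mul, cos_neg]; rw [h] at hcos; exact hcos
    have htan : |tan ((α - β') / 2)| = |tan ((θ + ς * α - β) / 2)| := by
      rw [hang]
      rcases hς with h | h
      · rw [h, one_mul]
      · rw [h, neg_one_mul, tan_neg, abs_neg]
    obtain ⟨t, ht0, ht1, ht2, ht3⟩ := g1_alg (n 0 / ‖n‖) (n 1 / ‖n‖) (wd h) α β' h1 hwpos hc'
    refine ⟨t, ht0, ht1, ht2, ?_⟩
    rw [hact, hS, g1_refl n _ hn0]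
    refine (pow_le_pow_iff_left₀ (norm_nonneg _) (by positivity) two_ne_zero).1 ?_
    rw [g1_normsq n _ _ hn0, ← htan]
    refine le_trans (le_of_eq ?_) ht3
    have i1 : ∀ x : ℝ, ⟪n, sph t x⟫ / ‖n‖ = sin t * (n 0 / ‖n‖ * cos x + n 1 / ‖n‖ * sin x) + wd h * cos t := by
      intro x
      rw [inner3, g1_sph_0, g1_sph_1, g1_sph_2, hwd]
      ring
    rw [i1, i1, normsq3]
    have i2 : (sph t α - sph t β') 0 = sin t * cos α - sin t * cos β' := by
      rw [PiLp.sub_apply, g1_sph_0, g1_sph_0]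
    have i3 : (sph t α - sph t β') 1 = sin t * sin α - sin t * sin β' := by
      rw [PiLp.sub_apply, g1_sph_1, g1_sph_1]
    have i4 : (sph t α - sph t β') 2 = 0 := by
      rw [PiLp.sub_apply, g1_sph_2, g1_sph_2, sub_self]
    rw [i2, i3, i4]
    ring

/-- `wd h` lies in `[0, 1]` (`norm_sub_le`, `norm_act`, `norm_e3`). -/
theorem wd_mem (h : O3) : 0 ≤ wd h ∧ wd h ≤ 1 := by
  unfold wd
  refine ⟨by positivity, ?_⟩
  have h1 := norm_sub_le e3 (act h e3)
  rw [norm_act, norm_e3] at h1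
  linarith

/-- `wd` does not change if the second frame is rotated about its pole (`act_mul`,
`rot_act_e3`). -/
theorem wd_mul_rot (h : O3) (φ : ℝ) : wd (h * rot φ) = wd h := by
  unfold wd
  rw [act_mul, rot_act_e3]

end AstroR
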