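import Mathlib

/-!
# The window inequality
-/

set_option autoImplicit false

noncomputable section

open Real Finset

namespace AstroR

/-- `|tan u| ≤ (1 + a) |u|` for `|u| ≤ a`. -/
theorem g2_tan {a : ℝ} (ha : 0 < a) (ha1 : a ≤ 1 / 3) {u : ℝ} (hu : |u| ≤ a) : |tan u| ≤ (1 + a) * |u| := by
  have h0 : 0 ≤ |u| := abs_nonneg u
  have hsq : u ^ 2 ≤ a ^ 2 := by
    rw [← sq_abs u]
    exact pow_le_pow_left₀ h0 hu 2
  have h1 := Real.one_sub_sq_div_two_le_cos (x := u)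
  have h2 : 1 - a ^ 2 / 2 ≤ cos u := by linarith
  have ha2 : a ^ 2 ≤ a / 3 := by nlinarith
  have hpos : 0 < cos u := by linarith
  have h3 : 1 ≤ (1 + a) * cos u := by
    have h4 : (1 + a) * (1 - a ^ 2 / 2) ≤ (1 + a) * cos u := mul_le_mul_of_nonneg_left h2 (by linarith)
    nlinarith
  rw [Real.tan_eq_sin_div_cos, abs_div, abs_of_pos hpos, div_le_iff₀ hpos]
  have h5 : |sin u| ≤ |u| := Real.abs_sin_le_abs
  calc |sin u| ≤ |u| * 1 := by rw [mul_one]; exact h5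
    _ ≤ |u| * ((1 + a) * cos u) := mul_le_mul_of_nonneg_left h3 h0
    _ = (1 + a) * |u| * cos u := by ring

/-- `(1 - a) v ≤ sin v` for `0 < v ≤ a`. -/
theorem g2_sin {a : ℝ} (ha1 : a ≤ 1 / 3) {v : ℝ} (hv : 0 < v) (hva : v ≤ a) : (1 - a) * v ≤ sin v := by
  have h := Real.sin_gt_sub_cube hv
  have h1 : v ^ 3 / 6 ≤ a * v := by
    have h2 : v ^ 2 ≤ a := by nlinarith
    have h3 : v ^ 2 * v ≤ a * v := mul_le_mul_of_nonneg_right h2 hv.le
    have h4 : 0 ≤ v ^ 3 := by positivity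
    nlinarith
  nlinarith

/-- Proof: let `e' = e / 3`. Since `tan` has derivative `1` at `0` there is `u₀ > 0` (`u₀ < π / 2`)
with `|tan u| ≤ (1 + e') |u|` for `|u| ≤ u₀` (`Real.hasDerivAt_tan` at `0`, or
`tan u = sin u / cos u ≤ u / cos u` for `0 ≤ u < π / 2` and continuity of `cos`; `tan` is odd), and
`v₀ > 0` with `(1 - e') v ≤ sin v` for `0 ≤ v ≤ v₀` (`Real.sin_gt_sub_cube`:
`v - v ^ 3 / 4 < sin v`). Let `r₀` be small: `r ≤ r₀` gives `r / 2 ≤ v₀` and `8 π / K ≤ 8 r ≤ u₀`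
(as `π / K ≤ r`). Then with `u = π y / K`, `|u| ≤ 8 π / K ≤ u₀`:
`w |tan u| ≤ (1 + e') w π |y| / K ≤ (1 + e') π / (2 K) ≤ (1 + e') r / (2 (1 + e))
≤ (1 - e') r / 2 ≤ sin (r / 2)`, because `(1 - e / 3) (1 + e) = 1 + 2 e / 3 - e ^ 2 / 3 ≥ 1 + e / 3`
for `0 < e ≤ 1`. -/
theorem window {e : ℝ} (he : 0 < e) (he1 : e ≤ 1) : ∃ r₀ : ℝ, 0 < r₀ ∧ ∀ (r : ℝ) (K : ℕ),
    0 < r → r < r₀ → (1 + e) * π / r ≤ K → ∀ y w : ℝ, 0 ≤ w → |y| ≤ 8 → 2 * w * |y| ≤ 1 →
      w * |tan (π * y / K)| ≤ sin (r / 2) := by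
  have hea : e / 3 ≤ 1 / 3 := by linarith
  refine ⟨e / 24, by linarith, fun r K hr hr0 hK y w hw hy hwy => ?_⟩
  have hpi := Real.pi_pos
  have hK0 : (0 : ℝ) < K := lt_of_lt_of_le (by positivity) hK
  have hq : π / K ≤ r / (1 + e) := by
    rw [div_le_div_iff₀ hK0 (by linarith)]
    rw [div_le_iff₀ hr] at hK
    linarith
  have hq0 : 0 < π / K := by positivity
  have hr1 : r / (1 + e) ≤ r := div_le_self hr.le (by linarith)
  have hu : |π * y / K| = π / K * |y| := by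
    rw [abs_div, abs_mul, abs_of_pos hpi, abs_of_pos hK0]
    ring
  have hu1 : |π * y / K| ≤ e / 3 := by
    rw [hu]
    have : π / K * |y| ≤ r * 8 := mul_le_mul (hq.trans hr1) hy (abs_nonneg y) hr.le
    linarith
  have h1 := g2_tan (by linarith) hea hu1
  have h2 := g2_sin hea (v := r / 2) (by linarith) (by linarith)
  have h3 : w * |tan (π * y / K)| ≤ (1 + e / 3) / 2 * (π / K) := by
    calc w * |tan (π * y / K)| ≤ w * ((1 + e / 3) * |π * y / K|) := mul_le_mul_of_nonneg_left h1 hw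
      _ = (1 + e / 3) * (π / K) / 2 * (2 * w * |y|) := by rw [hu]; ring
      _ ≤ (1 + e / 3) * (π / K) / 2 * 1 := mul_le_mul_of_nonneg_left hwy (by positivity)
      _ = (1 + e / 3) / 2 * (π / K) := by ring
  have h4 : (1 + e / 3) / 2 * (π / K) ≤ (1 + e / 3) / 2 * (r / (1 + e)) :=
    mul_le_mul_of_nonneg_left hq (by positivity)
  have h5 : (1 + e / 3) / 2 * (r / (1 + e)) ≤ (1 - e / 3) * (r / 2) := by
    rw [← mul_div_assoc, div_le_iff₀ (by linarith)]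
    have h6 : 1 + e / 3 ≤ (1 - e / 3) * (1 + e) := by nlinarith
    have h7 := mul_le_mul_of_nonneg_right h6 (by linarith : 0 ≤ r / 2)
    linarith
  linarith

end AstroR
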