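import Pool.Agent.Lib.H73R.Defs

/-!
# Elementary facts about the schedule
-/

set_option autoImplicit false

noncomputable section

open MeasureTheory Metric Set Real Filter Topology
open scoped RealInnerProductSpace NNReal ENNReal

namespace AstroR

open Astro

theorem cut_nonneg (m : ℕ) : 0 ≤ cut m := by
  unfold cut
  split_ifs <;> norm_num

theorem cut_le (m : ℕ) : cut m ≤ 1 / 2 := by
  unfold cut
  split_ifs <;> norm_num

/-- `2 < Lp τ m` for `0 ≤ τ` (`π > 3`, `cut_le`). -/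
theorem Lp_pos {τ : ℝ} (hτ : 0 ≤ τ) (m : ℕ) : 2 < Lp τ m := by
  have := cut_le m
  have := pi_gt_three
  unfold Lp
  linarith

theorem Lp_le {τ : ℝ} (m : ℕ) : Lp τ m ≤ π + τ := by
  have := cut_nonneg m
  unfold Lp
  linarith

theorem lt_nonneg (m p : ℕ) {t : ℝ} (h0 : cut m ≤ t) (h1 : t ≤ π - cut m) : 0 ≤ lt m p t := by
  unfold lt
  split_ifs <;> linarith

theorem lt_le (m p : ℕ) {t : ℝ} (h0 : cut m ≤ t) (h1 : t ≤ π - cut m) :
    lt m p t ≤ π - 2 * cut m := by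
  unfold lt
  split_ifs <;> linarith

theorem Dm_succ (K E : ℕ) (τ : ℝ) (m : ℕ) :
    Dm K E τ (m + 1) = Dm K E τ m + (Np K E : ℝ) * Lp τ m + 4 := by
  unfold Dm
  rw [Finset.sum_range_succ]
  push_cast
  ring

theorem Dm_nonneg (K E : ℕ) {τ : ℝ} (hτ : 0 ≤ τ) (m : ℕ) : 0 ≤ Dm K E τ m := by
  unfold Dm
  have h : 0 ≤ ∑ j ∈ Finset.range m, Lp τ j :=
    Finset.sum_nonneg (fun j _ => by have := Lp_pos hτ j; linarith)
  positivity

theorem Dm_mono (K E : ℕ) {τ : ℝ} (hτ : 0 ≤ τ) : Monotone (Dm K E τ) := by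
  apply monotone_nat_of_le_succ
  intro m
  rw [Dm_succ]
  have h1 := Lp_pos hτ m
  have h2 : (0 : ℝ) ≤ Np K E := by positivity
  nlinarith

/-- The times of stage `m < 16` belong to `[0, Dm 16]`, and pass `p` ends before
`Dm m + (p + 1) * Lp τ m`. -/
theorem tm_bounds (K E : ℕ) {τ : ℝ} (hτ : 0 ≤ τ) {m p : ℕ} (hm : m < 16) (hp : p < Np K E) {t : ℝ}
    (h0 : cut m ≤ t) (h1 : t ≤ π - cut m) :
    0 ≤ tm K E τ m p t ∧ tm K E τ m p t ≤ Dm K E τ m + (p + 1) * Lp τ m ∧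
      tm K E τ m p t ≤ Dm K E τ 16 := by
  have a1 := lt_nonneg m p h0 h1
  have a2 := lt_le m p h0 h1
  have a3 := Lp_pos hτ m
  have a4 := Dm_nonneg K E hτ m
  have a5 : (p : ℝ) + 1 ≤ Np K E := by exact_mod_cast hp
  have a6 : Dm K E τ (m + 1) ≤ Dm K E τ 16 := Dm_mono K E hτ hm
  rw [Dm_succ] at a6
  have a7 : π - 2 * cut m ≤ Lp τ m := by unfold Lp; linarith
  have a8 : (0 : ℝ) ≤ p := by positivity
  unfold tm
  refine ⟨by positivity, by nlinarith, by nlinarith⟩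

theorem Np_ge (E : ℕ) {K : ℕ} (hK : 64 ≤ K) : (K : ℝ) / 32 + 2 * E + 2 ≤ Np K E := by
  have hK' : (64 : ℝ) ≤ K := by exact_mod_cast hK
  unfold Np
  have h1 : K ≤ 16 * (K / 16) + 15 := by omega
  have h2 : (K : ℝ) ≤ 16 * ((K / 16 : ℕ) : ℝ) + 15 := by exact_mod_cast h1
  push_cast
  linarith

/-- `Vm` is nonnegative and nondecreasing for `64 ≤ K`. -/
theorem dV_nonneg {K : ℕ} (E : ℕ) {τ : ℝ} (hK : 64 ≤ K) (hτ : 0 ≤ τ) (m : ℕ) :
    0 ≤ dV K E τ m := by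
  have hNp := Np_ge E hK
  unfold dV
  split_ifs with h
  · unfold Vm
    have a1 := Dm_nonneg K E hτ 0
    have a2 := Lp_pos hτ 0
    positivity
  · obtain ⟨k, rfl⟩ : ∃ k, m = k + 1 := ⟨m - 1, by omega⟩
    rw [Nat.add_sub_cancel]
    unfold Vm
    rw [Dm_succ]
    have a1 := Lp_pos hτ k
    have a2 := Lp_pos hτ (k + 1)
    have a3 : (0 : ℝ) ≤ (K : ℝ) / 32 + 2 * E + 2 := by positivity
    have a4 : 0 ≤ Lp τ (k + 1) * ((K : ℝ) / 32 + 2 * E + 2) := mul_nonneg (by linarith) a3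
    have a5 : Lp τ k * ((K : ℝ) / 32 + 2 * E + 2) ≤ (Np K E : ℝ) * Lp τ k := by
      rw [mul_comm]
      exact mul_le_mul_of_nonneg_right hNp (by linarith)
    linarith

/-- Telescoping: `Vm m = ∑ j ≤ m, dV j`. -/
theorem Vm_eq_sum (K E : ℕ) (τ : ℝ) (m : ℕ) :
    Vm K E τ m = ∑ j ∈ Finset.range (m + 1), dV K E τ j := by
  induction m with
  | zero => simp [dV]
  | succ m ih =>
    rw [Finset.sum_range_succ, ← ih]
    simp [dV]

end AstroR
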