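import Pool.Agent.Lib.H73R.G1
import Pool.Agent.Lib.H73R.P8

/-!
# A pass in which the two players come close
-/

set_option autoImplicit false

noncomputable section

open MeasureTheory Metric Set Real Filter Topology
open scoped RealInnerProductSpace NNReal ENNReal

namespace AstroR

open Astro

/-- If in pass `p` of stage `m` the mismatch of the meridians is `y` (in units of `2 π / K`, modulo
`K`) and `y` is in the window of the relative position `h`, then the players are close to each other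
during this pass.

Proof. Let `k = kap K E m p`, `α = az K a₁ k`, `β = az K a₂ k + φ`. By `hloc`
`(θ + ς α - β) / 2 = (θ - φ) / 2 - π (a₂ - ς a₁) k / K = π z + π y / K`
(`hloc` times `π / K`). Its cosine is `± cos (π y / K) ≠ 0` because `|π y / K| ≤ 8 π / K < π / 2`
(`cos_add_int_mul_pi`, `cos_pos_of_mem_Ioo`), and its tangent is `tan (π y / K)`
(`Real.tan_int_mul_pi_add`, `Real.tan_add_int_mul_pi`, or `Real.tan_periodic.int_mul`).
Apply `hG α β`: there is `t ∈ [0, π]` with `wd h ≤ sin t` and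
`‖sph t α - act h (sph t β)‖ ≤ 2 * wd h * |tan (π y / K)| ≤ 2 b` (`hwin y (wd h)`).
Since `cut m ≤ wd h ≤ sin t ≤ t` and `sin t = sin (π - t) ≤ π - t` we have
`t ∈ [cut m, π - cut m]`. Take `u = tm K E τ m p t`: `c₁ u = sph t α`,
`c₂ u = sph t (az K a₂ k)`, and `act (h * rot φ) (c₂ u) = act h (sph t β)` by `act_mul`,
`act_rot_sph`. The bounds for `u` are `tm_bounds`. -/
theorem close_pass {K E : ℕ} {τ : ℝ} (hτ : 0 ≤ τ) {a₁ a₂ : ℕ} {c₁ c₂ : ℝ → E3}
    (h₁ : Epo K E τ a₁ c₁) (h₂ : Epo K E τ a₂ c₂) (hK : 16 < K) {h : O3} {θ ς : ℝ}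
    (hG : GeoProp h θ ς) {b : ℝ}
    (hwin : ∀ y w : ℝ, 0 ≤ w → |y| ≤ 8 → 2 * w * |y| ≤ 1 → w * |tan (π * y / K)| ≤ b)
    {φ : ℝ} {m p : ℕ} (hm : m < 16) (hp : p < Np K E) (hcut : cut m ≤ wd h) {y : ℝ} {z : ℤ}
    (hy8 : |y| ≤ 8) (hyw : 2 * wd h * |y| ≤ 1)
    (hloc : K * (θ - φ) / (2 * π) = ((a₂ : ℝ) - ς * a₁) * (kap K E m p : ℝ) + K * z + y) :
    ∃ u, 0 ≤ u ∧ u ≤ Dm K E τ m + (p + 1) * Lp τ m ∧ u ≤ Dm K E τ 16 ∧
      ‖c₁ u - act (h * rot φ) (c₂ u)‖ ≤ 2 * b := by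
  have hpi := pi_pos
  have hK0 : (0 : ℝ) < K := by
    have : 0 < K := by omega
    exact_mod_cast this
  have hK16 : (16 : ℝ) < K := by exact_mod_cast hK
  set k := kap K E m p with hk
  set α := az K a₁ k with hα
  set β := az K a₂ k + φ with hβ
  have hang : (θ + ς * α - β) / 2 = π * y / K + z * π := by
    have e1 : (θ + ς * α - β) / 2 = π / K * (K * (θ - φ) / (2 * π) -
        ((a₂ : ℝ) - ς * a₁) * (k : ℝ)) := by
      rw [hα, hβ]
      unfold az
      field_simp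
      ring
    rw [e1, hloc]
    field_simp
    ring
  have hu : |π * y / K| < π / 2 := by
    rw [abs_div, abs_mul, abs_of_pos hpi, abs_of_pos hK0, div_lt_div_iff₀ hK0 (by norm_num)]
    nlinarith [abs_nonneg y]
  have hcos : cos (π * y / K) ≠ 0 := by
    obtain ⟨h3, h4⟩ := abs_lt.mp hu
    exact (cos_pos_of_mem_Ioo ⟨by linarith, h4⟩).ne'
  have hne : cos ((θ + ς * α - β) / 2) ≠ 0 := by
    rw [hang, cos_add_int_mul_pi]
    exact mul_ne_zero (zpow_ne_zero _ (by norm_num)) hcos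
  have htan : tan ((θ + ς * α - β) / 2) = tan (π * y / K) := by
    rw [hang, tan_add_int_mul_pi]
  obtain ⟨t, ht0, htpi, hts, htd⟩ := hG α β hne
  have hw := wd_mem h
  have hwin' := hwin y (wd h) hw.1 hy8 hyw
  have ht1 : cut m ≤ t := (hcut.trans hts).trans (sin_le ht0)
  have ht2 : t ≤ π - cut m := by
    have h5 : sin t ≤ π - t := by
      rw [← sin_pi_sub]
      exact sin_le (by linarith)
    linarith
  obtain ⟨b1, b2, b3⟩ := tm_bounds K E hτ hm hp ht1 ht2
  refine ⟨tm K E τ m p t, b1, b2, b3, ?_⟩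
  rw [h₁.pass m hm p hp t ht1 ht2, h₂.pass m hm p hp t ht1 ht2, act_mul, act_rot_sph]
  refine htd.trans ?_
  rw [htan]
  calc 2 * wd h * |tan (π * y / K)| = 2 * (wd h * |tan (π * y / K)|) := by ring
    _ ≤ 2 * b := by linarith

end AstroR
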