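import Mathlib

/-!
# The labels
-/

set_option autoImplicit false

noncomputable section

open Real Finset

namespace AstroR

/-- The numbers `a i + a j` (`false`) and `|a i - a j|` (`true`). -/
def QQ {M : ℕ} (a : Fin M → ℕ) (t : Fin M × Fin M × Bool) : ℕ :=
  if t.2.2 then ((a t.1 : ℤ) - (a t.2.1 : ℤ)).natAbs else a t.1 + a t.2.1

/-- The residue of the label `k` for the triple `t`. -/
def n1R {M : ℕ} (t : Fin M × Fin M × Bool) (k : Fin M) : ℤ :=
  if k.val = t.1.val then 1 else if k.val = t.2.1.val then (if t.2.2 then 1 else -1) else (k.val : ℤ) + 2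

theorem n1_dvd {M : ℕ} (a : Fin M → ℕ) (t : Fin M × Fin M × Bool) (q : ℕ) :
    q ∣ QQ a t ↔ (q : ℤ) ∣ (a t.1 : ℤ) + (if t.2.2 then -1 else 1) * (a t.2.1 : ℤ) := by
  unfold QQ
  by_cases h : t.2.2 = true
  · rw [if_pos h, if_pos h, ← Int.natCast_dvd]
    have : (a t.1 : ℤ) + -1 * (a t.2.1 : ℤ) = (a t.1 : ℤ) - (a t.2.1 : ℤ) := by ring
    rw [this]
  · rw [if_neg h, if_neg h, one_mul]
    have : (a t.1 : ℤ) + (a t.2.1 : ℤ) = ((a t.1 + a t.2.1 : ℕ) : ℤ) := by push_cast; ring
    rw [this]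
    exact Int.natCast_dvd_natCast.symm

/-- The residues of two different triples. -/
theorem n1_ne {M : ℕ} (t t' : Fin M × Fin M × Bool) (h : t.1 < t.2.1) (h' : t'.1 < t'.2.1) (hne : t ≠ t') :
    n1R t t'.1 + (if t'.2.2 then -1 else 1) * n1R t t'.2.1 ≠ 0 ∧
      |n1R t t'.1 + (if t'.2.2 then -1 else 1) * n1R t t'.2.1| < 2 * M + 10 := by
  obtain ⟨i, j, s⟩ := t
  obtain ⟨i', j', s'⟩ := t'
  have h1 : i.val < j.val := h
  have h2 : i'.val < j'.val := h'
  have hi := i.isLt
  have hj := j.isLt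
  have hi' := i'.isLt
  have hj' := j'.isLt
  have h3 : i.val ≠ i'.val ∨ j.val ≠ j'.val ∨ s ≠ s' := by
    by_contra hc
    push Not at hc
    obtain ⟨e1, e2, e3⟩ := hc
    exact hne (by rw [Fin.ext e1, Fin.ext e2, e3])
  clear hne h h'
  unfold n1R
  dsimp only
  rw [abs_lt]
  cases s <;> cases s' <;> simp only [if_true, if_false, Bool.false_eq_true, reduceCtorEq, ne_eq, not_true_eq_false,
    not_false_eq_true, or_true, or_false] at h3 ⊢ <;>
    split_ifs <;> refine ⟨?_, ?_, ?_⟩ <;> omega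

/-- Labels `a i` such that every number `QQ a t` (`t.1 < t.2.1`) has a large prime factor of its
own.

Proof. The set `T` of all triples is finite; let `e : T ≃ Fin n`
(`Fintype.equivFin`) and `p t = Nat.nth Nat.Prime (B + 2 * M + 10 + e t)`: distinct primes
(`Nat.nth_injective Nat.infinite_setOf_prime`, `Nat.prime_nth_prime`), larger than `B` and
`2 * M + 9` (`(Nat.nth_strictMono Nat.infinite_setOf_prime).id_le`, hence `k ≤ nth k`; equality
of a bound can be avoided by adding one more). By the Chinese remainder theorem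
(`Nat.chineseRemainderOfFinset`) choose `a k` with `a k ≡ r (k, t)` modulo `p t` for all `t`, where for
`t = (i, j, s)`: `r = 1` if `k = i`; otherwise `r = 1` (`s = true`) or `r = p t - 1` (`s = false`) if
`k = j`; otherwise `r = k + 2`. All these residues are in `(0, p t)`, so `a k > 0`.
For `t = (i, j, s)` with `i < j`: `p t ∣ QQ a t` clearly. Let `t' = (i', j', s') ≠ t`, `i' < j'`, and
suppose `p t ∣ QQ a t'`, i.e. `a i' ≡ ± a j'` modulo `p t` (work in `ℤ` or `ZMod (p t)`).
If `{i', j'} = {i, j}` then `i' = i`, `j' = j`, `s' ≠ s` and `QQ a t' ≡ ± 2` modulo `p t`: impossible.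
Otherwise one of `i', j'` is an index `k ∉ {i, j}` with residue `k + 2` and the other one has residue
`1`, `-1` or `l + 2` with `l ≠ k`: the number `QQ a t'` is, up to sign, one of `k + 1`, `k + 3`,
`k - l`, `k + l + 4` modulo `p t`, all nonzero and of absolute value `< 2 M + 4 < p t`: impossible.
`a i ≠ a j` for `i < j`: with `t = (i, j, false)`, `a i ≡ 1` and `a j ≡ -1` modulo `p t > 2`. -/
theorem labels_exist (M B : ℕ) : ∃ (a : Fin M → ℕ) (p : Fin M × Fin M × Bool → ℕ),
    (∀ t, (p t).Prime ∧ B < p t) ∧ (∀ i, 0 < a i) ∧ (∀ i j, i < j → a i ≠ a j) ∧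
    (∀ t, t.1 < t.2.1 → p t ∣ QQ a t) ∧
    (∀ t t', t.1 < t.2.1 → t'.1 < t'.2.1 → t ≠ t' → ¬ p t ∣ QQ a t') := by
  classical
  obtain ⟨e, -⟩ : ∃ e : (Fin M × Fin M × Bool) ≃ Fin (Fintype.card (Fin M × Fin M × Bool)), True :=
    ⟨Fintype.equivFin _, trivial⟩
  obtain ⟨p, hp⟩ : ∃ p : Fin M × Fin M × Bool → ℕ, p = fun t => Nat.nth Nat.Prime (B + 2 * M + 10 + (e t).val) :=
    ⟨_, rfl⟩
  have hprime : ∀ t, (p t).Prime := fun t => by
    rw [hp]
    exact Nat.prime_nth_prime _
  have hbig : ∀ t, B + 2 * M + 10 ≤ p t := fun t => by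
    rw [hp]
    have h1 : B + 2 * M + 10 + (e t).val ≤ Nat.nth Nat.Prime (B + 2 * M + 10 + (e t).val) :=
      (Nat.nth_strictMono Nat.infinite_setOfPred_prime).le_apply
    show B + 2 * M + 10 ≤ Nat.nth Nat.Prime (B + 2 * M + 10 + (e t).val)
    omega
  have hinj : ∀ t t', t ≠ t' → p t ≠ p t' := by
    intro t t' h hc
    rw [hp] at hc
    have h1 := Nat.nth_injective Nat.infinite_setOfPred_prime hc
    apply h
    apply e.injective
    apply Fin.ext
    omega
  have hcrt : ∀ k : Fin M, ∃ x : ℕ, ∀ t : Fin M × Fin M × Bool,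
      x ≡ (if k.val = t.1.val then 1 else if k.val = t.2.1.val then (if t.2.2 then 1 else p t - 1) else k.val + 2)
        [MOD p t] := by
    intro k
    obtain ⟨x, hx⟩ := Nat.chineseRemainderOfFinset (fun t : Fin M × Fin M × Bool =>
      (if k.val = t.1.val then 1 else if k.val = t.2.1.val then (if t.2.2 then 1 else p t - 1) else k.val + 2)) p
      Finset.univ (fun t _ => (hprime t).ne_zero)
      (fun t _ t' _ h => (Nat.coprime_primes (hprime t) (hprime t')).mpr (hinj t t' h))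
    exact ⟨x, fun t => hx t (mem_univ t)⟩
  choose a ha using hcrt
  have hz : ∀ (k : Fin M) (t : Fin M × Fin M × Bool), ((p t : ℕ) : ℤ) ∣ (a k : ℤ) - n1R t k := by
    intro k t
    have h1 := Nat.modEq_iff_dvd.mp (ha k t)
    have hp1 := (hprime t).one_lt
    unfold n1R
    obtain ⟨c, hc⟩ := h1
    split_ifs at hc ⊢
    · exact ⟨-c, by push_cast at hc; linarith⟩
    · exact ⟨-c, by push_cast at hc; linarith⟩
    · exact ⟨1 - c, by rw [Nat.cast_sub hp1.le] at hc; push_cast at hc; linarith⟩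
    · exact ⟨-c, by push_cast at hc; linarith⟩
  have hz2 : ∀ t t' : Fin M × Fin M × Bool, ((p t : ℕ) : ℤ) ∣
      ((a t'.1 : ℤ) + (if t'.2.2 then -1 else 1) * (a t'.2.1 : ℤ)) -
        (n1R t t'.1 + (if t'.2.2 then -1 else 1) * n1R t t'.2.1) := by
    intro t t'
    have h1 := dvd_add (hz t'.1 t) (Dvd.dvd.mul_left (hz t'.2.1 t) (if t'.2.2 then -1 else 1))
    have h2 : ((a t'.1 : ℤ) + (if t'.2.2 then -1 else 1) * (a t'.2.1 : ℤ)) -
        (n1R t t'.1 + (if t'.2.2 then -1 else 1) * n1R t t'.2.1) =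
        ((a t'.1 : ℤ) - n1R t t'.1) + (if t'.2.2 then -1 else 1) * ((a t'.2.1 : ℤ) - n1R t t'.2.1) := by ring
    rw [h2]
    exact h1
  refine ⟨a, p, fun t => ⟨hprime t, by have := hbig t; omega⟩, ?_, ?_, ?_, ?_⟩
  · intro k
    by_contra hc
    have h0 : a k = 0 := by omega
    have h1 := hz k (k, k, true)
    unfold n1R at h1
    rw [if_pos rfl, h0] at h1
    have h2 := Int.le_of_dvd (by norm_num) ((dvd_neg.mpr h1))
    have h3 := hbig (k, k, true)
    push_cast at h2
    omega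
  · intro i j hij hc
    have h1 := hz i (i, j, false)
    have h2 := hz j (i, j, false)
    have hij' : j.val ≠ i.val := by
      have : i.val < j.val := hij
      omega
    unfold n1R at h1 h2
    rw [if_pos rfl] at h1
    rw [if_neg hij', if_pos rfl, if_neg (by simp)] at h2
    rw [hc] at h1
    have h3 := dvd_sub h2 h1
    have h4 : ((a j : ℤ) - -1) - ((a j : ℤ) - 1) = 2 := by ring
    rw [h4] at h3
    have h5 := Int.le_of_dvd (by norm_num) h3
    have h6 := hbig (i, j, false)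
    omega
  · intro t ht
    rw [n1_dvd]
    have h1 := hz2 t t
    have hij' : t.2.1.val ≠ t.1.val := by
      have : t.1.val < t.2.1.val := ht
      omega
    have h2 : n1R t t.1 + (if t.2.2 then -1 else 1) * n1R t t.2.1 = 0 := by
      unfold n1R
      rw [if_pos rfl, if_neg hij', if_pos rfl]
      split_ifs <;> norm_num
    rw [h2, sub_zero] at h1
    exact h1
  · intro t t' ht ht' hne hd
    rw [n1_dvd] at hd
    have h1 := (Int.dvd_iff_dvd_of_dvd_sub (hz2 t t')).mp hd
    obtain ⟨h2, h3⟩ := n1_ne t t' ht ht' hne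
    apply h2
    refine Int.eq_zero_of_abs_lt_dvd h1 (h3.trans_le ?_)
    have h4 := hbig t
    omega

end AstroR
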