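import Mathlib

/-!
# Prescribed residues
-/

set_option autoImplicit false

noncomputable section

open Real Finset

namespace AstroR

/-- The estimate. -/
theorem n2_est {p q C u n : ℕ} (hp : 0 < p) (hC : 0 < C) (hpq : p ≤ q) (hu : q < 16 * u) (hu2 : 16 * u ≤ q + 32)
    (hn : n + 1 = C * u) : |(n : ℝ) / ((C * q : ℕ) : ℝ) - 1 / 16| ≤ 3 / p := by
  have hp' : (0 : ℝ) < p := by exact_mod_cast hp
  have hq' : (0 : ℝ) < q := by exact_mod_cast (lt_of_lt_of_le hp hpq)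
  have hC' : (1 : ℝ) ≤ C := by exact_mod_cast hC
  have hCp : (0 : ℝ) < C := by linarith
  have h1 : (p : ℝ) ≤ q := by exact_mod_cast hpq
  have h2 : (q : ℝ) < 16 * u := by exact_mod_cast hu
  have h3 : 16 * (u : ℝ) ≤ q + 32 := by exact_mod_cast hu2
  have h4 : (n : ℝ) = C * u - 1 := by
    have : (n : ℝ) + 1 = C * u := by exact_mod_cast hn
    linarith
  have h5 : (n : ℝ) / ((C * q : ℕ) : ℝ) - 1 / 16 = (16 * (C * u) - 16 - C * q) / (16 * (C * q)) := by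
    rw [h4]
    push_cast
    field_simp
  have h6 : (2 : ℝ) / q ≤ 3 / p := by
    rw [div_le_div_iff₀ hq' hp']
    nlinarith
  have h7 : |(n : ℝ) / ((C * q : ℕ) : ℝ) - 1 / 16| ≤ 2 / q := by
    rw [h5, abs_le]
    constructor
    · rw [neg_le_iff_add_nonneg, ← sub_neg_eq_add, ← neg_div]
      have : (16 * ((C : ℝ) * u) - 16 - C * q) / (16 * (C * q)) - -2 / q =
          (16 * ((C : ℝ) * u) - 16 - C * q + 32 * C) / (16 * (C * q)) := by
        field_simp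
        ring
      rw [this]
      refine div_nonneg ?_ (by positivity)
      nlinarith
    · rw [div_le_div_iff₀ (by positivity) hq']
      have h8 : 16 * ((C : ℝ) * u) - 16 - C * q ≤ 32 * C := by nlinarith
      nlinarith
  exact h7.trans h6

/-- One modulus. Proof: let `n = C * u - 1` with `u = q / 16 + 1` if `p` does not divide
`C * (q / 16 + 1) - 1`, and `u = q / 16 + 2` otherwise (if `p` divided both `C * u - 1` and
`C * (u + 1) - 1` it would divide `C`). Here `q = p ^ e`, `32 < p ≤ q`, so `1 ≤ u ≤ q` and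
`0 ≤ n < C * q`, `n ≡ -1` modulo `C`, and `|n / (C q) - 1 / 16| ≤ |u / q - 1 / 16| + 1 / (C q)
≤ 2 / q + 1 / q ≤ 3 / p`. -/
theorem one_modulus {p e C : ℕ} (hp : p.Prime) (hp32 : 32 < p) (he : 1 ≤ e) (hC : 0 < C)
    (hpC : ¬ p ∣ C) : ∃ n : ℕ, n < C * p ^ e ∧ C ∣ n + 1 ∧ ¬ p ∣ n ∧
      |(n : ℝ) / ((C * p ^ e : ℕ) : ℝ) - 1 / 16| ≤ 3 / p := by
  obtain ⟨q, hq⟩ : ∃ q : ℕ, q = p ^ e := ⟨_, rfl⟩
  have hpq : p ≤ q := by
    rw [hq]
    exact Nat.le_self_pow (by omega) p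
  rw [← hq]
  have hex : ∃ u : ℕ, q < 16 * u ∧ 16 * u ≤ q + 32 ∧ 1 ≤ u ∧ ¬ p ∣ C * u - 1 := by
    by_cases h : p ∣ C * (q / 16 + 1) - 1
    · refine ⟨q / 16 + 2, by omega, by omega, by omega, ?_⟩
      intro h2
      apply hpC
      have h3 : C * (q / 16 + 2) - 1 = (C * (q / 16 + 1) - 1) + C := by
        have : C * (q / 16 + 2) = C * (q / 16 + 1) + C := by ring
        have h4 : 1 ≤ C * (q / 16 + 1) := Nat.mul_pos hC (by omega)
        omega
      rw [h3] at h2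
      exact (Nat.dvd_add_right h).mp h2
    · exact ⟨q / 16 + 1, by omega, by omega, by omega, h⟩
  obtain ⟨u, hu1, hu2, hu3, hu4⟩ := hex
  have hCu : 1 ≤ C * u := Nat.mul_pos hC hu3
  refine ⟨C * u - 1, ?_, ?_, hu4, ?_⟩
  · have h1 : u ≤ q := by omega
    have h2 := Nat.mul_le_mul_left C h1
    omega
  · rw [Nat.sub_add_cancel hCu]
    exact Dvd.intro u rfl
  · exact n2_est (by omega) hC hpq hu1 hu2 (Nat.sub_add_cancel hCu)

/-- A number `X`, coprime to a common multiple `Λ` of the `Q t`, whose residue modulo every `Q t` is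
close to `Q t / 16`.

Proof. For `t ∈ T` write `Q t = p t ^ e t * C t` with `¬ p t ∣ C t` (`Nat.exists_eq_pow_mul_and_not_dvd`
with `Q t ≠ 0` and `p t ≠ 1`; or `Nat.exists_eq_two_pow_mul_odd` style), `e t ≥ 1` since
`p t ∣ Q t`. The primes `p t`, `t ∈ T`, are pairwise distinct
(`p t ∣ Q t`, `¬ p t' ∣ Q t`), and `p t` divides no `C t'` (for `t' ≠ t` as `C t' ∣ Q t'`). Let
`C = ∏ t ∈ T, C t` (coprime to all `p t`, `Nat.Prime.prime.dvd_finset_prod_iff`) and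
`Λ = C * ∏ t ∈ T, p t ^ e t`; `Q t ∣ Λ`. Let `n t` be the number of `one_modulus`. By the Chinese
remainder theorem (`Nat.chineseRemainderOfFinset` with the index type `Option ι`, or with
`insert`; or induction) there is `X` with `X ≡ C - 1` modulo `C` and `X ≡ n t` modulo `p t ^ e t` for
all `t ∈ T`. Then `X` is coprime to `C` and to all `p t`, hence to `Λ`. Modulo `C t` we have
`X ≡ -1 ≡ n t`, modulo `p t ^ e t` also `X ≡ n t`, hence `X ≡ n t` modulo `Q t`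
(coprime moduli: `Nat.modEq_and_modEq_iff_modEq_mul`), and `n t < Q t`, so `X % Q t = n t`. -/
theorem X_exists {ι : Type} [DecidableEq ι] (T : Finset ι) (Q p : ι → ℕ)
    (hQ : ∀ t ∈ T, 0 < Q t) (hp : ∀ t ∈ T, (p t).Prime ∧ 32 < p t) (hpQ : ∀ t ∈ T, p t ∣ Q t)
    (hpQ' : ∀ t ∈ T, ∀ t' ∈ T, t ≠ t' → ¬ p t ∣ Q t') {η : ℝ} (hη : ∀ t ∈ T, 3 / (p t : ℝ) ≤ η) :
    ∃ Λ X : ℕ, 0 < Λ ∧ Nat.Coprime X Λ ∧
      ∀ t ∈ T, Q t ∣ Λ ∧ |((X % Q t : ℕ) : ℝ) / (Q t : ℝ) - 1 / 16| ≤ η := by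
  have hex : ∀ t, ∃ e c n : ℕ, t ∈ T → (1 ≤ e ∧ 0 < c ∧ ¬ p t ∣ c ∧ Q t = p t ^ e * c ∧ n < Q t ∧ c ∣ n + 1 ∧
      ¬ p t ∣ n ∧ |(n : ℝ) / (Q t : ℝ) - 1 / 16| ≤ η) := by
    intro t
    by_cases ht : t ∈ T
    · obtain ⟨e, c, hc, hQe⟩ := Nat.exists_eq_pow_mul_and_not_dvd (hQ t ht).ne' (p t) (hp t ht).1.ne_one
      have hc0 : 0 < c := by
        rcases Nat.eq_zero_or_pos c with h | h
        · exact absurd (h ▸ dvd_zero _) hc
        · exact h
      have he : 1 ≤ e := by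
        by_contra h
        have h0 : e = 0 := by omega
        rw [h0, pow_zero, one_mul] at hQe
        exact hc (hQe ▸ hpQ t ht)
      obtain ⟨n, hn1, hn2, hn3, hn4⟩ := one_modulus (hp t ht).1 (hp t ht).2 he hc0 hc
      have hQe' : c * p t ^ e = Q t := by rw [hQe, mul_comm]
      rw [hQe'] at hn1 hn4
      exact ⟨e, c, n, fun _ => ⟨he, hc0, hc, hQe, hn1, hn2, hn3, hn4.trans (hη t ht)⟩⟩
    · exact ⟨0, 0, 0, fun h => absurd h ht⟩
  choose e c n h using hex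
  have hcop : ∀ t ∈ T, ∀ t' ∈ T, t ≠ t' → Nat.Coprime (p t ^ e t) (p t' ^ e t') := by
    intro t ht t' ht' hne
    refine Nat.Coprime.pow _ _ ?_
    rw [Nat.coprime_primes (hp t ht).1 (hp t' ht').1]
    intro hc
    exact hpQ' t ht t' ht' hne (hc ▸ hpQ t' ht')
  have hpc : ∀ t ∈ T, ∀ t' ∈ T, ¬ p t ∣ c t' := by
    intro t ht t' ht' hd
    by_cases hne : t = t'
    · rw [← hne] at hd
      exact (h t ht).2.2.1 hd
    · apply hpQ' t ht t' ht' hne
      rw [(h t' ht').2.2.2.1]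
      exact Dvd.dvd.mul_left hd _
  obtain ⟨x0, hx0⟩ := Nat.chineseRemainderOfFinset n (fun t => p t ^ e t) T
    (fun t ht => pow_ne_zero _ (hp t ht).1.ne_zero)
    (fun t ht t' ht' hne => hcop t ht t' ht' hne)
  obtain ⟨C, hC⟩ : ∃ C : ℕ, C = ∏ t ∈ T, c t := ⟨_, rfl⟩
  obtain ⟨P, hP⟩ : ∃ P : ℕ, P = ∏ t ∈ T, p t ^ e t := ⟨_, rfl⟩
  have hCpos : 0 < C := by
    rw [hC]
    exact Finset.prod_pos fun t ht => (h t ht).2.1
  have hPpos : 0 < P := by
    rw [hP]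
    exact Finset.prod_pos fun t ht => pow_pos (hp t ht).1.pos _
  have hco : Nat.Coprime C P := by
    rw [hP]
    refine Nat.Coprime.prod_right fun t ht => ?_
    refine Nat.Coprime.pow_right _ ?_
    rw [Nat.coprime_comm, (hp t ht).1.coprime_iff_not_dvd, hC, (hp t ht).1.prime.dvd_finsetProd_iff]
    rintro ⟨t', ht', hd⟩
    exact hpc t ht t' ht' hd
  obtain ⟨X, hX1, hX2⟩ := Nat.chineseRemainder hco (C - 1) x0
  have hCX : C ∣ X + 1 := by
    have h1 : X + 1 ≡ (C - 1) + 1 [MOD C] := Nat.ModEq.add_right 1 hX1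
    rw [Nat.sub_add_cancel hCpos] at h1
    exact (Nat.modEq_zero_iff_dvd).mp (h1.trans (Nat.modEq_zero_iff_dvd.mpr dvd_rfl))
  have hXn : ∀ t ∈ T, X ≡ n t [MOD p t ^ e t] := by
    intro t ht
    have h1 : p t ^ e t ∣ P := by
      rw [hP]
      exact Finset.dvd_prod_of_mem _ ht
    exact (hX2.of_dvd h1).trans (hx0 t ht)
  refine ⟨C * P, X, Nat.mul_pos hCpos hPpos, ?_, ?_⟩
  · refine Nat.Coprime.mul_right ?_ ?_
    · have h1 : Nat.gcd X C ∣ 1 := by
        have h2 : Nat.gcd X C ∣ X + 1 := (Nat.gcd_dvd_right X C).trans hCX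
        exact (Nat.dvd_add_right (Nat.gcd_dvd_left X C)).mp h2
      exact Nat.dvd_one.mp h1
    · rw [hP]
      refine Nat.Coprime.prod_right fun t ht => ?_
      refine Nat.Coprime.pow_right _ ?_
      rw [Nat.coprime_comm, (hp t ht).1.coprime_iff_not_dvd]
      intro hd
      have h1 : X ≡ n t [MOD p t] := (hXn t ht).of_dvd (dvd_pow_self _ (by have := (h t ht).1; omega))
      exact (h t ht).2.2.2.2.2.2.1 ((h1.dvd_iff dvd_rfl).mp hd)
  · intro t ht
    obtain ⟨h1, h2, h3, h4, h5, h6, h7, h8⟩ := h t ht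
    have hcC : c t ∣ C := by
      rw [hC]
      exact Finset.dvd_prod_of_mem _ ht
    have hpP : p t ^ e t ∣ P := by
      rw [hP]
      exact Finset.dvd_prod_of_mem _ ht
    refine ⟨?_, ?_⟩
    · rw [h4, mul_comm]
      exact mul_dvd_mul hcC hpP
    · have h9 : X ≡ n t [MOD c t] := by
        have h10 : X + 1 ≡ n t + 1 [MOD c t] :=
          (Nat.modEq_zero_iff_dvd.mpr (hcC.trans hCX)).trans (Nat.modEq_zero_iff_dvd.mpr h6).symm
        exact Nat.ModEq.add_right_cancel' 1 h10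
      have hcop2 : Nat.Coprime (p t ^ e t) (c t) := by
        refine Nat.Coprime.pow_left _ ?_
        rw [(hp t ht).1.coprime_iff_not_dvd]
        exact h3
      have h11 : X ≡ n t [MOD Q t] := by
        rw [h4]
        exact (Nat.modEq_and_modEq_iff_modEq_mul hcop2).mp ⟨hXn t ht, h9⟩
      rw [Nat.mod_eq_of_modEq h11 h5]
      exact h8

end AstroR
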