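import Pool.Agent.Lib.H73R.N1
import Pool.Agent.Lib.H73R.N2

/-!
# The moduli `K`
-/

set_option autoImplicit false

noncomputable section

open Real Finset

namespace AstroR

/-- The triple of a difference or a sum. -/
theorem n3_triple {M : ℕ} (a : Fin M → ℕ) (i j : Fin M) (hij : i ≠ j) (ς : ℤ) (hς : ς = 1 ∨ ς = -1) :
    ∃ t : Fin M × Fin M × Bool, t.1 < t.2.1 ∧ (QQ a t : ℤ) = |(a j : ℤ) - ς * (a i : ℤ)| := by
  rcases lt_or_gt_of_ne hij with h | h <;> rcases hς with rfl | rfl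
  · refine ⟨(i, j, true), h, ?_⟩
    unfold QQ
    rw [if_pos rfl, Int.natCast_natAbs, one_mul, abs_sub_comm]
  · refine ⟨(i, j, false), h, ?_⟩
    unfold QQ
    rw [if_neg (by simp)]
    have h1 : (a j : ℤ) - -1 * (a i : ℤ) = (a i : ℤ) + a j := by ring
    rw [h1, abs_of_nonneg (by positivity)]
    push_cast
    ring
  · refine ⟨(j, i, true), h, ?_⟩
    unfold QQ
    rw [if_pos rfl, Int.natCast_natAbs, one_mul]
  · refine ⟨(j, i, false), h, ?_⟩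
    unfold QQ
    rw [if_neg (by simp)]
    have h1 : (a j : ℤ) - -1 * (a i : ℤ) = (a j : ℤ) + a i := by ring
    rw [h1, abs_of_nonneg (by positivity)]
    push_cast
    ring

/-- The labels and the moduli.

Proof. Let `B ≥ 32` with `3 / B ≤ η / 2` (so `3 / p ≤ η / 2` for `p > B`), `a`, `p` from
`labels_exist M B`, and `Λ`, `X` from `X_exists` for `T` = the triples with `t.1 < t.2.1`
(`Finset.univ.filter`), `Q = QQ a` (positive as `a i ≠ a j`, `0 < a i`), with `η / 2`. Let `K₀` be a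
number `≥ 2 / η` and `≥ 1` with `Λ ∣ X * K₀ + 1`: `X` is coprime to `Λ`, so there is `k` with
`X * k ≡ -1` modulo `Λ` (`Int.emod`/`ZMod.unitOfCoprime`/`Nat.exists_mul_emod_eq_one_of_coprime`), and
`K₀ = k + Λ * N` with `N` large.
For `K ≥ K₀`, `K ≡ K₀` modulo `Λ`: `Λ ∣ X K + 1`. Let `i ≠ j`, `ς = ± 1` and `Q = |a j - ς a i|`; it
is `QQ a t` with `t = (i, j, ς = 1)` if `i < j` and `t = (j, i, ς = 1)` if `j < i`. As `Q ∣ Λ`,
`Q ∣ (X % Q) K + 1`; let `R = ((X % Q) K + 1) / Q`, so `Q R = (X % Q) K + 1 ≡ 1` modulo `K`, and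
`R - K / 16 = K ((X % Q) / Q - 1 / 16) + 1 / Q`, of absolute value at most
`K η / 2 + 1 ≤ η K` because `K ≥ 2 / η`. -/
theorem moduli (M : ℕ) {η : ℝ} (hη : 0 < η) : ∃ (a : Fin M → ℕ) (Λ K₀ : ℕ), 0 < Λ ∧
    ∀ K : ℕ, K₀ ≤ K → K ≡ K₀ [MOD Λ] → ∀ i j : Fin M, i ≠ j → ∀ ς : ℤ, (ς = 1 ∨ ς = -1) →
      ∃ R : ℤ, (K : ℤ) ∣ |(a j : ℤ) - ς * (a i : ℤ)| * R - 1 ∧ |(R : ℝ) - (K : ℝ) / 16| ≤ η * K := by
  obtain ⟨a, p, hp, ha0, hane, hpQ, hpQ'⟩ := labels_exist M (max 32 ⌈6 / η⌉₊)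
  have hQpos : ∀ t : Fin M × Fin M × Bool, t.1 < t.2.1 → 0 < QQ a t := by
    intro t ht
    unfold QQ
    split_ifs
    · rw [Int.natAbs_pos, sub_ne_zero]
      intro h
      exact hane _ _ ht (by exact_mod_cast h)
    · have := ha0 t.1
      omega
  obtain ⟨Λ, X, hΛ, hcop, hX⟩ := X_exists (Finset.univ.filter fun t : Fin M × Fin M × Bool => t.1 < t.2.1) (QQ a) p
    (fun t ht => hQpos t (Finset.mem_filter.mp ht).2)
    (fun t _ => ⟨(hp t).1, lt_of_le_of_lt (le_max_left _ _) (hp t).2⟩)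
    (fun t ht => hpQ t (Finset.mem_filter.mp ht).2)
    (fun t ht t' ht' hne => hpQ' t t' (Finset.mem_filter.mp ht).2 (Finset.mem_filter.mp ht').2 hne)
    (η := η / 2) (by
      intro t _
      have h1 : ⌈6 / η⌉₊ < p t := lt_of_le_of_lt (le_max_right _ _) (hp t).2
      have h2 : 6 / η ≤ p t := (Nat.le_ceil _).trans (by exact_mod_cast h1.le)
      have h3 : (0 : ℝ) < p t := by exact_mod_cast (hp t).1.pos
      rw [div_le_iff₀ h3]
      rw [div_le_iff₀ hη] at h2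
      linarith)
  obtain ⟨u, v, huv⟩ := Nat.isCoprime_iff_coprime.mpr hcop
  have hΛz : (0 : ℤ) < Λ := by exact_mod_cast hΛ
  obtain ⟨k, hk⟩ : ∃ k : ℕ, (k : ℤ) = (-u) % (Λ : ℤ) :=
    ⟨((-u) % (Λ : ℤ)).toNat, Int.toNat_of_nonneg (Int.emod_nonneg _ hΛz.ne')⟩
  have hkd : (Λ : ℤ) ∣ X * k + 1 := by
    have h1 : (Λ : ℤ) ∣ (-u) - k := by
      rw [hk]
      exact Int.dvd_self_sub_emod
    obtain ⟨c, hc⟩ := h1
    exact ⟨v - X * c, by linear_combination (-1) * huv - (X : ℤ) * hc⟩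
  obtain ⟨N, hN⟩ : ∃ N : ℕ, N = ⌈2 / η⌉₊ + 1 := ⟨_, rfl⟩
  refine ⟨a, Λ, k + Λ * N, hΛ, ?_⟩
  intro K hK hKm i j hij ς hς
  obtain ⟨t, ht, htQ⟩ := n3_triple a i j hij ς hς
  obtain ⟨hQΛ, hest⟩ := hX t (Finset.mem_filter.mpr ⟨Finset.mem_univ t, ht⟩)
  have hQ0 := hQpos t ht
  rw [← htQ]
  obtain ⟨Q, hQ⟩ : ∃ Q : ℕ, Q = QQ a t := ⟨_, rfl⟩
  rw [← hQ] at hQΛ hest hQ0 ⊢
  have hKd : Λ ∣ X * K + 1 := by
    have h1 : X * K + 1 ≡ X * (k + Λ * N) + 1 [MOD Λ] := Nat.ModEq.add_right 1 (Nat.ModEq.mul_left X hKm)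
    have h2 : Λ ∣ X * (k + Λ * N) + 1 := by
      have h3 : Λ ∣ X * k + 1 := by exact_mod_cast hkd
      have h4 : X * (k + Λ * N) + 1 = (X * k + 1) + Λ * (X * N) := by ring
      rw [h4]
      exact Dvd.dvd.add h3 (Dvd.intro _ rfl)
    exact (h1.dvd_iff dvd_rfl).mpr h2
  have hrd : Q ∣ (X % Q) * K + 1 := by
    have h1 : (X % Q) * K + 1 ≡ X * K + 1 [MOD Q] := Nat.ModEq.add_right 1 (Nat.ModEq.mul_right K (Nat.mod_modEq X Q))
    exact (h1.dvd_iff dvd_rfl).mpr (hQΛ.trans hKd)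
  obtain ⟨R, hR⟩ := hrd
  refine ⟨(R : ℤ), ⟨((X % Q : ℕ) : ℤ), ?_⟩, ?_⟩
  · have h1 : ((X % Q : ℕ) : ℤ) * K + 1 = Q * R := by exact_mod_cast hR
    linear_combination -h1
  · have hQr : (0 : ℝ) < Q := by exact_mod_cast hQ0
    have hQ1 : (1 : ℝ) ≤ Q := by exact_mod_cast hQ0
    have h1 : ((X % Q : ℕ) : ℝ) * K + 1 = Q * R := by exact_mod_cast hR
    have hKN : N ≤ K := by
      have : N ≤ Λ * N := Nat.le_mul_of_pos_left N hΛ
      omega
    have hK2 : 2 / η ≤ K := by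
      have h2 : (N : ℝ) ≤ K := by exact_mod_cast hKN
      have h3 : 2 / η ≤ ⌈2 / η⌉₊ := Nat.le_ceil _
      have h4 : (N : ℝ) = ⌈2 / η⌉₊ + 1 := by
        rw [hN]
        push_cast
        ring
      linarith
    rw [div_le_iff₀ hη] at hK2
    have hK0 : (0 : ℝ) ≤ K := Nat.cast_nonneg _
    have h5 : ((R : ℤ) : ℝ) - (K : ℝ) / 16 = K * (((X % Q : ℕ) : ℝ) / Q - 1 / 16) + 1 / Q := by
      have h6 : (R : ℝ) = (((X % Q : ℕ) : ℝ) * K + 1) / Q := by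
        rw [h1]
        field_simp
      push_cast
      rw [h6]
      field_simp
      ring
    rw [h5]
    have h7 : |K * (((X % Q : ℕ) : ℝ) / Q - 1 / 16)| ≤ K * (η / 2) := by
      rw [abs_mul, abs_of_nonneg hK0]
      exact mul_le_mul_of_nonneg_left hest hK0
    have h8 : |(1 : ℝ) / Q| ≤ 1 := by
      rw [abs_of_nonneg (by positivity), div_le_one hQr]
      exact hQ1
    have h9 := abs_add_le (K * (((X % Q : ℕ) : ℝ) / Q - 1 / 16)) (1 / (Q : ℝ))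
    linarith

end AstroR
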