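import Pool.Agent.Lib.H73R.Defs

/-!
# Angles between points of the unit sphere
-/

set_option autoImplicit false

noncomputable section

open MeasureTheory Metric Set Real Filter Topology
open scoped RealInnerProductSpace NNReal ENNReal

namespace AstroR

open Astro

theorem p0_0 (t α : ℝ) : sph t α 0 = sin t * cos α := by
  simp [sph]

theorem p0_1 (t α : ℝ) : sph t α 1 = sin t * sin α := by
  simp [sph]

theorem p0_2 (t α : ℝ) : sph t α 2 = cos t := by
  simp [sph]

/-- Two unit vectors with inner product at least `cos x` make an angle at most `|x|`.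
Proof: if `π ≤ |x|` use `InnerProductGeometry.angle_le_pi`. Otherwise `angle p q = arccos ⟪p, q⟫`
(unfold, norms are one) `≤ arccos (cos x) = arccos (cos |x|) = |x|` by `Real.arccos_le_arccos`
(`Real.antitone_arccos`), `Real.cos_abs`, `Real.arccos_cos`. -/
theorem angle_le_abs {p q : E3} (hp : ‖p‖ = 1) (hq : ‖q‖ = 1) {x : ℝ} (h : cos x ≤ ⟪p, q⟫) :
    InnerProductGeometry.angle p q ≤ |x| := by
  by_cases hx : π ≤ |x|
  · exact (InnerProductGeometry.angle_le_pi p q).trans hx
  · unfold InnerProductGeometry.angle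
    rw [hp, hq, mul_one, div_one]
    have h1 : arccos ⟪p, q⟫ ≤ arccos (cos x) := Real.antitone_arccos h
    rwa [← Real.cos_abs x, Real.arccos_cos (abs_nonneg x) (not_le.mp hx).le] at h1

/-- The chord is at most the angle. Proof: with `φ = angle p q`, `‖p - q‖ ^ 2 = 2 - 2 cos φ
= (2 sin (φ / 2)) ^ 2 ≤ φ ^ 2` (`norm_sub_sq_real`, `InnerProductGeometry.cos_angle`,
`Real.sin_le`, or `Real.one_sub_sq_div_two_le_cos`: `1 - φ ^ 2 / 2 ≤ cos φ`). -/
theorem norm_sub_le_angle {p q : E3} (hp : ‖p‖ = 1) (hq : ‖q‖ = 1) :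
    ‖p - q‖ ≤ InnerProductGeometry.angle p q := by
  have h1 : ‖p - q‖ ^ 2 = 2 - 2 * cos (InnerProductGeometry.angle p q) := by
    rw [norm_sub_sq_real, hp, hq, InnerProductGeometry.cos_angle, hp, hq, mul_one, div_one]
    ring
  have h2 := Real.one_sub_sq_div_two_le_cos (x := InnerProductGeometry.angle p q)
  have h3 := InnerProductGeometry.angle_nonneg p q
  have h4 := norm_nonneg (p - q)
  by_contra hc
  have h5 := not_le.mp hc
  nlinarith

/-- Unit speed curves are continuous: they are `1`-Lipschitz by `norm_sub_le_angle`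
(`LipschitzWith.of_dist_le_mul`, `LipschitzWith.continuous`). -/
theorem LipU.continuous {c : ℝ → E3} (h : LipU c) : Continuous c := by
  refine (LipschitzWith.of_dist_le_mul (K := 1) fun s t => ?_).continuous
  rw [dist_eq_norm, NNReal.coe_one, one_mul, Real.dist_eq]
  exact (norm_sub_le_angle (h.1 s) (h.1 t)).trans (h.2 s t)

/-- `⟪sph s α, sph t β⟫ = sin s sin t cos (α - β) + cos s cos t` (`inner3`, `uv`, `e3` in
coordinates, `Real.cos_sub`). -/
theorem inner_sph (s t α β : ℝ) :
    ⟪sph s α, sph t β⟫ = sin s * sin t * cos (α - β) + cos s * cos t := by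
  rw [inner3, p0_0, p0_0, p0_1, p0_1, p0_2, p0_2, Real.cos_sub]
  ring

/-- Points `sph t α` are unit vectors: take `s = t`, `α = β` in `inner_sph`
(`real_inner_self_eq_norm_sq`). -/
theorem norm_sph (t α : ℝ) : ‖sph t α‖ = 1 := by
  have h1 : ‖sph t α‖ ^ 2 = 1 := by
    rw [normsq3, p0_0, p0_1, p0_2]
    have h2 := Real.sin_sq_add_cos_sq t
    have h3 := Real.sin_sq_add_cos_sq α
    have h4 : (sin t * cos α) ^ 2 + (sin t * sin α) ^ 2 + cos t ^ 2 = sin t ^ 2 * (sin α ^ 2 + cos α ^ 2) + cos t ^ 2 := by ring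
    rw [h4, h3, mul_one, h2]
  have h5 := norm_nonneg (sph t α)
  nlinarith

/-- Motion along a parallel: `⟪sph t α, sph t β⟫ = sin t ^ 2 cos (α - β) + cos t ^ 2 ≥ cos (α - β)`
since `cos (α - β) ≤ 1`; use `angle_le_abs`. -/
theorem angle_sph_az (t α β : ℝ) :
    InnerProductGeometry.angle (sph t α) (sph t β) ≤ |α - β| := by
  refine angle_le_abs (norm_sph t α) (norm_sph t β) ?_
  rw [inner_sph]
  have h2 := Real.sin_sq_add_cos_sq t
  have h3 := Real.cos_le_one (α - β)
  nlinarith [sq_nonneg (cos t)]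

/-- Motion along a meridian: `⟪sph s α, sph t α⟫ = cos (s - t)`; use `angle_le_abs`. -/
theorem angle_sph_polar (s t α : ℝ) :
    InnerProductGeometry.angle (sph s α) (sph t α) ≤ |s - t| := by
  refine angle_le_abs (norm_sph s α) (norm_sph t α) ?_
  rw [inner_sph, sub_self, Real.cos_zero, Real.cos_sub]
  linarith

/-- Rotations about the pole shift the azimuth (copy the proof of `Astro.act_rot_upath`:
coordinates, `rot_act_0`, `rot_act_1`, `rot_act_2`). -/
theorem act_rot_sph (φ t β : ℝ) : act (rot φ) (sph t β) = sph t (β + φ) := by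
  ext i
  fin_cases i
  · show act (rot φ) (sph t β) 0 = sph t (β + φ) 0
    rw [rot_act_0, p0_0, p0_1, p0_0, cos_add]
    ring
  · show act (rot φ) (sph t β) 1 = sph t (β + φ) 1
    rw [rot_act_1, p0_0, p0_1, p0_1, sin_add]
    ring
  · show act (rot φ) (sph t β) 2 = sph t (β + φ) 2
    rw [rot_act_2, p0_2, p0_2]

/-- The poles: `sph 0 α = e3`. -/
theorem sph_zero (α : ℝ) : sph 0 α = e3 := by
  unfold sph
  rw [Real.sin_zero, Real.cos_zero, zero_smul, one_smul, zero_add]

end AstroR
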