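import Pool.Agent.Lib.H73R.P0

/-!
# Great circle arcs
-/

set_option autoImplicit false

noncomputable section

open MeasureTheory Metric Set Real Filter Topology
open scoped RealInnerProductSpace NNReal ENNReal

namespace AstroR

open Astro

theorem p1_orth {x : E3} (hx : ‖x‖ = 1) : ∃ u : E3, ‖u‖ = 1 ∧ ⟪x, u⟫ = 0 := by
  have hne : x ≠ 0 := by
    intro h
    rw [h, norm_zero] at hx
    exact zero_ne_one hx
  obtain ⟨w, hw, hw0⟩ : ∃ w : E3, w ∈ (Submodule.span ℝ {x})ᗮ ∧ w ≠ 0 := by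
    have h1 : (Submodule.span ℝ {x})ᗮ ≠ ⊥ := by
      intro h
      rw [Submodule.orthogonal_eq_bot_iff] at h
      have h2 : Module.finrank ℝ (Submodule.span ℝ {x}) = 1 := finrank_span_singleton hne
      rw [h, finrank_top] at h2
      have h3 : Module.finrank ℝ E3 = 3 := by simp [E3]
      rw [h3] at h2
      norm_num at h2
    exact Submodule.exists_mem_ne_zero_of_ne_bot h1
  have hn : ‖w‖ ≠ 0 := norm_ne_zero_iff.2 hw0
  refine ⟨‖w‖⁻¹ • w, ?_, ?_⟩
  · rw [norm_smul, norm_inv, norm_norm, inv_mul_cancel₀ hn]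
  · rw [real_inner_smul_right, Submodule.mem_orthogonal_singleton_iff_inner_right.1 hw, mul_zero]

theorem p1_dec {x y : E3} (hx : ‖x‖ = 1) (hy : ‖y‖ = 1) : ∃ u : E3, ‖u‖ = 1 ∧ ⟪x, u⟫ = 0 ∧
    y = cos (InnerProductGeometry.angle x y) • x + sin (InnerProductGeometry.angle x y) • u := by
  have hc : cos (InnerProductGeometry.angle x y) = ⟪x, y⟫ := by
    rw [InnerProductGeometry.cos_angle, hx, hy]
    simp
  obtain ⟨φ, hφ⟩ : ∃ φ, φ = InnerProductGeometry.angle x y := ⟨_, rfl⟩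
  rw [← hφ] at hc ⊢
  have hxx : ⟪x, x⟫ = (1 : ℝ) := by rw [real_inner_self_eq_norm_sq, hx, one_pow]
  have hyy : ⟪y, y⟫ = (1 : ℝ) := by rw [real_inner_self_eq_norm_sq, hy, one_pow]
  have hsq : ‖y - cos φ • x‖ ^ 2 = sin φ ^ 2 := by
    rw [← real_inner_self_eq_norm_sq, inner_sub_left, inner_sub_right, inner_sub_right, real_inner_smul_left,
      real_inner_smul_left, real_inner_smul_right, real_inner_smul_right, hxx, hyy, real_inner_comm x y, ← hc]
    have := sin_sq_add_cos_sq φ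
    nlinarith
  by_cases hs : sin φ = 0
  · obtain ⟨u, hu1, hu2⟩ := p1_orth hx
    refine ⟨u, hu1, hu2, ?_⟩
    rw [hs] at hsq ⊢
    have h0 : y - cos φ • x = 0 := by
      rw [← norm_eq_zero]
      have : ‖y - cos φ • x‖ ^ 2 = 0 := by rw [hsq]; norm_num
      exact pow_eq_zero_iff (two_ne_zero) |>.1 this
    rw [zero_smul, add_zero]
    exact sub_eq_zero.1 h0
  · refine ⟨(sin φ)⁻¹ • (y - cos φ • x), ?_, ?_, ?_⟩
    · have h1 : ‖(sin φ)⁻¹ • (y - cos φ • x)‖ ^ 2 = 1 := by
        rw [norm_smul, mul_pow, hsq, norm_inv, Real.norm_eq_abs, inv_pow, sq_abs]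
        exact inv_mul_cancel₀ (pow_ne_zero 2 hs)
      have h2 : 0 ≤ ‖(sin φ)⁻¹ • (y - cos φ • x)‖ := norm_nonneg _
      nlinarith
    · rw [real_inner_smul_right, inner_sub_right, real_inner_smul_right, hxx, ← hc]
      ring
    · rw [smul_smul, mul_inv_cancel₀ hs, one_smul]
      abel

theorem p1_clamp (φ s t : ℝ) : |max 0 (min φ s) - max 0 (min φ t)| ≤ |s - t| := by
  have h1 := abs_max_sub_max_le_max 0 (min φ s) 0 (min φ t)
  have h2 := abs_min_sub_min_le_max φ s φ t
  rw [sub_self, abs_zero, max_eq_right (abs_nonneg (min φ s - min φ t))] at h1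
  rw [sub_self, abs_zero, max_eq_right (abs_nonneg (s - t))] at h2
  exact h1.trans h2

/-- Two points of the sphere at angle at most `D` are joined by a unit speed curve in time `D`.

Proof. Let `φ = angle x y ∈ [0, π]`. First, there is a unit vector `u` orthogonal to `x` with
`y = cos φ • x + sin φ • u`:
* if `sin φ ≠ 0` put `u = (sin φ)⁻¹ • (y - cos φ • x)`; `⟪x, y⟫ = cos φ`
  (`InnerProductGeometry.cos_angle`), so `⟪x, u⟫ = 0` and `‖u‖ ^ 2 = (1 - cos φ ^ 2) / sin φ ^ 2 = 1`;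
* if `sin φ = 0` then `cos φ ^ 2 = 1` and `‖y - cos φ • x‖ ^ 2 = 1 - 2 cos φ ^ 2 + cos φ ^ 2 = 0`, so
  `y = cos φ • x`; take for `u` any unit vector orthogonal to `x` (for instance normalise the vector
  `(-x 1, x 0, 0)` if it is not zero, else `x = ± e3` and `u = !₂[1, 0, 0]`; or use the orthonormal
  basis of `Astro.volume_sector`: `Orthonormal.exists_orthonormalBasis_extension_of_card_eq`).
Let `f t = max 0 (min φ t)` and `c t = cos (f t) • x + sin (f t) • u`. Then `‖c t‖ = 1`, `c 0 = x`,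
`c D = y` since `φ ≤ D`, and `⟪c s, c t⟫ = cos (f s - f t)`, so by `angle_le_abs` the angle is at
most `|f s - f t| ≤ |s - t|` (`abs_max_sub_max_le_abs`, `abs_min_sub_min_le_max`, or a case
distinction). -/
theorem connect {x y : E3} (hx : ‖x‖ = 1) (hy : ‖y‖ = 1) {D : ℝ}
    (hD : InnerProductGeometry.angle x y ≤ D) :
    ∃ c : ℝ → E3, LipU c ∧ c 0 = x ∧ c D = y := by
  obtain ⟨u, hu1, hu2, huy⟩ := p1_dec hx hy
  have hφ0 : 0 ≤ InnerProductGeometry.angle x y := InnerProductGeometry.angle_nonneg x y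
  obtain ⟨φ, hφ⟩ : ∃ φ, φ = InnerProductGeometry.angle x y := ⟨_, rfl⟩
  rw [← hφ] at huy hφ0 hD
  have hxx : ⟪x, x⟫ = (1 : ℝ) := by rw [real_inner_self_eq_norm_sq, hx, one_pow]
  have huu : ⟪u, u⟫ = (1 : ℝ) := by rw [real_inner_self_eq_norm_sq, hu1, one_pow]
  have hin : ∀ a b : ℝ, ⟪cos a • x + sin a • u, cos b • x + sin b • u⟫ = cos (a - b) := by
    intro a b
    rw [inner_add_left, inner_add_right, inner_add_right, real_inner_smul_left, real_inner_smul_left, real_inner_smul_left,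
      real_inner_smul_left, real_inner_smul_right, real_inner_smul_right, real_inner_smul_right, real_inner_smul_right,
      hxx, huu, real_inner_comm x u, hu2, cos_sub]
    ring
  have hn : ∀ a : ℝ, ‖cos a • x + sin a • u‖ = 1 := by
    intro a
    have h1 : ‖cos a • x + sin a • u‖ ^ 2 = 1 := by
      rw [← real_inner_self_eq_norm_sq, hin, sub_self, cos_zero]
    have h2 : 0 ≤ ‖cos a • x + sin a • u‖ := norm_nonneg _
    nlinarith
  refine ⟨fun t => cos (max 0 (min φ t)) • x + sin (max 0 (min φ t)) • u, ⟨fun t => hn _, fun s t => ?_⟩, ?_, ?_⟩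
  · exact (angle_le_abs (hn _) (hn _) (le_of_eq (hin _ _).symm)).trans (p1_clamp φ s t)
  · dsimp only
    rw [min_eq_right hφ0, max_self, cos_zero, sin_zero, one_smul, zero_smul, add_zero]
  · dsimp only
    rw [min_eq_left hD, max_eq_right hφ0]
    exact huy.symm

end AstroR
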