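import Pool.Agent.Lib.H73R.P0

/-!
# Concatenation of curves
-/

set_option autoImplicit false

noncomputable section

open MeasureTheory Metric Set Real Filter Topology
open scoped RealInnerProductSpace NNReal ENNReal

namespace AstroR

open Astro

theorem p2_clamp (a B x y : ℝ) : |max a (min B x) - max a (min B y)| ≤ |x - y| := by
  rcases le_total x y with h | h
  · have h1 : min B x ≤ min B y := min_le_min_left B h
    have h2 : max a (min B x) ≤ max a (min B y) := max_le_max_left a h1
    have h3 : min B y ≤ min B x + (y - x) := by
      rcases le_total B x with h4 | h4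
      · rw [min_eq_left h4]
        exact (min_le_left B y).trans (by linarith)
      · rw [min_eq_right h4]
        exact (min_le_right B y).trans (by linarith)
    have h4 : max a (min B y) ≤ max a (min B x) + (y - x) := by
      refine max_le ?_ ?_
      · have := le_max_left a (min B x)
        linarith
      · have := le_max_right a (min B x)
        linarith
    rw [abs_of_nonpos (by linarith), abs_of_nonpos (by linarith)]
    linarith
  · have h1 : min B y ≤ min B x := min_le_min_left B h
    have h2 : max a (min B y) ≤ max a (min B x) := max_le_max_left a h1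
    have h3 : min B x ≤ min B y + (x - y) := by
      rcases le_total B y with h4 | h4
      · rw [min_eq_left h4]
        exact (min_le_left B x).trans (by linarith)
      · rw [min_eq_right h4]
        exact (min_le_right B x).trans (by linarith)
    have h4 : max a (min B x) ≤ max a (min B y) + (x - y) := by
      refine max_le ?_ ?_
      · have := le_max_left a (min B y)
        linarith
      · have := le_max_right a (min B y)
        linarith
    rw [abs_of_nonneg (by linarith), abs_of_nonneg (by linarith)]
    linarith

/-- Concatenation at time `u`: if `c₁ u = c₂ 0` then the curve which follows `c₁` until `u` and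
`c₂` afterwards is unit speed. Proof: for `s, t ≤ u` and for `s, t > u` use the property of `c₁`,
`c₂`; for `s ≤ u < t` use `InnerProductGeometry.angle_le_angle_add_angle (c₁ s) (c₁ u) (c₂ (t - u))`:
the two angles are at most `|s - u| = u - s` and `|0 - (t - u)| = t - u`; the case `t ≤ u < s` is
symmetric (`InnerProductGeometry.angle_comm`). -/
theorem glue {c₁ c₂ : ℝ → E3} (h₁ : LipU c₁) (h₂ : LipU c₂) {u : ℝ} (h : c₁ u = c₂ 0) :
    LipU (fun t => if t ≤ u then c₁ t else c₂ (t - u)) := by
  have mixed : ∀ s t, s ≤ u → ¬t ≤ u → InnerProductGeometry.angle (c₁ s) (c₂ (t - u)) ≤ |s - t| := by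
    intro s t hs ht
    have ht2 : u < t := not_le.1 ht
    calc InnerProductGeometry.angle (c₁ s) (c₂ (t - u))
        ≤ InnerProductGeometry.angle (c₁ s) (c₁ u) + InnerProductGeometry.angle (c₁ u) (c₂ (t - u)) :=
          InnerProductGeometry.angle_le_angle_add_angle _ _ _
      _ ≤ |s - u| + |0 - (t - u)| := add_le_add (h₁.2 s u) (by rw [h]; exact h₂.2 0 (t - u))
      _ = |s - t| := by
          rw [abs_of_nonpos (by linarith), abs_of_nonpos (by linarith), abs_of_nonpos (by linarith)]
          ring
  refine ⟨fun t => ?_, fun s t => ?_⟩
  · by_cases ht : t ≤ u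
    · simp only [if_pos ht]
      exact h₁.1 t
    · simp only [if_neg ht]
      exact h₂.1 _
  · by_cases hs : s ≤ u
    · by_cases ht : t ≤ u
      · simp only [if_pos hs, if_pos ht]
        exact h₁.2 s t
      · simp only [if_pos hs, if_neg ht]
        exact mixed s t hs ht
    · by_cases ht : t ≤ u
      · simp only [if_neg hs, if_pos ht]
        rw [InnerProductGeometry.angle_comm, abs_sub_comm]
        exact mixed t s ht hs
      · simp only [if_neg hs, if_neg ht]
        have h3 := h₂.2 (s - u) (t - u)
        have e : s - u - (t - u) = s - t := by ring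
        rw [e] at h3
        exact h3

/-- A piece of meridian from polar angle `b` to `π - b` (clamp the polar angle:
`c t = sph (max b (min (π - b) (b + t))) α`; `angle_sph_polar`, and the clamp is `1`-Lipschitz). -/
theorem merid_down (α : ℝ) {b : ℝ} (hb : b ≤ 1) :
    ∃ c : ℝ → E3, LipU c ∧ ∀ t, b ≤ t → t ≤ π - b → c (t - b) = sph t α := by
  refine ⟨fun t => sph (max b (min (π - b) (b + t))) α, ⟨fun t => norm_sph _ _, fun s t => ?_⟩, fun t h1 h2 => ?_⟩
  · refine (angle_sph_polar _ _ _).trans ((p2_clamp _ _ _ _).trans (le_of_eq ?_))
    congr 1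
    ring
  · have e : b + (t - b) = t := by ring
    simp only [e]
    rw [min_eq_right h2, max_eq_right h1]

/-- The same piece of meridian in the opposite direction
(`c t = sph (max b (min (π - b) (π - b - t))) α`). -/
theorem merid_up (α : ℝ) {b : ℝ} (hb : b ≤ 1) :
    ∃ c : ℝ → E3, LipU c ∧ ∀ t, b ≤ t → t ≤ π - b → c (π - b - t) = sph t α := by
  refine ⟨fun t => sph (max b (min (π - b) (π - b - t))) α, ⟨fun t => norm_sph _ _, fun s t => ?_⟩, fun t h1 h2 => ?_⟩
  · refine (angle_sph_polar _ _ _).trans ((p2_clamp _ _ _ _).trans (le_of_eq ?_))
    rw [abs_sub_comm]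
    congr 1
    ring
  · have e : π - b - (π - b - t) = t := by ring
    simp only [e]
    rw [min_eq_right h2, max_eq_right h1]

end AstroR
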