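import Pool.Agent.Lib.H73R.P1
import Pool.Agent.Lib.H73R.P2

/-!
# Following a sequence of curves
-/

set_option autoImplicit false

noncomputable section

open MeasureTheory Metric Set Real Filter Topology
open scoped RealInnerProductSpace NNReal ENNReal

namespace AstroR

open Astro

theorem p4_glue2 {c₁ c₂ : ℝ → E3} (h₁ : LipU c₁) (h₂ : LipU c₂) {u : ℝ} (h : c₁ u = c₂ 0) :
    ∃ c : ℝ → E3, LipU c ∧ (∀ t, t ≤ u → c t = c₁ t) ∧ ∀ t, 0 ≤ t → c (u + t) = c₂ t := by
  refine ⟨_, glue h₁ h₂ h, ?_, ?_⟩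
  · intro t ht
    exact if_pos ht
  · intro t ht
    show (if u + t ≤ u then c₁ (u + t) else c₂ (u + t - u)) = c₂ t
    by_cases h0 : u + t ≤ u
    · have h1 : t = 0 := by linarith
      rw [if_pos h0, h1, add_zero, h]
    · rw [if_neg h0, add_sub_cancel_left]

theorem p4_mono (n : ℕ) (s ℓ : ℕ → ℝ) (seg : ℕ → ℝ → E3) (hℓ : ∀ j, 0 ≤ ℓ j)
    (hs : ∀ j, j + 1 < n →
      InnerProductGeometry.angle (seg j (ℓ j)) (seg (j + 1) 0) ≤ s (j + 1) - (s j + ℓ j)) (m : ℕ) (hm : m < n) :
    ∀ j, j ≤ m → s j + ℓ j ≤ s m + ℓ m := by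
  induction m with
  | zero =>
    intro j hj
    obtain rfl : j = 0 := by omega
    exact le_rfl
  | succ m ih =>
    intro j hj
    rcases Nat.lt_or_ge m j with h | h
    · obtain rfl : j = m + 1 := by omega
      exact le_rfl
    · have h1 := ih (by omega) j h
      have h2 := hs m hm
      have h3 := InnerProductGeometry.angle_nonneg (seg m (ℓ m)) (seg (m + 1) 0)
      have h4 := hℓ (m + 1)
      linarith

/-- A unit speed curve which starts at `x₀` and follows the curve `seg j` during the time interval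
`[s j, s j + ℓ j]`, for every `j < n`. The waiting times `s (j + 1) - (s j + ℓ j)` must be at least
the angle between the end of `seg j` and the beginning of `seg (j + 1)`.

Proof by induction on `n`. `n = 0`: the constant curve `x₀` (angle of a unit vector with itself is
zero, `InnerProductGeometry.angle_self`). Step `n → n + 1`, `n = 0`: let `d` be a curve of `connect`
with `d 0 = x₀`, `d (s 0) = seg 0 0`; then `glue` of `d` and `seg 0` at time `u = s 0` works
(`s 0 ≥ 0` since an angle is nonnegative). Step with `n = m + 1`: let `c` be the curve for `n` tasks,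
`u = s m + ℓ m` (so `c u = seg m (ℓ m)`), let `d` be a curve of `connect` with `d 0 = c u`,
`d (s n - u) = seg n 0`, and take first `e = glue` of `d` and `seg n` at time `s n - u`, then `glue`
of `c` and `e` at time `u` (`e 0 = d 0` as `0 ≤ s n - u`). For `j < n` and `0 ≤ t ≤ ℓ j` one has
`s j + t ≤ u` (the sequence `s` is increasing by `hs`: show `s j + ℓ j ≤ s k` for `j < k < n + 1`), so
the new curve agrees with `c` there; at the time `s n + t` with `t ≥ 0`: the value is `c u = e 0` if
`s n + t = u`, else `e (s n + t - u)`, which is `seg n t` (if `s n + t - u ≤ s n - u` then `t = 0` and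
the value is `d (s n - u) = seg n 0`). -/
theorem chain (n : ℕ) (s ℓ : ℕ → ℝ) (seg : ℕ → ℝ → E3) (hseg : ∀ j, LipU (seg j))
    (hℓ : ∀ j, 0 ≤ ℓ j)
    (hs : ∀ j, j + 1 < n →
      InnerProductGeometry.angle (seg j (ℓ j)) (seg (j + 1) 0) ≤ s (j + 1) - (s j + ℓ j))
    {x₀ : E3} (hx₀ : ‖x₀‖ = 1) (h0 : InnerProductGeometry.angle x₀ (seg 0 0) ≤ s 0) :
    ∃ c : ℝ → E3, LipU c ∧ c 0 = x₀ ∧
      ∀ j < n, ∀ t, 0 ≤ t → t ≤ ℓ j → c (s j + t) = seg j t := by
  have hs0 : 0 ≤ s 0 := (InnerProductGeometry.angle_nonneg _ _).trans h0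
  induction n with
  | zero =>
    refine ⟨fun _ => x₀, ⟨fun _ => hx₀, fun a b => ?_⟩, rfl, fun j hj => absurd hj (by omega)⟩
    have hne : x₀ ≠ 0 := by
      intro h
      rw [h, norm_zero] at hx₀
      exact zero_ne_one hx₀
    rw [InnerProductGeometry.angle_self hne]
    exact abs_nonneg _
  | succ n ih =>
    obtain ⟨c, hc, hc0, hcj⟩ := ih fun j hj => hs j (by omega)
    rcases Nat.eq_zero_or_pos n with hn | hn
    · subst hn
      obtain ⟨d, hd, hd0, hd1⟩ := connect hx₀ ((hseg 0).1 0) h0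
      obtain ⟨e, he, he1, he2⟩ := p4_glue2 hd (hseg 0) hd1
      refine ⟨e, he, ?_, ?_⟩
      · rw [he1 0 hs0, hd0]
      · intro j hj t ht _
        obtain rfl : j = 0 := by omega
        exact he2 t ht
    · obtain ⟨m, rfl⟩ : ∃ m, n = m + 1 := ⟨n - 1, by omega⟩
      have hang := hs m (by omega)
      have hD : 0 ≤ s (m + 1) - (s m + ℓ m) := (InnerProductGeometry.angle_nonneg _ _).trans hang
      obtain ⟨d, hd, hd0, hd1⟩ := connect ((hseg m).1 (ℓ m)) ((hseg (m + 1)).1 0) hang
      obtain ⟨e, he, he1, he2⟩ := p4_glue2 hd (hseg (m + 1)) hd1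
      have hcu : c (s m + ℓ m) = e 0 := by
        rw [hcj m (by omega) (ℓ m) (hℓ m) le_rfl, he1 0 hD, hd0]
      obtain ⟨g, hg, hg1, hg2⟩ := p4_glue2 hc he hcu
      have hmono := p4_mono (m + 1 + 1) s ℓ seg hℓ hs m (by omega)
      have hu : 0 ≤ s m + ℓ m := by
        have h1 := hmono 0 (by omega)
        have h2 := hℓ 0
        linarith
      refine ⟨g, hg, ?_, ?_⟩
      · rw [hg1 0 hu, hc0]
      · intro j hj t ht htl
        rcases Nat.lt_or_ge j (m + 1) with h | h
        · have h1 := hmono j (by omega)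
          rw [hg1 (s j + t) (by linarith)]
          exact hcj j h t ht htl
        · obtain rfl : j = m + 1 := by omega
          have h1 : s (m + 1) + t = (s m + ℓ m) + ((s (m + 1) - (s m + ℓ m)) + t) := by ring
          rw [h1, hg2 _ (by linarith), he2 t ht]

end AstroR
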