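import Pool.Agent.Lib.H73R.P4
import Pool.Agent.Lib.H73R.P8

/-!
# The curve of a stage
-/

set_option autoImplicit false

noncomputable section

open MeasureTheory Metric Set Real Filter Topology
open scoped RealInnerProductSpace NNReal ENNReal

namespace AstroR

open Astro

theorem p6_kap (K E m p : ℕ) : kap K E m (p + 1) = kap K E m p + 1 := by
  unfold kap
  push_cast
  ring

theorem p6_az (K a : ℕ) (k : ℤ) : |az K a k - az K a (k + 1)| = 2 * π * a / K := by
  have h1 : az K a k - az K a (k + 1) = -(2 * π * a / K) := by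
    unfold az
    push_cast
    ring
  rw [h1, abs_neg, abs_of_nonneg]
  have := pi_pos
  positivity

/-- The curve of stage `m`.

Proof: `chain` with `n = Np K E`, `s p = p * Lp τ m`, `ℓ p = π - 2 * cut m`, and `seg p` the curve of
`merid_down` (`p` even) or `merid_up` (`p` odd) with `b = cut m` (`cut_le`) and
`α = az K a (kap K E m p)` (choose the curves with `Classical.choose`, i.e. first prove
`∀ p, ∃ c, LipU c ∧ ∀ t, cut m ≤ t → t ≤ π - cut m → c (lt m p t) = sph t (az K a (kap K E m p))` and
use `choose`). Transfers: with `b = cut m`, the end `seg p (ℓ p)` is `sph (π - b) (az ..)` for `p`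
even (`t = π - b`) and `sph b (az ..)` for `p` odd (`t = b`, `lt m p b = π - 2 b`), and
`seg (p + 1) 0` is `sph` of the same polar angle; the azimuths differ by
`2 π a / K` (`kap K E m (p + 1) = kap K E m p + 1`), so the angle is at most `2 π a / K ≤ τ`
(`angle_sph_az`) and `s (p + 1) - (s p + ℓ p) = Lp τ m - (π - 2 b) = τ`. `x₀ = seg 0 0`
(`angle_self`). The conclusion of `chain` at `t' = lt m p t ∈ [0, π - 2 b]` is the claim. -/
theorem stage (K E : ℕ) {τ : ℝ} (a m : ℕ) (hK : 0 < K) (hτ : 2 * π * a / K ≤ τ) :
    ∃ c : ℝ → E3, LipU c ∧ ∀ p < Np K E, ∀ t, cut m ≤ t → t ≤ π - cut m →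
      c (p * Lp τ m + lt m p t) = sph t (az K a (kap K E m p)) := by
  have hcut := cut_le m
  have hcut0 := cut_nonneg m
  have hpi := pi_gt_three
  have h1 : ∀ p : ℕ, ∃ c : ℝ → E3, LipU c ∧ ∀ t, cut m ≤ t → t ≤ π - cut m →
      c (lt m p t) = sph t (az K a (kap K E m p)) := by
    intro p
    by_cases hp : Even p
    · obtain ⟨c, hc1, hc2⟩ := merid_down (az K a (kap K E m p)) (b := cut m) (by linarith)
      refine ⟨c, hc1, fun t ht1 ht2 => ?_⟩
      unfold lt
      rw [if_pos hp]
      exact hc2 t ht1 ht2
    · obtain ⟨c, hc1, hc2⟩ := merid_up (az K a (kap K E m p)) (b := cut m) (by linarith)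
      refine ⟨c, hc1, fun t ht1 ht2 => ?_⟩
      unfold lt
      rw [if_neg hp]
      exact hc2 t ht1 ht2
  choose seg hseg1 hseg2 using h1
  have hne : seg 0 0 ≠ 0 := by
    intro h0
    have := (hseg1 0).1 0
    rw [h0, norm_zero] at this
    exact zero_ne_one this
  obtain ⟨c, hc1, _, hc3⟩ := chain (Np K E) (fun p => p * Lp τ m) (fun _ => π - 2 * cut m) seg hseg1
    (fun _ => by linarith) (fun j _ => by
      have h2 : ((j + 1 : ℕ) : ℝ) * Lp τ m - ((j : ℝ) * Lp τ m + (π - 2 * cut m)) = τ := by
        unfold Lp
        push_cast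
        ring
      rw [h2]
      refine le_trans ?_ hτ
      by_cases hj : Even j
      · have hj' : ¬ Even (j + 1) := by
          rw [Nat.even_add_one]
          exact not_not.2 hj
        have h3 := hseg2 j (π - cut m) (by linarith) le_rfl
        have h4 := hseg2 (j + 1) (π - cut m) (by linarith) le_rfl
        have h5 : lt m j (π - cut m) = π - 2 * cut m := by
          unfold lt
          rw [if_pos hj]
          ring
        have h6 : lt m (j + 1) (π - cut m) = 0 := by
          unfold lt
          rw [if_neg hj']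
          ring
        rw [h5] at h3
        rw [h6] at h4
        rw [h3, h4, p6_kap]
        exact (angle_sph_az _ _ _).trans (le_of_eq (p6_az K a _))
      · have hj' : Even (j + 1) := Nat.even_add_one.2 hj
        have h3 := hseg2 j (cut m) le_rfl (by linarith)
        have h4 := hseg2 (j + 1) (cut m) le_rfl (by linarith)
        have h5 : lt m j (cut m) = π - 2 * cut m := by
          unfold lt
          rw [if_neg hj]
          ring
        have h6 : lt m (j + 1) (cut m) = 0 := by
          unfold lt
          rw [if_pos hj']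
          ring
        rw [h5] at h3
        rw [h6] at h4
        rw [h3, h4, p6_kap]
        exact (angle_sph_az _ _ _).trans (le_of_eq (p6_az K a _))) (x₀ := seg 0 0) ((hseg1 0).1 0) (by
      rw [InnerProductGeometry.angle_self hne]
      simp)
  refine ⟨c, hc1, fun p hp t ht1 ht2 => ?_⟩
  rw [hc3 p hp (lt m p t) (lt_nonneg m p ht1 ht2) (lt_le m p ht1 ht2)]
  exact hseg2 p t ht1 ht2

end AstroR
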