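import Pool.Agent.Lib.H73R.P6

/-!
# The epoch curve
-/

set_option autoImplicit false

noncomputable section

open MeasureTheory Metric Set Real Filter Topology
open scoped RealInnerProductSpace NNReal ENNReal

namespace AstroR

open Astro

/-- Existence of the epoch curve.

Proof: `chain` with `n = 17`, `x₀ = e3`, `s m = Dm K E τ m`, and for `m < 16`:
`ℓ m = Np K E * Lp τ m`, `seg m` = the curve of `stage`; for `m ≥ 16`: `ℓ m = 0` and `seg m` the
constant curve `e3`. For `m < 16` one has `Dm (m + 1) - (Dm m + Np * Lp τ m) = 4` (`Dm_succ`) and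
every angle is at most `π ≤ 4`; `Dm 0 = 4`. `c (Dm 16) = e3` is the conclusion for `j = 16`,
`t = 0`. For `p < Np` and `t ∈ [cut m, π - cut m]` the time `p * Lp τ m + lt m p t` lies in
`[0, Np * Lp τ m]`, because `0 ≤ lt m p t ≤ π - 2 cut m ≤ Lp τ m` and `(p + 1) * Lp ≤ Np * Lp`. -/
theorem epoch (K E : ℕ) {τ : ℝ} (a : ℕ) (hK : 0 < K) (hτ : 2 * π * a / K ≤ τ) :
    ∃ c : ℝ → E3, Epo K E τ a c := by
  have hpi := pi_gt_three
  have hpi4 := pi_le_four
  have hτ0 : 0 ≤ τ := le_trans (by positivity) hτ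
  have hst := fun m : ℕ => stage K E a m hK hτ
  choose sc hsc1 hsc2 using hst
  obtain ⟨seg, hseg⟩ : ∃ seg : ℕ → ℝ → E3, seg = fun m => if m < 16 then sc m else fun _ => e3 := ⟨_, rfl⟩
  obtain ⟨ℓ, hℓ⟩ : ∃ ℓ : ℕ → ℝ, ℓ = fun m => if m < 16 then (Np K E : ℝ) * Lp τ m else 0 := ⟨_, rfl⟩
  have hne : e3 ≠ 0 := by
    intro h0
    have := norm_e3
    rw [h0, norm_zero] at this
    exact zero_ne_one this
  have hseg1 : ∀ j, LipU (seg j) := by
    intro j
    rw [hseg]
    by_cases hj : j < 16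
    · simp only [if_pos hj]
      exact hsc1 j
    · simp only [if_neg hj]
      refine ⟨fun _ => norm_e3, fun s t => ?_⟩
      rw [InnerProductGeometry.angle_self hne]
      exact abs_nonneg _
  have hℓ0 : ∀ j, 0 ≤ ℓ j := by
    intro j
    rw [hℓ]
    by_cases hj : j < 16
    · simp only [if_pos hj]
      have := Lp_pos hτ0 j
      have h2 : (0 : ℝ) ≤ Np K E := Nat.cast_nonneg _
      nlinarith
    · simp only [if_neg hj]
      exact le_rfl
  obtain ⟨c, hc1, hc2, hc3⟩ := chain 17 (Dm K E τ) ℓ seg hseg1 hℓ0 (fun j hj => by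
      have hj' : j < 16 := by omega
      have h1 : Dm K E τ (j + 1) - (Dm K E τ j + ℓ j) = 4 := by
        rw [hℓ, Dm_succ]
        simp only [if_pos hj']
        ring
      rw [h1]
      exact (InnerProductGeometry.angle_le_pi _ _).trans hpi4) (x₀ := e3) norm_e3 (by
      refine (InnerProductGeometry.angle_le_pi _ _).trans ?_
      unfold Dm
      simp only [Finset.range_zero, Finset.sum_empty, mul_zero, add_zero, Nat.cast_zero, zero_add, mul_one]
      exact hpi4)
  refine ⟨c, hc1, hc2, ?_, ?_⟩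
  · have h1 := hc3 16 (by omega) 0 le_rfl (hℓ0 16)
    rw [add_zero] at h1
    rw [h1, hseg]
    simp
  · intro m hm p hp t ht1 ht2
    have a1 := lt_nonneg m p ht1 ht2
    have a2 := lt_le m p ht1 ht2
    have a3 := Lp_pos hτ0 m
    have a5 : (p : ℝ) + 1 ≤ Np K E := by exact_mod_cast hp
    have a7 : π - 2 * cut m ≤ Lp τ m := by unfold Lp; linarith
    have a8 : (0 : ℝ) ≤ p := by positivity
    have h1 := hc3 m (by omega) (p * Lp τ m + lt m p t) (by positivity) (by
      rw [hℓ]
      simp only [if_pos hm]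
      nlinarith)
    unfold tm
    rw [add_assoc, h1, hseg]
    simp only [if_pos hm]
    exact hsc2 m p hp t ht1 ht2

end AstroR
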