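import Pool.Agent.Lib.H73R.P0

/-!
# An epoch followed by an arbitrary path
-/

set_option autoImplicit false

noncomputable section

open MeasureTheory Metric Set Real Filter Topology
open scoped RealInnerProductSpace NNReal ENNReal

namespace AstroR

open Astro

theorem s1_arc {ρ : ℝ} (hρ : 0 < ρ) (A : O3) {c : ℝ → E3} (hc : LipU c) (s t : ℝ) :
    gdist ρ (ρ • act A (c (s / ρ))) (ρ • act A (c (t / ρ))) ≤ |s - t| := by
  unfold gdist
  rw [InnerProductGeometry.angle_smul_left_of_pos _ _ hρ,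
    InnerProductGeometry.angle_smul_right_of_pos _ _ hρ, angle_act]
  have h1 := hc.2 (s / ρ) (t / ρ)
  rw [← sub_div, abs_div, abs_of_pos hρ, le_div_iff₀ hρ] at h1
  rw [mul_comm]
  exact h1

theorem s1_tri {ρ : ℝ} (hρ : 0 < ρ) (x y z : E3) : gdist ρ x z ≤ gdist ρ x y + gdist ρ y z := by
  unfold gdist
  rw [← mul_add]
  exact mul_le_mul_of_nonneg_left (InnerProductGeometry.angle_le_angle_add_angle x y z) hρ.le

theorem s1_comm (ρ : ℝ) (x y : E3) : gdist ρ x y = gdist ρ y x := by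
  unfold gdist
  rw [InnerProductGeometry.angle_comm]

/-- The glued position. -/
def s1_pos {ρ : ℝ} {N : E3} (A : O3) (T0 : ℝ≥0) (c : ℝ → E3) (γ : Paths ρ N) (t : ℝ≥0) : E3 :=
  if t ≤ T0 then ρ • act A (c ((t : ℝ) / ρ)) else γ.1 (t - T0)

theorem s1_end {ρ : ℝ} {N : E3} (hρ : 0 < ρ) (A : O3) (hA : act A e3 = ρ⁻¹ • N) {c : ℝ → E3} {u : ℝ}
    (hu : c u = e3) : ρ • act A (c u) = N := by
  rw [hu, hA, smul_smul, mul_inv_cancel₀ hρ.ne', one_smul]

theorem s1_cont {ρ : ℝ} {N : E3} (hρ : 0 < ρ) (A : O3) (hA : act A e3 = ρ⁻¹ • N) {T : ℝ} (T0 : ℝ≥0)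
    (hT0 : (T0 : ℝ) = ρ * T) {c : ℝ → E3} (hc : LipU c) (hcT : c T = e3) :
    Continuous (fun p : Paths ρ N × ℝ≥0 => s1_pos A T0 c p.1 p.2) := by
  unfold s1_pos
  refine Continuous.if_le ?_ ?_ continuous_snd continuous_const ?_
  · have h1 : Continuous (fun p : Paths ρ N × ℝ≥0 => ((p.2 : ℝ≥0) : ℝ) / ρ) := by fun_prop
    exact ((continuous_act_right A).comp (hc.continuous.comp h1)).const_smul ρ
  · have h1 : Continuous (fun p : Paths ρ N × ℝ≥0 => (p.1, p.2 - T0)) :=
      continuous_fst.prodMk (continuous_snd.sub continuous_const)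
    exact (Astro.continuous_pos ρ N).comp h1
  · intro p hp
    rw [hp]
    have h1 : (T0 : ℝ) / ρ = T := by
      rw [hT0]
      field_simp
    rw [h1, s1_end hρ A hA hcT, tsub_self]
    exact p.1.2.1.symm

theorem s1_lip_le {ρ : ℝ} {N : E3} (hρ : 0 < ρ) (A : O3) (hA : act A e3 = ρ⁻¹ • N) {T : ℝ} (T0 : ℝ≥0)
    (hT0 : (T0 : ℝ) = ρ * T) {c : ℝ → E3} (hc : LipU c) (hcT : c T = e3) (γ : Paths ρ N) {s t : ℝ≥0}
    (hst : s ≤ t) : gdist ρ (s1_pos A T0 c γ s) (s1_pos A T0 c γ t) ≤ dist s t := by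
  have hstr : (s : ℝ) ≤ t := by exact_mod_cast hst
  unfold s1_pos
  by_cases ht : t ≤ T0
  · rw [if_pos ht, if_pos (hst.trans ht), NNReal.dist_eq]
    exact s1_arc hρ A hc s t
  · have ht' : T0 < t := not_le.1 ht
    have htr : (T0 : ℝ) < t := by exact_mod_cast ht'
    by_cases hs : s ≤ T0
    · rw [if_pos hs, if_neg ht]
      have hsr : (s : ℝ) ≤ T0 := by exact_mod_cast hs
      have h0 : (T0 : ℝ) / ρ = T := by
        rw [hT0]
        field_simp
      have h1 : gdist ρ (ρ • act A (c ((s : ℝ) / ρ))) N ≤ |(s : ℝ) - T0| := by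
        have h2 := s1_arc hρ A hc (s : ℝ) (T0 : ℝ)
        rw [h0, s1_end hρ A hA hcT] at h2
        exact h2
      have h3 : gdist ρ N (γ.1 (t - T0)) ≤ (t : ℝ) - T0 := by
        have h4 := γ.2.2.2 0 (t - T0)
        rw [γ.2.1, NNReal.dist_eq, NNReal.coe_sub ht'.le, NNReal.coe_zero, zero_sub, abs_neg,
          abs_of_nonneg (by linarith)] at h4
        exact h4
      refine (s1_tri hρ _ N _).trans ?_
      rw [NNReal.dist_eq, abs_of_nonpos (by linarith : (s : ℝ) - t ≤ 0)]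
      rw [abs_of_nonpos (by linarith : (s : ℝ) - T0 ≤ 0)] at h1
      linarith
    · have hs' : T0 < s := not_le.1 hs
      rw [if_neg hs, if_neg ht]
      refine (γ.2.2.2 (s - T0) (t - T0)).trans ?_
      rw [NNReal.dist_eq, NNReal.dist_eq, NNReal.coe_sub hs'.le, NNReal.coe_sub ht'.le]
      rw [sub_sub_sub_cancel_right]

/-- For an epoch curve `c` from pole to pole of duration `T` there is a continuous map `Φ` on the
space of paths: `Φ γ` follows `ρ • act A (c (t / ρ))` until the time `ρ T` and then `γ`.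

Proof. Let `T₀ = (ρ * T).toNNReal` and
`pos γ t = if t ≤ T₀ then ρ • act A (c (t / ρ)) else γ.1 (t - T₀)` (`t : ℝ≥0`, truncated
subtraction). At `t = T₀` both formulas give `N`: `ρ • act A e3 = N` (`hA`) and `γ.1 0 = N`. The
function `(γ, t) ↦ pos γ t` is jointly continuous (`Continuous.if_le`; `LipU.continuous`,
`continuous_act_right`, `Astro.continuous_pos ρ N` composed with `(γ, t) ↦ (γ, t - T₀)`), so every
`pos γ` is continuous and `Φ` is continuous (as in `Astro.continuous_mkPath`: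
`Continuous.subtype_mk`, `ContinuousMap.continuous_of_continuous_uncurry`).
`pos γ 0 = N` (`c 0 = e3`); `‖pos γ t‖ = ρ` (`norm_smul`, `norm_act`, `hc.1`, `γ.2.2.1`). Lipschitz
condition: for `s, t ≤ T₀` as in `Astro.gdist_pos`
(`InnerProductGeometry.angle_smul_left_of_pos`, `angle_smul_right_of_pos`, `angle_act`, `hc.2`); for
`s, t > T₀` from `γ.2.2.2`; for `s ≤ T₀ < t` by the triangle inequality
(`InnerProductGeometry.angle_le_angle_add_angle`) through the point `N` (the value at `T₀`):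
`gdist ≤ (T₀ - s) + (t - T₀)`; symmetric case by `InnerProductGeometry.angle_comm`.
The two stated properties: `(ρ * u).toNNReal ≤ T₀` and `(ρ u) / ρ = u`; and for `t + T₀`: if `t = 0`
both sides are `N`, else `t + T₀ > T₀` and `t + T₀ - T₀ = t`. -/
theorem glue_path {ρ : ℝ} {N : E3} (hρ : 0 < ρ) (A : O3) (hA : act A e3 = ρ⁻¹ • N) {T : ℝ}
    (hT : 0 ≤ T) {c : ℝ → E3} (hc : LipU c) (hc0 : c 0 = e3) (hcT : c T = e3) :
    ∃ Φ : Paths ρ N → Paths ρ N, Continuous Φ ∧ ∀ γ : Paths ρ N,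
      (∀ u : ℝ, 0 ≤ u → u ≤ T → (Φ γ).1 (ρ * u).toNNReal = ρ • act A (c u)) ∧
      (∀ t : ℝ≥0, (Φ γ).1 (t + (ρ * T).toNNReal) = γ.1 t) := by
  have hT0 : (((ρ * T).toNNReal : ℝ≥0) : ℝ) = ρ * T := Real.coe_toNNReal _ (by positivity)
  have hj := s1_cont (N := N) hρ A hA _ hT0 hc hcT
  have hcγ : ∀ γ : Paths ρ N, Continuous (s1_pos A (ρ * T).toNNReal c γ) := by
    intro γ
    have h1 : Continuous (fun t : ℝ≥0 => (γ, t)) := by fun_prop
    have h2 := Continuous.comp hj h1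
    refine h2.congr (fun t => ?_)
    rfl
  have h0 : ∀ γ : Paths ρ N, s1_pos A (ρ * T).toNNReal c γ 0 = N := by
    intro γ
    unfold s1_pos
    rw [if_pos zero_le, NNReal.coe_zero, zero_div]
    exact s1_end hρ A hA hc0
  have hn : ∀ (γ : Paths ρ N) (t : ℝ≥0), ‖s1_pos A (ρ * T).toNNReal c γ t‖ = ρ := by
    intro γ t
    unfold s1_pos
    split_ifs
    · rw [norm_smul, norm_act, hc.1, mul_one, Real.norm_of_nonneg hρ.le]
    · exact γ.2.2.1 _
  have hl : ∀ (γ : Paths ρ N) (s t : ℝ≥0),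
      gdist ρ (s1_pos A (ρ * T).toNNReal c γ s) (s1_pos A (ρ * T).toNNReal c γ t) ≤ dist s t := by
    intro γ s t
    rcases le_total s t with h | h
    · exact s1_lip_le hρ A hA _ hT0 hc hcT γ h
    · rw [s1_comm, dist_comm]
      exact s1_lip_le hρ A hA _ hT0 hc hcT γ h
  refine ⟨fun γ => ⟨⟨s1_pos A (ρ * T).toNNReal c γ, hcγ γ⟩, h0 γ, hn γ, hl γ⟩, ?_, ?_⟩
  · apply Continuous.subtype_mk
    apply ContinuousMap.continuous_of_continuous_uncurry
    exact hj
  · intro γ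
    refine ⟨fun u hu0 huT => ?_, fun t => ?_⟩
    · show s1_pos A (ρ * T).toNNReal c γ (ρ * u).toNNReal = ρ • act A (c u)
      unfold s1_pos
      have h1 : (ρ * u).toNNReal ≤ (ρ * T).toNNReal :=
        Real.toNNReal_le_toNNReal (mul_le_mul_of_nonneg_left huT hρ.le)
      rw [if_pos h1, Real.coe_toNNReal _ (by positivity)]
      have h2 : ρ * u / ρ = u := by field_simp
      rw [h2]
    · show s1_pos A (ρ * T).toNNReal c γ (t + (ρ * T).toNNReal) = γ.1 t
      by_cases ht : t = 0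
      · unfold s1_pos
        rw [ht, zero_add, if_pos le_rfl, hT0]
        have h2 : ρ * T / ρ = T := by field_simp
        rw [h2, s1_end hρ A hA hcT]
        exact γ.2.1.symm
      · unfold s1_pos
        have h1 : ¬ t + (ρ * T).toNNReal ≤ (ρ * T).toNNReal := by
          rw [not_le]
          exact lt_add_of_pos_left _ (pos_iff_ne_zero.2 ht)
        rw [if_neg h1, add_tsub_cancel_right]

end AstroR
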