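import Pool.Agent.Lib.H73R.P8

/-!
# Numerics
-/

set_option autoImplicit false

noncomputable section

open MeasureTheory Metric Set Real Filter Topology
open scoped RealInnerProductSpace NNReal ENNReal

namespace AstroR

open Astro

theorem s9_g1 : gaps 1 = [(0, 16)] := by decide

theorem s9_u1 : Um 1 = 225 / 256 := by
  rw [Um, if_neg (by norm_num), s9_g1]
  norm_num

theorem s9_g2 : gaps 2 = [(0, 8), (8, 8)] := by decide

theorem s9_u2 : Um 2 = 49 / 64 := by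
  rw [Um, if_neg (by norm_num), s9_g2]
  norm_num

theorem s9_g3 : gaps 3 = [(0, 4), (4, 4), (8, 8)] := by decide

theorem s9_u3 : Um 3 = 85 / 128 := by
  rw [Um, if_neg (by norm_num), s9_g3]
  norm_num

theorem s9_g4 : gaps 4 = [(0, 4), (4, 4), (8, 4), (12, 4)] := by decide

theorem s9_u4 : Um 4 = 9 / 16 := by
  rw [Um, if_neg (by norm_num), s9_g4]
  norm_num

theorem s9_g5 : gaps 5 = [(0, 2), (2, 2), (4, 4), (8, 4), (12, 4)] := by decide

theorem s9_u5 : Um 5 = 31 / 64 := by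
  rw [Um, if_neg (by norm_num), s9_g5]
  norm_num

theorem s9_g6 : gaps 6 = [(0, 2), (2, 2), (4, 4), (8, 2), (10, 2), (12, 4)] := by decide

theorem s9_u6 : Um 6 = 13 / 32 := by
  rw [Um, if_neg (by norm_num), s9_g6]
  norm_num

theorem s9_g7 : gaps 7 = [(0, 2), (2, 2), (4, 2), (6, 2), (8, 2), (10, 2), (12, 4)] := by decide

theorem s9_u7 : Um 7 = 21 / 64 := by
  rw [Um, if_neg (by norm_num), s9_g7]
  norm_num

theorem s9_g8 : gaps 8 = [(0, 2), (2, 2), (4, 2), (6, 2), (8, 2), (10, 2), (12, 2), (14, 2)] := by decide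

theorem s9_u8 : Um 8 = 1 / 4 := by
  rw [Um, if_neg (by norm_num), s9_g8]
  norm_num

theorem s9_g9 : gaps 9 = [(0, 1), (1, 1), (2, 2), (4, 2), (6, 2), (8, 2), (10, 2), (12, 2), (14, 2)] := by decide

theorem s9_u9 : Um 9 = 7 / 32 := by
  rw [Um, if_neg (by norm_num), s9_g9]
  norm_num

theorem s9_g10 : gaps 10 = [(0, 1), (1, 1), (2, 2), (4, 2), (6, 2), (8, 1), (9, 1), (10, 2), (12, 2), (14, 2)] := by decide

theorem s9_u10 : Um 10 = 3 / 16 := by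
  rw [Um, if_neg (by norm_num), s9_g10]
  norm_num

theorem s9_g11 : gaps 11 = [(0, 1), (1, 1), (2, 2), (4, 1), (5, 1), (6, 2), (8, 1), (9, 1), (10, 2), (12, 2), (14, 2)] := by decide

theorem s9_u11 : Um 11 = 5 / 32 := by
  rw [Um, if_neg (by norm_num), s9_g11]
  norm_num

theorem s9_g12 : gaps 12 = [(0, 1), (1, 1), (2, 2), (4, 1), (5, 1), (6, 2), (8, 1), (9, 1), (10, 2), (12, 1), (13, 1), (14, 2)] := by decide

theorem s9_u12 : Um 12 = 1 / 8 := by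
  rw [Um, if_neg (by norm_num), s9_g12]
  norm_num

theorem s9_g13 : gaps 13 = [(0, 1), (1, 1), (2, 1), (3, 1), (4, 1), (5, 1), (6, 2), (8, 1), (9, 1), (10, 2), (12, 1), (13, 1), (14, 2)] := by decide

theorem s9_u13 : Um 13 = 3 / 32 := by
  rw [Um, if_neg (by norm_num), s9_g13]
  norm_num

theorem s9_g14 : gaps 14 = [(0, 1), (1, 1), (2, 1), (3, 1), (4, 1), (5, 1), (6, 2), (8, 1), (9, 1), (10, 1), (11, 1), (12, 1), (13, 1), (14, 2)] := by decide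

theorem s9_u14 : Um 14 = 1 / 16 := by
  rw [Um, if_neg (by norm_num), s9_g14]
  norm_num

theorem s9_g15 : gaps 15 = [(0, 1), (1, 1), (2, 1), (3, 1), (4, 1), (5, 1), (6, 1), (7, 1), (8, 1), (9, 1), (10, 1), (11, 1), (12, 1), (13, 1), (14, 2)] := by decide

theorem s9_u15 : Um 15 = 1 / 32 := by
  rw [Um, if_neg (by norm_num), s9_g15]
  norm_num

/-- The values of `Um` (`simp [Um, gaps, ...]`/`norm_num`; the list `gaps m` can be computed with
`decide`: `gaps 5 = [(0, 2), (2, 2), (4, 4), (8, 4), (12, 4)]` etc. `by decide`). -/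
theorem Um_vals : Um 0 = 1 ∧ Um 1 = 225 / 256 ∧ Um 2 = 49 / 64 ∧ Um 3 = 85 / 128 ∧ Um 4 = 9 / 16 ∧
    Um 5 = 31 / 64 ∧ Um 6 = 13 / 32 ∧ Um 7 = 21 / 64 ∧ Um 8 = 1 / 4 ∧ Um 9 = 7 / 32 ∧
    Um 10 = 3 / 16 ∧ Um 11 = 5 / 32 ∧ Um 12 = 1 / 8 ∧ Um 13 = 3 / 32 ∧ Um 14 = 1 / 16 ∧
    Um 15 = 1 / 32 := by
  refine ⟨by simp [Um], s9_u1, s9_u2, s9_u3, s9_u4, s9_u5, s9_u6, s9_u7, s9_u8, s9_u9, s9_u10, s9_u11, s9_u12, s9_u13, s9_u14, s9_u15⟩

/-- Proof: `dV 0 = 4 + L₀ (K / 32 + 2 E + 2)` and, for `m ≥ 1`,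
`dV m = Np L_{m-1} + 4 + (L_m - L_{m-1}) (K / 32 + 2 E + 2)` with `Np ≤ K / 16 + 2 E + 1`
(`Nat.cast_div_le`), which is at most `(K / 32) (L_{m-1} + L_m) + (2 E + 2) L_m + 4`. Here
`L_m = π - 2 cut m + τ`. -/
theorem dV_le (K E : ℕ) {τ : ℝ} (hτ : 0 ≤ τ) (m : ℕ) :
    dV K E τ m ≤ (K : ℝ) / 32 * ((if m = 0 then 0 else Lp τ (m - 1)) + Lp τ m) +
      (2 * E + 2) * (π + τ) + 4 := by
  have hE : (0 : ℝ) ≤ E := Nat.cast_nonneg E
  have hK : (0 : ℝ) ≤ K := Nat.cast_nonneg K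
  have hL := Lp_le (τ := τ) m
  have h1 : (2 * (E : ℝ) + 2) * Lp τ m ≤ (2 * (E : ℝ) + 2) * (π + τ) := mul_le_mul_of_nonneg_left hL (by linarith)
  by_cases h : m = 0
  · subst h
    have hV : dV K E τ 0 = 4 + Lp τ 0 * ((K : ℝ) / 32 + 2 * E + 2) := by
      simp [dV, Vm, Dm]
    rw [hV, if_pos rfl]
    nlinarith
  · obtain ⟨k, rfl⟩ : ∃ k, m = k + 1 := ⟨m - 1, by omega⟩
    rw [if_neg h, Nat.add_sub_cancel]
    have hV : dV K E τ (k + 1) = (Np K E : ℝ) * Lp τ k + 4 + (Lp τ (k + 1) - Lp τ k) * ((K : ℝ) / 32 + 2 * E + 2) := by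
      rw [dV, if_neg h, Nat.add_sub_cancel, Vm, Vm, Dm_succ]
      ring
    have hN : (Np K E : ℝ) ≤ (K : ℝ) / 16 + 2 * E + 1 := by
      unfold Np
      push_cast
      have := @Nat.cast_div_le ℝ _ _ _ K 16
      push_cast at this
      linarith
    have hk := Lp_pos hτ k
    have h2 : (Np K E : ℝ) * Lp τ k ≤ ((K : ℝ) / 16 + 2 * E + 1) * Lp τ k := mul_le_mul_of_nonneg_right hN (by linarith)
    rw [hV]
    nlinarith

/-- Proof: expand the sum over `range 16` (`Finset.sum_range_succ`), use `dV_le`, `Um_vals` and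
`L_m = π + τ - 2 cut m`:
`∑ dV m * Um m ≤ (K / 32) S + (∑ Um m) ((2 E + 2) (π + τ) + 4)`, where `∑ Um m ≤ 16` and
`S = L_0 U_0 + ∑_{m=1}^{15} (L_{m-1} + L_m) U_m = 11.4296875 (π + τ) - 4.49462890625` exactly (this
is `2 * 5.71484375 (π + τ) - 2 * 2.247314453125`). Since `π < 3.1416` (`Real.pi_lt_d4`),
`11.4296875 π - 4.49462890625 ≤ 10 π - 0.003`. So `S ≤ 10 π - 0.003 + 16 τ` and
`Phi = (1 / K) (K / 16 + 1) 16 ∑ dV m Um m ≤ (1 + 16 / K) ((K / 32) (10 π - 0.003 + 16 τ) + 16 (..))`. -/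
theorem Phi_le {K : ℕ} (E : ℕ) {τ : ℝ} (hK : 64 ≤ K) (hτ : 0 ≤ τ) :
    Phi K E τ ≤ (1 + 16 / (K : ℝ)) * ((K : ℝ) * (5 * π / 16 - 9 / 100000) + K / 2 * τ +
      16 * ((2 * E + 2) * (π + τ) + 4)) := by
  obtain ⟨u0, u1, u2, u3, u4, u5, u6, u7, u8, u9, u10, u11, u12, u13, u14, u15⟩ := Um_vals
  have hK' : (64 : ℝ) ≤ K := by exact_mod_cast hK
  have hK0 : (0 : ℝ) < K := by linarith
  have hE : (0 : ℝ) ≤ E := Nat.cast_nonneg E
  have hpi := Real.pi_pos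
  have hA : 0 ≤ (2 * (E : ℝ) + 2) * (π + τ) + 4 := by positivity
  have e : Phi K E τ = (1 + 16 / (K : ℝ)) * ∑ m ∈ Finset.range 16, dV K E τ m * Um m := by
    rw [Phi]
    have : ∑ m ∈ Finset.range 16, dV K E τ m * (16 * Um m) = 16 * ∑ m ∈ Finset.range 16, dV K E τ m * Um m := by
      rw [Finset.mul_sum]
      exact Finset.sum_congr rfl fun m _ => by ring
    rw [this]
    field_simp
  rw [e]
  refine mul_le_mul_of_nonneg_left ?_ (by positivity)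
  set A := (2 * (E : ℝ) + 2) * (π + τ) + 4 with hAdef
  have hb : ∀ m, 0 ≤ Um m → dV K E τ m * Um m ≤ ((K : ℝ) / 32 * ((if m = 0 then 0 else Lp τ (m - 1)) + Lp τ m) + A) * Um m := by
    intro m hm
    refine mul_le_mul_of_nonneg_right ?_ hm
    have := dV_le K E hτ m
    rw [hAdef]
    linarith
  simp only [Finset.sum_range_succ, Finset.sum_range_zero, zero_add]
  have b0 := hb 0 (by rw [u0]; norm_num)
  have b1 := hb 1 (by rw [u1]; norm_num)
  have b2 := hb 2 (by rw [u2]; norm_num)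
  have b3 := hb 3 (by rw [u3]; norm_num)
  have b4 := hb 4 (by rw [u4]; norm_num)
  have b5 := hb 5 (by rw [u5]; norm_num)
  have b6 := hb 6 (by rw [u6]; norm_num)
  have b7 := hb 7 (by rw [u7]; norm_num)
  have b8 := hb 8 (by rw [u8]; norm_num)
  have b9 := hb 9 (by rw [u9]; norm_num)
  have b10 := hb 10 (by rw [u10]; norm_num)
  have b11 := hb 11 (by rw [u11]; norm_num)
  have b12 := hb 12 (by rw [u12]; norm_num)
  have b13 := hb 13 (by rw [u13]; norm_num)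
  have b14 := hb 14 (by rw [u14]; norm_num)
  have b15 := hb 15 (by rw [u15]; norm_num)
  have l0 : Lp τ 0 = π + τ := by simp [Lp, cut]
  have l1 : Lp τ 1 = π + τ - 1 / 8 := by simp [Lp, cut]; ring
  have l2 : Lp τ 2 = π + τ - 1 / 4 := by simp [Lp, cut]; ring
  have l3 : Lp τ 3 = π + τ - 1 / 4 := by simp [Lp, cut]; ring
  have l4 : Lp τ 4 = π + τ - 1 / 2 := by simp [Lp, cut]; ring
  have l5 : Lp τ 5 = π + τ - 1 / 2 := by simp [Lp, cut]; ring
  have l6 : Lp τ 6 = π + τ - 1 / 2 := by simp [Lp, cut]; ring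
  have l7 : Lp τ 7 = π + τ - 1 / 2 := by simp [Lp, cut]; ring
  have l8 : Lp τ 8 = π + τ - 1 := by simp [Lp, cut]; ring
  have l9 : Lp τ 9 = π + τ - 1 := by simp [Lp, cut]; ring
  have l10 : Lp τ 10 = π + τ - 1 := by simp [Lp, cut]; ring
  have l11 : Lp τ 11 = π + τ - 1 := by simp [Lp, cut]; ring
  have l12 : Lp τ 12 = π + τ - 1 := by simp [Lp, cut]; ring
  have l13 : Lp τ 13 = π + τ - 1 := by simp [Lp, cut]; ring
  have l14 : Lp τ 14 = π + τ - 1 := by simp [Lp, cut]; ring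
  have l15 : Lp τ 15 = π + τ - 1 := by simp [Lp, cut]; ring
  norm_num [u0, l0] at b0
  norm_num [u1, l0, l1] at b1
  norm_num [u2, l1, l2] at b2
  norm_num [u3, l2, l3] at b3
  norm_num [u4, l3, l4] at b4
  norm_num [u5, l4, l5] at b5
  norm_num [u6, l5, l6] at b6
  norm_num [u7, l6, l7] at b7
  norm_num [u8, l7, l8] at b8
  norm_num [u9, l8, l9] at b9
  norm_num [u10, l9, l10] at b10
  norm_num [u11, l10, l11] at b11
  norm_num [u12, l11, l12] at b12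
  norm_num [u13, l12, l13] at b13
  norm_num [u14, l13, l14] at b14
  norm_num [u15, l14, l15] at b15
  rw [u0, u1, u2, u3, u4, u5, u6, u7, u8, u9, u10, u11, u12, u13, u14, u15]
  have hp4 := Real.pi_lt_d4
  have hKp : (K : ℝ) * π ≤ (K : ℝ) * 3.1416 := mul_le_mul_of_nonneg_left hp4.le hK0.le
  have hKt : 0 ≤ (K : ℝ) * τ := mul_nonneg hK0.le hτ
  nlinarith

/-- Proof. With `E ≤ 9 K / 10 ^ 8 + 3`, `τ ≤ B / K`, `π < 4`, `τ ≤ 1` for `K ≥ B`:
`16 ((2 E + 2) (π + τ) + 4) ≤ 16 ((18 K / 10 ^ 8 + 8) 5 + 4) ≤ K / 50000 + 704 ..` (`16 * 18 * 5 / 10 ^ 8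
= 1440 / 10 ^ 8 < 1 / 50000`), `(K / 2) τ ≤ B / 2`. So the bracket in `Phi_le` is at most
`K (5 π / 16 - 7 / 100000) + B / 2 + 704`, and multiplying by `1 + 16 / K` adds at most
`16 (5 π / 16) + ...`, a constant. For `K` large (compared with `B`) everything is at most
`K (5 π / 16 - 5 / 100000)`.
`Dm 16 = 68 + Np * ∑ L_j ≤ 68 + (K / 16 + 2 E + 1) * 16 * (π + τ)`, and `16 (π + τ) ≤ 51` for small
`τ`: at most `K (51 / 16 + 51 * 18 / 10 ^ 8) + const ≤ 4 K` for large `K`. -/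
theorem Phi_asymp (B : ℝ) (hB : 0 ≤ B) : ∃ K₁ : ℕ, 64 ≤ K₁ ∧ ∀ (K E : ℕ) (τ : ℝ), K₁ ≤ K → 0 ≤ τ →
    τ ≤ B / K → (E : ℝ) ≤ 9 / 10 ^ 8 * K + 3 →
      Phi K E τ ≤ K * (5 * π / 16 - 5 / 100000) ∧ Dm K E τ 16 ≤ 4 * K := by
  refine ⟨max 64 ⌈50000 * (B + 1424)⌉₊, le_max_left _ _, ?_⟩
  intro K E τ hK hτ hτB hE
  have hK64 : 64 ≤ K := (le_max_left _ _).trans hK
  have hKB : 50000 * (B + 1424) ≤ (K : ℝ) := (Nat.le_ceil _).trans (by exact_mod_cast (le_max_right _ _).trans hK)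
  have hK' : (64 : ℝ) ≤ K := by exact_mod_cast hK64
  have hK0 : (0 : ℝ) < K := by linarith
  have hE0 : (0 : ℝ) ≤ E := Nat.cast_nonneg E
  have hp4 := Real.pi_lt_d4
  have hp0 := Real.pi_pos
  have hτK : (K : ℝ) * τ ≤ B := by
    rw [le_div_iff₀ hK0] at hτB
    linarith
  have hτ1 : τ ≤ 1 / 50000 := by
    refine hτB.trans ?_
    rw [div_le_iff₀ hK0]
    linarith
  have h1 := Phi_le E hK64 hτ
  constructor
  · refine h1.trans ?_
    have h2 : (2 * (E : ℝ) + 2) * (π + τ) ≤ (18 * (K : ℝ) / 10 ^ 8 + 8) * 5 := by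
      refine mul_le_mul (by linarith) (by linarith) (by linarith) (by positivity)
    have h3 : (K : ℝ) * (5 * π / 16 - 9 / 100000) + K / 2 * τ + 16 * ((2 * E + 2) * (π + τ) + 4) ≤
        K * (5 * π / 16 - 7 / 100000) + (B / 2 + 704) := by
      have h4 : (K : ℝ) / 2 * τ ≤ B / 2 := by linarith
      norm_num at h2 ⊢
      linarith
    refine (mul_le_mul_of_nonneg_left h3 (by positivity)).trans ?_
    have h5 : 16 / (K : ℝ) ≤ 1 := by
      rw [div_le_one hK0]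
      linarith
    have h6 : 16 / (K : ℝ) * (B / 2 + 704) ≤ B / 2 + 704 := mul_le_of_le_one_left (by linarith) h5
    have h7 : 16 / (K : ℝ) * (K * (5 * π / 16 - 7 / 100000)) = 16 * (5 * π / 16 - 7 / 100000) := by
      field_simp
    have e : (1 + 16 / (K : ℝ)) * (K * (5 * π / 16 - 7 / 100000) + (B / 2 + 704)) =
        K * (5 * π / 16 - 7 / 100000) + (B / 2 + 704) + 16 / (K : ℝ) * (K * (5 * π / 16 - 7 / 100000)) +
        16 / (K : ℝ) * (B / 2 + 704) := by ring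
    rw [e, h7]
    linarith
  · have hN : (Np K E : ℝ) ≤ (K : ℝ) / 16 + 2 * E + 1 := by
      unfold Np
      push_cast
      have := @Nat.cast_div_le ℝ _ _ _ K 16
      push_cast at this
      linarith
    have hS : ∑ j ∈ Finset.range 16, Lp τ j ≤ 16 * (π + τ) := by
      refine (Finset.sum_le_card_nsmul _ _ (π + τ) fun j _ => Lp_le j).trans ?_
      rw [Finset.card_range, nsmul_eq_mul]
      norm_num
    have hS0 : 0 ≤ ∑ j ∈ Finset.range 16, Lp τ j := Finset.sum_nonneg fun j _ => by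
      have := Lp_pos hτ j
      linarith
    have h2 : (Np K E : ℝ) * ∑ j ∈ Finset.range 16, Lp τ j ≤ (7 + (K : ℝ) / 16 + 18 * K / 10 ^ 8) * 51 := by
      refine mul_le_mul (by linarith) (by linarith) hS0 (by positivity)
    unfold Dm
    norm_num at h2 ⊢
    linarith

end AstroR
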