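import Pool.Agent.Lib.H73R.S8
import Pool.Agent.Lib.H73R.S9
import Pool.Agent.Lib.H73R.N3
import Pool.Agent.Lib.H73R.G2

/-!
# The upper bound `5 π² / 16`
-/

set_option autoImplicit false

noncomputable section

open MeasureTheory Metric Set Real Filter Topology
open scoped RealInnerProductSpace NNReal ENNReal

namespace AstroR

open Astro

/-- The fallback strategy: from `Astro.upper_asymp` with `ε = 1 / 2`: `π ^ 2 / 2 + 1 / 2 < 6`
(`Real.pi_lt_d2`), and `value` is an infimum over probability measures (`iInf_lt_iff`). -/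
theorem fallback : ∃ δ : ℝ, 0 < δ ∧ ∀ (ρ r : ℝ) (N : E3), 0 < ρ → ‖N‖ = ρ → 0 < r → r < δ * ρ →
    ∃ μ₀ : ProbabilityMeasure (Paths ρ N),
      expMeet r (μ₀ : Measure (Paths ρ N)) ≤ ENNReal.ofReal (6 * ρ ^ 2 / r) := by
  have hpi := pi_pos
  obtain ⟨δ, hδ, H⟩ := upper_asymp (ε := 1 / 2) (by norm_num)
  refine ⟨δ, hδ, fun ρ r N hρ hN hr0 hr => ?_⟩
  have h1 := H ρ r N hρ hN hr0 hr
  have h2 : value ρ r N < ENNReal.ofReal (6 * ρ ^ 2 / r) := by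
    refine h1.trans_lt ?_
    rw [ENNReal.ofReal_lt_ofReal_iff (by positivity)]
    apply div_lt_div_of_pos_right _ hr0
    apply mul_lt_mul_of_pos_right _ (by positivity)
    have := pi_lt_d2
    nlinarith
  unfold value at h2
  obtain ⟨μ, hμ⟩ := iInf_lt_iff.mp h2
  exact ⟨μ, hμ.le⟩

/-- The upper bound.

Proof. Fix `M = 10 ^ 6`, `η = 10 ^ (-8)`, `e = 10 ^ (-6)`. `moduli M hη` gives `a`, `Λ`, `K₀`. Let
`B = 2 π max a` (so `2 π a_i ≤ B`), `K₁` from `Phi_asymp B`, `r₀` from `window` for `e`, `δ₀` from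
`fallback`. For `r < δ ρ` with `δ` small let `x = (1 + e) π ρ / r` (large) and let `K` be a number
with `K ≡ K₀` modulo `Λ`, `x ≤ K ≤ x + Λ + 1`, `K ≥ K₀, K₁` (`K = K₀ + Λ * ⌈(x - K₀) / Λ⌉₊`), and
`K ≤ (1 + 2 e) π ρ / r` for small `δ`. Let `τ = B / K`, `E = ⌈9 η K⌉₊ + 1 ≤ 9 η K + 3`; `moduli`
gives `|R - K / 16| ≤ η K`, so `9 |R - K / 16| + 1 ≤ E`. `window` is applied with `r / ρ` in the place
of `r`: `(1 + e) π / (r / ρ) ≤ K` and `sin ((r / ρ) / 2) = sin (r / (2 ρ))`. By `value_le` and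
`Phi_asymp`, `fallback`:
`value ≤ 10 ^ (-6) (4 K ρ + 6 ρ ^ 2 / r) + ρ K (5 π / 16 - 5 / 10 ^ 5)`, with `K ρ ≤
(1 + 2 e) π ρ ^ 2 / r`. So it suffices that
`10 ^ (-6) (4 (1 + 2 e) π + 6) + (1 + 2 e) π (5 π / 16 - 5 / 10 ^ 5) ≤ 5 π ^ 2 / 16`, i.e.
(with `3.14 < π < 3.15`) `10 ^ (-6) * 19 + 2 e * 5 * 10 / 16 ≤ 5 * 3.14 / 10 ^ 5`: true
(`19 + 6.25 < 157` in units of `10 ^ (-6)`). -/
theorem upper : ∃ δ : ℝ, 0 < δ ∧ ∀ (ρ r : ℝ) (N : E3), 0 < ρ → ‖N‖ = ρ → 0 < r → r < δ * ρ →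
    value ρ r N ≤ ENNReal.ofReal (5 * π ^ 2 / 16 * ρ ^ 2 / r) := by
  have hpi := pi_pos
  obtain ⟨a, Λ, K₀, hΛ, hmod⟩ := moduli 1000000 (η := 1 / 10 ^ 8) (by norm_num)
  obtain ⟨B, hB0, hB⟩ : ∃ B : ℝ, 0 ≤ B ∧ ∀ i, 2 * π * (a i : ℝ) ≤ B := by
    refine ⟨∑ i, 2 * π * (a i : ℝ), Finset.sum_nonneg (fun i _ => by positivity), fun i => ?_⟩
    exact Finset.single_le_sum (f := fun i => 2 * π * (a i : ℝ)) (fun i _ => by positivity)
      (Finset.mem_univ i)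
  obtain ⟨K₁, hK₁, hPhi⟩ := Phi_asymp B hB0
  obtain ⟨r₀, hr₀, hwin⟩ := window (e := 1 / 10 ^ 6) (by norm_num) (by norm_num)
  obtain ⟨δ₀, hδ₀, hfall⟩ := fallback
  set C : ℝ := (K₀ : ℝ) + K₁ + Λ + 1 with hC
  have hC1 : 1 ≤ C := by
    have h1 : (0 : ℝ) ≤ K₀ := by positivity
    have h2 : (0 : ℝ) ≤ K₁ := by positivity
    have h3 : (0 : ℝ) ≤ Λ := by positivity
    rw [hC]; linarith
  have hC0 : 0 < C := by linarith
  refine ⟨min (min r₀ δ₀) (1 / (10 ^ 6 * C)), by positivity, fun ρ r N hρ hN hr0 hr => ?_⟩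
  have hr' : r / ρ < min (min r₀ δ₀) (1 / (10 ^ 6 * C)) := by
    rw [div_lt_iff₀ hρ]; exact hr
  have hrp : 0 < r / ρ := by positivity
  have h1 : r / ρ < r₀ := hr'.trans_le ((min_le_left _ _).trans (min_le_left _ _))
  have h2 : r / ρ < δ₀ := hr'.trans_le ((min_le_left _ _).trans (min_le_right _ _))
  have h3 : r / ρ < 1 / (10 ^ 6 * C) := hr'.trans_le (min_le_right _ _)
  have h2' : r < δ₀ * ρ := by rwa [div_lt_iff₀ hρ] at h2
  obtain ⟨μ₀, hμ₀⟩ := hfall ρ r N hρ hN hr0 h2'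
  -- the number `Y = ρ / r` is large
  set Y : ℝ := ρ / r with hY
  have hYpos : 0 < Y := by positivity
  have hYbig : 10 ^ 6 * C < Y := by
    rw [lt_div_iff₀ (by positivity)] at h3
    rw [hY, lt_div_iff₀ hr0]
    rw [div_mul_eq_mul_div, div_lt_one hρ] at h3
    linarith
  have hx : (1 + 1 / 10 ^ 6) * π / (r / ρ) = (1 + 1 / 10 ^ 6) * π * Y := by
    rw [hY]; field_simp
  set x : ℝ := (1 + 1 / 10 ^ 6) * π * Y with hxdef
  have hpi3 := pi_gt_d2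
  have hpi4 := pi_lt_d2
  have hΛ' : (0 : ℝ) < Λ := by exact_mod_cast hΛ
  have hxC : C ≤ x := by
    have : C ≤ Y := by nlinarith
    have h5 : Y ≤ x := by
      rw [hxdef]
      nlinarith
    linarith
  have hK₀x : (K₀ : ℝ) ≤ x := by
    have h4 : (0 : ℝ) ≤ K₁ := by positivity
    linarith
  obtain ⟨K, hKmod, hKx, hKx'⟩ : ∃ K : ℕ, K ≡ K₀ [MOD Λ] ∧ x ≤ K ∧ (K : ℝ) ≤ x + Λ := by
    refine ⟨K₀ + Λ * ⌈(x - K₀) / Λ⌉₊, ?_, ?_, ?_⟩
    · simp [Nat.ModEq]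
    · have := Nat.le_ceil ((x - K₀) / Λ)
      rw [div_le_iff₀ hΛ'] at this
      push_cast
      linarith
    · have := (Nat.ceil_lt_add_one (show 0 ≤ (x - K₀) / Λ from
        div_nonneg (by linarith) hΛ'.le)).le
      have h5 : (⌈(x - K₀) / Λ⌉₊ : ℝ) * Λ ≤ ((x - K₀) / Λ + 1) * Λ :=
        mul_le_mul_of_nonneg_right this hΛ'.le
      rw [add_mul, div_mul_cancel₀ _ hΛ'.ne'] at h5
      push_cast
      linarith
  have hKK₀ : K₀ ≤ K := by exact_mod_cast hK₀x.trans hKx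
  have hKK₁ : K₁ ≤ K := by
    have h4 : (K₁ : ℝ) ≤ x := by
      have : (0 : ℝ) ≤ K₀ := by positivity
      linarith
    exact_mod_cast h4.trans hKx
  have hK64 : 64 ≤ K := hK₁.trans hKK₁
  have hKpos : (0 : ℝ) < K := by
    have : 0 < K := by omega
    exact_mod_cast this
  -- upper bound for `K`
  have hKY : (K : ℝ) ≤ (1 + 2 / 10 ^ 6) * π * Y := by
    have h4 : (Λ : ℝ) ≤ 1 / 10 ^ 6 * π * Y := by
      have h5 : (Λ : ℝ) ≤ C := by
        have h6 : (0 : ℝ) ≤ K₀ := by positivity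
        have h7 : (0 : ℝ) ≤ K₁ := by positivity
        linarith
      nlinarith
    calc (K : ℝ) ≤ x + Λ := hKx'
      _ ≤ (1 + 1 / 10 ^ 6) * π * Y + 1 / 10 ^ 6 * π * Y := by linarith
      _ = (1 + 2 / 10 ^ 6) * π * Y := by ring
  set E : ℕ := ⌈9 / 10 ^ 8 * (K : ℝ)⌉₊ + 1 with hE
  have hE1 : 9 / 10 ^ 8 * (K : ℝ) + 1 ≤ E := by
    rw [hE]; push_cast
    have := Nat.le_ceil (9 / 10 ^ 8 * (K : ℝ))
    linarith
  have hE2 : (E : ℝ) ≤ 9 / 10 ^ 8 * K + 3 := by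
    rw [hE]; push_cast
    have := (Nat.ceil_lt_add_one (show 0 ≤ 9 / 10 ^ 8 * (K : ℝ) by positivity)).le
    linarith
  set τ : ℝ := B / K with hτ
  have hτ0 : 0 ≤ τ := by positivity
  obtain ⟨hP, hD⟩ := hPhi K E τ hKK₁ hτ0 le_rfl hE2
  have hrpi : r ≤ π * ρ := by
    have h5 : r < 1 * ρ := by
      have h6 : r / ρ < 1 := by
        refine h3.trans_le ?_
        rw [div_le_one (by positivity)]
        nlinarith
      rwa [div_lt_iff₀ hρ] at h6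
    nlinarith
  have hwin' : ∀ y w : ℝ, 0 ≤ w → |y| ≤ 8 → 2 * w * |y| ≤ 1 →
      w * |tan (π * y / K)| ≤ sin (r / (2 * ρ)) := by
    intro y w hw hy hyw
    have h5 := hwin (r / ρ) K hrp h1 (by rw [hx]; exact hKx) y w hw hy hyw
    have h6 : r / ρ / 2 = r / (2 * ρ) := by field_simp
    rwa [h6] at h5
  have hmain := value_le (N := N) hρ hN hr0.le hrpi (M := 1000000) (K := K) (E := E) (τ := τ)
    hτ0 hK64 a (fun i => div_le_div_of_nonneg_right (hB i) hKpos.le)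
    (by
      intro i j hij ς hς
      obtain ⟨R, hR1, hR2⟩ := hmod K hKK₀ hKmod i j hij ς hς
      refine ⟨R, hR1, ?_⟩
      have h7 : 9 * |(R : ℝ) - (K : ℝ) / 16| ≤ 9 * (1 / 10 ^ 8 * K) :=
        mul_le_mul_of_nonneg_left hR2 (by norm_num)
      linarith) hwin' μ₀
  refine hmain.trans ?_
  have hMinv : (((1000000 : ℕ) : ℝ≥0∞))⁻¹ = ENNReal.ofReal (1 / 10 ^ 6) := by
    rw [← ENNReal.ofReal_natCast, ← ENNReal.ofReal_inv_of_pos (by norm_num)]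
    norm_num
  have hY2 : ρ ^ 2 / r = ρ * Y := by rw [hY]; ring
  calc _ ≤ ENNReal.ofReal (1 / 10 ^ 6) * (ENNReal.ofReal (ρ * (4 * K)) +
        ENNReal.ofReal (6 * ρ ^ 2 / r)) + ENNReal.ofReal (ρ * (K * (5 * π / 16 - 5 / 100000))) := by
        rw [hMinv]
        refine add_le_add (mul_le_mul_right (add_le_add (ENNReal.ofReal_le_ofReal ?_) hμ₀) _)
          (ENNReal.ofReal_le_ofReal ?_)
        · exact mul_le_mul_of_nonneg_left hD hρ.le
        · exact mul_le_mul_of_nonneg_left hP hρ.le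
    _ = ENNReal.ofReal (1 / 10 ^ 6 * (ρ * (4 * K) + 6 * ρ ^ 2 / r) +
        ρ * (K * (5 * π / 16 - 5 / 100000))) := by
        have h8 : 0 ≤ K * (5 * π / 16 - 5 / 100000) := by
          apply mul_nonneg hKpos.le
          linarith
        rw [← ENNReal.ofReal_add (by positivity) (by positivity),
          ← ENNReal.ofReal_mul (by norm_num),
          ← ENNReal.ofReal_add (by positivity) (by positivity)]
    _ ≤ _ := by
        apply ENNReal.ofReal_le_ofReal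
        have e1 : 1 / 10 ^ 6 * (ρ * (4 * K) + 6 * ρ ^ 2 / r) +
            ρ * (K * (5 * π / 16 - 5 / 100000)) =
            ρ * (K * (4 / 10 ^ 6 + (5 * π / 16 - 5 / 100000)) + 6 / 10 ^ 6 * Y) := by
          rw [hY]; ring
        have e2 : 5 * π ^ 2 / 16 * ρ ^ 2 / r = ρ * (5 * π ^ 2 / 16 * Y) := by
          rw [hY]; ring
        rw [e1, e2]
        apply mul_le_mul_of_nonneg_left _ hρ.le
        have h9 : K * (4 / 10 ^ 6 + (5 * π / 16 - 5 / 100000)) ≤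
            (1 + 2 / 10 ^ 6) * π * Y * (4 / 10 ^ 6 + (5 * π / 16 - 5 / 100000)) :=
          mul_le_mul_of_nonneg_right hKY (by linarith)
        have h10 : (1 + 2 / 10 ^ 6) * π * (4 / 10 ^ 6 + (5 * π / 16 - 5 / 100000)) + 6 / 10 ^ 6 ≤
            5 * π ^ 2 / 16 := by nlinarith
        have h11 := mul_le_mul_of_nonneg_right h10 hYpos.le
        nlinarith

end AstroR
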