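import Pool.Agent.Lib.H73R.Defs

/-!
# Meeting times
-/

set_option autoImplicit false

noncomputable section

open MeasureTheory Metric Set Real Filter Topology
open scoped RealInnerProductSpace NNReal ENNReal

namespace AstroR

open Astro

/-- Meeting after a common initial period of length `ρ T`.

Proof. Unfold `meetTime`. If `t` satisfies `gdist ρ (act g₁ (γ₁.1 t)) (act g₂ (γ₂.1 t)) ≤ r` then
`t + (ρ T).toNNReal` satisfies the condition for `γ₁'`, `γ₂'`, so the left side is at most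
`t + (ρ T).toNNReal = ENNReal.ofReal (ρ T) + t`. Take the infimum over `t`
(`ENNReal.add_iInf`, or `le_of_forall_lt`/`ENNReal.le_of_forall_pos_le_add`, or
`tsub_le_iff_left` with `le_iInf₂`). -/
theorem meetTime_after {ρ r : ℝ} {N : E3} {T : ℝ} (γ₁ γ₂ γ₁' γ₂' : Paths ρ N)
    (h₁ : ∀ t : ℝ≥0, γ₁'.1 (t + (ρ * T).toNNReal) = γ₁.1 t)
    (h₂ : ∀ t : ℝ≥0, γ₂'.1 (t + (ρ * T).toNNReal) = γ₂.1 t) (g₁ g₂ : O3) :
    meetTime r g₁ g₂ γ₁' γ₂' ≤ ENNReal.ofReal (ρ * T) + meetTime r g₁ g₂ γ₁ γ₂ := by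
  rw [← tsub_le_iff_left]
  conv_rhs => unfold meetTime
  refine le_iInf₂ fun t ht => ?_
  rw [tsub_le_iff_left]
  unfold meetTime
  refine iInf₂_le_of_le (t + (ρ * T).toNNReal) ?_ ?_
  · rw [h₁ t, h₂ t]
    exact ht
  · rw [ENNReal.coe_add, add_comm, ENNReal.ofReal]

/-- Meeting at a given time. Copy the proof of `Astro.meetTime_le` (the points `x`, `y` take the place
of `upath α t`, `upath β t`). -/
theorem meet_of_close {ρ r : ℝ} {N : E3} (hρ : 0 < ρ) (hr0 : 0 ≤ r) (hr : r ≤ π * ρ) (A g₁ g₂ : O3)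
    (γ₁ γ₂ : Paths ρ N) {u : ℝ} (hu : 0 ≤ u) {x y : E3} (hx : ‖x‖ = 1) (hy : ‖y‖ = 1)
    (h₁ : γ₁.1 (ρ * u).toNNReal = ρ • act A x) (h₂ : γ₂.1 (ρ * u).toNNReal = ρ • act A y)
    (h : ‖x - act ((g₁ * A)⁻¹ * (g₂ * A)) y‖ ≤ 2 * sin (r / (2 * ρ))) :
    meetTime r g₁ g₂ γ₁ γ₂ ≤ ENNReal.ofReal (ρ * u) := by
  unfold meetTime
  refine iInf₂_le_of_le (ρ * u).toNNReal ?_ le_rfl
  rw [h₁, h₂, act_smul, act_smul, ← act_mul, ← act_mul]
  rw [gdist_le_iff hρ hr0 hr]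
  · rw [inner_smul_left, inner_smul_right]
    simp only [conj_trivial]
    have e1 : ⟪act (g₁ * A) x, act (g₂ * A) y⟫ = ⟪x, act ((g₁ * A)⁻¹ * (g₂ * A)) y⟫ := by
      rw [← inner_act (g₁ * A) x, ← act_mul (g₁ * A), mul_inv_cancel_left]
    rw [e1]
    set z := act ((g₁ * A)⁻¹ * (g₂ * A)) y with hz
    have hzn : ‖z‖ = 1 := by rw [hz, norm_act, hy]
    have e2 : ⟪x, z⟫ = 1 - ‖x - z‖ ^ 2 / 2 := by
      rw [norm_sub_sq_real, hx, hzn]; ring
    have e3 : ‖x - z‖ ^ 2 ≤ (2 * sin (r / (2 * ρ))) ^ 2 := pow_le_pow_left₀ (norm_nonneg _) h 2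
    have e4 : cos (r / ρ) = 1 - 2 * sin (r / (2 * ρ)) ^ 2 := by
      have : r / ρ = 2 * (r / (2 * ρ)) := by field_simp
      rw [this, cos_two_mul]
      have := sin_sq_add_cos_sq (r / (2 * ρ))
      linarith
    rw [e2, e4]
    nlinarith [sq_nonneg ρ, mul_pos hρ hρ]
  · rw [norm_smul, norm_act, hx, mul_one, Real.norm_of_nonneg hρ.le]
  · rw [norm_smul, norm_act, hy, mul_one, Real.norm_of_nonneg hρ.le]

end AstroR
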