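import Pool.Agent.Lib.H73R.G3
import Pool.Agent.Lib.H73R.C1
import Pool.Agent.Lib.H73R.C3

/-!
# The meeting times of the rotated frames
-/

set_option autoImplicit false

noncomputable section

open MeasureTheory Metric Set Real Filter Topology
open scoped RealInnerProductSpace NNReal ENNReal

namespace AstroR

open Astro

/-- Bound for the meeting time of the location `k` (index of the meridian) with offset `z`. -/
def Bk (K E : ℕ) (τ w z : ℝ) (k : ℕ) : ℝ :=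
  Dm K E τ (mst (((16 * k / K : ℕ) : ℝ) + z) w) +
    ((k : ℝ) - ((16 * k / K : ℕ) : ℝ) * K / 16 + 2 * E + 1) *
      Lp τ (mst (((16 * k / K : ℕ) : ℝ) + z) w)

theorem s4_term {K E : ℕ} {τ : ℝ} (hτ : 0 ≤ τ) (hK : 16 < K) {a₁ a₂ : ℕ} {c₁ c₂ : ℝ → E3}
    (h₁ : Epo K E τ a₁ c₁) (h₂ : Epo K E τ a₂ c₂) {ς ε' R : ℤ} (hε' : ε' = 1 ∨ ε' = -1)
    (hQR : (K : ℤ) ∣ (ε' * ((a₂ : ℤ) - ς * (a₁ : ℤ))) * R - 1)
    (hR : 9 * |(R : ℝ) - (K : ℝ) / 16| + 1 ≤ E) {b : ℝ}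
    (hwin : ∀ y w : ℝ, 0 ≤ w → |y| ≤ 8 → 2 * w * |y| ≤ 1 → w * |tan (π * y / K)| ≤ b)
    {ρ : ℝ} (hρ : 0 < ρ) (T : O3 → ℝ≥0∞)
    (hT : ∀ (h : O3) (u : ℝ), 0 ≤ u → u ≤ Dm K E τ 16 → ‖c₁ u - act h (c₂ u)‖ ≤ 2 * b →
      T h ≤ ENNReal.ofReal (ρ * u)) {h : O3} {θ : ℝ} (hG : GeoProp h θ (ς : ℝ)) {φ : ℝ}
    {c0 : ℤ} {z : ℝ} (hz0 : 0 ≤ z) (hz1 : z < 1)
    (hloc : (c0 : ℝ) + z = (ε' : ℝ) * (K * (θ - φ) / (2 * π))) {k0 : ℕ} (hk0 : k0 < K)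
    (hk0' : (K : ℤ) ∣ (k0 : ℤ) - R * c0) :
    T (h * rot φ) ≤ ENNReal.ofReal (ρ * Bk K E τ (wd h) z k0) := by
  have hK0 : 0 < K := by omega
  have hw := wd_mem h
  have hl0 : 16 * k0 / K < 16 := by
    rw [Nat.div_lt_iff_lt_mul hK0]
    omega
  have hl0' : ((16 * k0 / K : ℕ) : ℝ) ≤ 15 := by exact_mod_cast Nat.le_of_lt_succ hl0
  have hl00 : (0 : ℝ) ≤ ((16 * k0 / K : ℕ) : ℝ) := by positivity
  have hx0 : 0 ≤ ((16 * k0 / K : ℕ) : ℝ) + z := by linarith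
  have hx1 : ((16 * k0 / K : ℕ) : ℝ) + z < 16 := by linarith
  obtain ⟨hm, s, hs, hs8, hsw⟩ := mst_spec hx0 hx1 hw.1 hw.2
  have hcut := cut_mst_le hx0 hx1 hw.1 hw.2
  obtain ⟨p, hp, hple, z', hz'⟩ := loc hK0 hQR hR hz0 hz1 hk0 hk0' hs hs8
  have hεR : (ε' : ℝ) * (ε' : ℝ) = 1 := by
    rcases hε' with h | h <;> rw [h] <;> norm_num
  have hεa : |(ε' : ℝ)| = 1 := by
    rcases hε' with h | h <;> rw [h] <;> norm_num
  obtain ⟨u, hu0, hu1, hu2, hu3⟩ := close_pass hτ h₁ h₂ hK hG hwin (φ := φ) hm hp hcut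
    (y := (ε' : ℝ) * ((((16 * k0 / K : ℕ) : ℝ) + z) - s)) (z := ε' * z')
    (by rw [abs_mul, hεa, one_mul]; exact hs8)
    (by rw [abs_mul, hεa, one_mul]; exact hsw)
    (by
      have e1 : K * (θ - φ) / (2 * π) = (ε' : ℝ) * ((ε' : ℝ) * (K * (θ - φ) / (2 * π))) := by
        rw [← mul_assoc, hεR, one_mul]
      rw [e1, ← hloc, hz']
      push_cast
      generalize (kap K E (mst (((16 * k0 / K : ℕ) : ℝ) + z) (wd h)) p : ℝ) = κ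
      linear_combination (((a₂ : ℝ) - ς * a₁) * κ) * hεR)
  refine (hT _ u hu0 hu2 hu3).trans (ENNReal.ofReal_le_ofReal ?_)
  apply mul_le_mul_of_nonneg_left _ hρ.le
  refine hu1.trans ?_
  unfold Bk
  have hL := Lp_pos hτ (mst (((16 * k0 / K : ℕ) : ℝ) + z) (wd h))
  have : ((p : ℝ) + 1) * Lp τ (mst (((16 * k0 / K : ℕ) : ℝ) + z) (wd h)) ≤
      ((k0 : ℝ) - ((16 * k0 / K : ℕ) : ℝ) * K / 16 + 2 * E + 1) *
      Lp τ (mst (((16 * k0 / K : ℕ) : ℝ) + z) (wd h)) :=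
    mul_le_mul_of_nonneg_right (by linarith) (by linarith)
  linarith

theorem s4_bij {K : ℕ} (hK : 0 < K) {Q R f ε' : ℤ} (hQR : (K : ℤ) ∣ Q * R - 1)
    (hε' : ε' = 1 ∨ ε' = -1) (B : ℕ → ℝ≥0∞) :
    ∑ i ∈ Finset.range K, B ((R * (f - ε' * (i : ℤ))) % (K : ℤ)).toNat =
      ∑ k ∈ Finset.range K, B k := by
  have hK' : (0 : ℤ) < K := by exact_mod_cast hK
  have hmaps : ∀ i ∈ Finset.range K,
      ((R * (f - ε' * (i : ℤ))) % (K : ℤ)).toNat ∈ Finset.range K := by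
    intro i _
    rw [Finset.mem_range]
    have h1 := Int.emod_lt_of_pos (R * (f - ε' * (i : ℤ))) hK'
    have h2 := Int.emod_nonneg (R * (f - ε' * (i : ℤ))) hK'.ne'
    omega
  have hinj : Set.InjOn (fun i : ℕ => ((R * (f - ε' * (i : ℤ))) % (K : ℤ)).toNat)
      (Finset.range K : Set ℕ) := by
    intro i hi j hj hij
    simp only [Finset.coe_range, Set.mem_Iio] at hi hj
    simp only at hij
    have h1 := Int.emod_nonneg (R * (f - ε' * (i : ℤ))) hK'.ne'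
    have h2 := Int.emod_nonneg (R * (f - ε' * (j : ℤ))) hK'.ne'
    have h3 : (R * (f - ε' * (i : ℤ))) % (K : ℤ) = (R * (f - ε' * (j : ℤ))) % (K : ℤ) := by
      omega
    have h4 : (K : ℤ) ∣ R * (f - ε' * (i : ℤ)) - R * (f - ε' * (j : ℤ)) :=
      Int.ModEq.dvd (n := (K : ℤ)) (Eq.symm h3)
    have h5 : (K : ℤ) ∣ ε' * ((j : ℤ) - i) := by
      have e : ε' * ((j : ℤ) - i) = Q * (R * (f - ε' * (i : ℤ)) - R * (f - ε' * (j : ℤ))) -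
          (Q * R - 1) * (ε' * ((j : ℤ) - i)) := by ring
      rw [e]
      exact dvd_sub (dvd_mul_of_dvd_right h4 _) (dvd_mul_of_dvd_left hQR _)
    have h6 : (K : ℤ) ∣ (j : ℤ) - i := by
      rcases hε' with h | h
      · rwa [h, one_mul] at h5
      · rw [h, neg_one_mul] at h5
        exact (dvd_neg).mp h5
    have h7 : |(j : ℤ) - i| < K := by
      rw [abs_lt]
      omega
    have h8 := Int.eq_zero_of_abs_lt_dvd h6 h7
    omega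
  exact Finset.sum_nbij (fun i : ℕ => ((R * (f - ε' * (i : ℤ))) % (K : ℤ)).toNat) hmaps hinj
    (Finset.surjOn_of_injOn_of_card_le _ hmaps hinj le_rfl) (fun _ _ => rfl)

/-- Sum over the `K` rotations of the second frame.

Proof. `geo h` gives `θ`, `ς = ± 1` (write `ς = (ς' : ℤ)`), `GeoProp h θ ς`. Let
`Q₀ = a₂ - ς' a₁`, `Q = |Q₀|`, `ε' = 1` if `0 ≤ Q₀` and `-1` otherwise, so `Q = ε' Q₀`; let `R` be the
number of `hR ς'`. Put `a = K θ / (2 π)`, `ε = ε'`. Fix `v`, `f = ⌊ε (a - v)⌋`,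
`z = Int.fract (ε (a - v))`, `w = wd h ∈ [0, 1]`. For `i < K` let
`c0 = f - ε' i` and `k0 = k i = (R * c0 mod K).toNat` (`Int.emod`). The map `i ↦ k i` is a
bijection of `range K` (injective: `R` is invertible modulo `K` by `Q R ≡ 1`, `ε' = ± 1`; use
`Finset.sum_nbij`/`Finset.sum_bij` or `Function.Injective` on `range K` and
`Finset.eq_of_subset_of_card_le`; or work in `ZMod K` as in `Astro.mismatch_small`).
It remains to bound each term: `T (h * rot (2 π (i + v) / K)) ≤ ofReal (ρ * Bk K E τ w z k0)`.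
Let `l0 = 16 * k0 / K < 16`, `x = l0 + z ∈ [0, 16)`, `m = mst x w`; `mst_spec` gives `m < 16` and
`s ≡ sig m` modulo `16` with `|x - s| ≤ 8`, `2 w |x - s| ≤ 1`; `cut_mst_le` gives `cut m ≤ w`. `loc`
gives a pass `p`, `p ≤ k0 - l0 K / 16 + 2 E`, and `z'` with `c0 + z = Q κ + K z' + (x - s)`,
`κ = kap K E m p`. With `φ = 2 π (i + v) / K`: `K (θ - φ) / (2 π) = a - v - i`, and
`ε (a - v - i) = f + z - ε i = c0 + z`, so (multiply by `ε`, `ε ^ 2 = 1`, `ε Q = Q₀`)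
`K (θ - φ) / (2 π) = Q₀ κ + K (ε z') + ε (x - s)`. Apply `close_pass` with `y = ε (x - s)`: there is
`u` with `0 ≤ u ≤ Dm m + (p + 1) Lp m`, `u ≤ Dm 16` and the distance is at most `2 b`; so by `hT`
`T .. ≤ ofReal (ρ u) ≤ ofReal (ρ * Bk ..)`, as `p + 1 ≤ k0 - l0 K / 16 + 2 E + 1`, `Lp > 0`. -/
theorem sum_rot {K E : ℕ} {τ : ℝ} (hτ : 0 ≤ τ) (hK : 16 < K) {a₁ a₂ : ℕ} {c₁ c₂ : ℝ → E3}
    (h₁ : Epo K E τ a₁ c₁) (h₂ : Epo K E τ a₂ c₂)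
    (hR : ∀ ς : ℤ, (ς = 1 ∨ ς = -1) → ∃ R : ℤ, (K : ℤ) ∣ |(a₂ : ℤ) - ς * (a₁ : ℤ)| * R - 1 ∧
      9 * |(R : ℝ) - (K : ℝ) / 16| + 1 ≤ E) {b : ℝ}
    (hwin : ∀ y w : ℝ, 0 ≤ w → |y| ≤ 8 → 2 * w * |y| ≤ 1 → w * |tan (π * y / K)| ≤ b)
    {ρ : ℝ} (hρ : 0 < ρ) (T : O3 → ℝ≥0∞)
    (hT : ∀ (h : O3) (u : ℝ), 0 ≤ u → u ≤ Dm K E τ 16 → ‖c₁ u - act h (c₂ u)‖ ≤ 2 * b →
      T h ≤ ENNReal.ofReal (ρ * u)) (h : O3) :
    ∃ a ε : ℝ, (ε = 1 ∨ ε = -1) ∧ ∀ v : ℝ,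
      ∑ i ∈ Finset.range K, T (h * rot (2 * π * ((i : ℝ) + v) / K)) ≤
        ∑ k ∈ Finset.range K,
          ENNReal.ofReal (ρ * Bk K E τ (wd h) (Int.fract (ε * (a - v))) k) := by
  obtain ⟨θ, ς, hς, hG⟩ := geo h
  obtain ⟨ς', hς', hςς⟩ : ∃ s : ℤ, (s = 1 ∨ s = -1) ∧ ς = (s : ℝ) := by
    rcases hς with h | h
    · exact ⟨1, Or.inl rfl, by rw [h]; simp⟩
    · exact ⟨-1, Or.inr rfl, by rw [h]; simp⟩
  rw [hςς] at hG
  obtain ⟨R, hQR, hRb⟩ := hR ς' hς'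
  obtain ⟨ε', hε', habs⟩ : ∃ s : ℤ, (s = 1 ∨ s = -1) ∧
      |(a₂ : ℤ) - ς' * (a₁ : ℤ)| = s * ((a₂ : ℤ) - ς' * (a₁ : ℤ)) := by
    rcases abs_choice ((a₂ : ℤ) - ς' * (a₁ : ℤ)) with h | h
    · exact ⟨1, Or.inl rfl, by rw [h]; ring⟩
    · exact ⟨-1, Or.inr rfl, by rw [h]; ring⟩
  rw [habs] at hQR
  have hK0 : 0 < K := by omega
  have hK' : (0 : ℤ) < K := by exact_mod_cast hK0
  have hKR : (0 : ℝ) < K := by exact_mod_cast hK0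
  have hpi := pi_pos
  refine ⟨K * θ / (2 * π), (ε' : ℝ), ?_, fun v => ?_⟩
  · rcases hε' with h | h
    · left; rw [h]; norm_num
    · right; rw [h]; norm_num
  set z := Int.fract ((ε' : ℝ) * (K * θ / (2 * π) - v)) with hz
  set f := ⌊(ε' : ℝ) * (K * θ / (2 * π) - v)⌋ with hf
  have hfz : (f : ℝ) + z = (ε' : ℝ) * (K * θ / (2 * π) - v) := Int.floor_add_fract _
  rw [← s4_bij hK0 (f := f) hQR hε'
    (fun k => ENNReal.ofReal (ρ * Bk K E τ (wd h) z k))]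
  apply Finset.sum_le_sum
  intro i hi
  have h1 := Int.emod_lt_of_pos (R * (f - ε' * (i : ℤ))) hK'
  have h2 := Int.emod_nonneg (R * (f - ε' * (i : ℤ))) hK'.ne'
  refine s4_term hτ hK h₁ h₂ hε' hQR hRb hwin hρ T hT hG (φ := 2 * π * ((i : ℝ) + v) / K)
    (c0 := f - ε' * (i : ℤ)) (z := z) (Int.fract_nonneg _) (Int.fract_lt_one _) ?_ (by omega) ?_
  · have e : (K : ℝ) * (θ - 2 * π * ((i : ℝ) + v) / K) / (2 * π) = K * θ / (2 * π) - v - i := by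
      field_simp
      ring
    rw [e]
    push_cast
    linear_combination hfz
  · have h3 : (((R * (f - ε' * (i : ℤ))) % (K : ℤ)).toNat : ℤ) =
        (R * (f - ε' * (i : ℤ))) % (K : ℤ) := Int.toNat_of_nonneg h2
    rw [h3]
    have h4 := Int.emod_add_mul_ediv (R * (f - ε' * (i : ℤ))) (K : ℤ)
    refine ⟨-((R * (f - ε' * (i : ℤ))) / (K : ℤ)), ?_⟩
    linarith

end AstroR
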