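import Pool.Agent.Lib.H73R.S4
import Pool.Agent.Lib.H73R.C2
import Pool.Agent.Lib.H73R.C3
import Pool.Agent.Lib.H73R.C4
import Pool.Agent.Lib.H73R.C8
import Pool.Agent.Lib.H73R.P8

/-!
# Average over the offset
-/

set_option autoImplicit false

noncomputable section

open MeasureTheory Metric Set Real Filter Topology
open scoped RealInnerProductSpace NNReal ENNReal

namespace AstroR

open Astro

/-- Nonnegativity of `Bk` (`k - (16 k / K) K / 16 ≥ 0`, `Dm_nonneg`, `Lp_pos`). -/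
theorem Bk_nonneg {K : ℕ} (E : ℕ) {τ : ℝ} (hτ : 0 ≤ τ) (hK : 0 < K) (w z : ℝ) (k : ℕ) :
    0 ≤ Bk K E τ w z k := by
  have h1 : 16 * k / K * K ≤ 16 * k := Nat.div_mul_le_self _ _
  have h2 : (((16 * k / K : ℕ) : ℝ)) * K ≤ 16 * k := by exact_mod_cast h1
  have h3 := Dm_nonneg K E hτ (mst (((16 * k / K : ℕ) : ℝ) + z) w)
  have h4 := Lp_pos hτ (mst (((16 * k / K : ℕ) : ℝ) + z) w)
  have h5 : 0 ≤ (k : ℝ) - ((16 * k / K : ℕ) : ℝ) * K / 16 + 2 * E + 1 := by
    have : (0 : ℝ) ≤ E := Nat.cast_nonneg _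
    linarith
  unfold Bk
  have h6 := mul_nonneg h5 (by linarith : 0 ≤ Lp τ (mst (((16 * k / K : ℕ) : ℝ) + z) w))
  linarith

/-- Summation over the blocks: `block_sum` with `A l = Dm m + (2 E + 1) Lp m`, `B l = Lp m`,
`m = mst (l + z) w`; `A l + B l (K / 32 + 1 / 2) = Dm m + Lp m (K / 32 + 2 E + 3 / 2) ≤ Vm m`. -/
theorem sum_Bk {K : ℕ} (E : ℕ) {τ : ℝ} (hτ : 0 ≤ τ) (hK : 0 < K) (w z : ℝ) :
    ∑ k ∈ Finset.range K, Bk K E τ w z k ≤
      ((K : ℝ) / 16 + 1) * ∑ l ∈ Finset.range 16, Vm K E τ (mst ((l : ℝ) + z) w) := by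
  have hB := block_sum hK
    (fun l => Dm K E τ (mst ((l : ℝ) + z) w) + (2 * E + 1) * Lp τ (mst ((l : ℝ) + z) w))
    (fun l => Lp τ (mst ((l : ℝ) + z) w))
    (fun l => by
      have h3 := Dm_nonneg K E hτ (mst ((l : ℝ) + z) w)
      have h4 := Lp_pos hτ (mst ((l : ℝ) + z) w)
      have h5 := mul_nonneg (by positivity : (0 : ℝ) ≤ 2 * E + 1)
        (by linarith : 0 ≤ Lp τ (mst ((l : ℝ) + z) w))
      linarith)
    (fun l => by
      have h4 := Lp_pos hτ (mst ((l : ℝ) + z) w)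
      linarith)
  have hL : ∑ k ∈ Finset.range K, Bk K E τ w z k = ∑ k ∈ Finset.range K,
      ((Dm K E τ (mst (((16 * k / K : ℕ) : ℝ) + z) w) +
        (2 * E + 1) * Lp τ (mst (((16 * k / K : ℕ) : ℝ) + z) w)) +
        Lp τ (mst (((16 * k / K : ℕ) : ℝ) + z) w) *
          ((k : ℝ) - ((16 * k / K : ℕ) : ℝ) * K / 16)) := by
    apply Finset.sum_congr rfl
    intro k _
    unfold Bk
    ring
  rw [hL]
  refine hB.trans ?_
  apply mul_le_mul_of_nonneg_left _ (by positivity)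
  apply Finset.sum_le_sum
  intro l _
  have h4 := Lp_pos hτ (mst ((l : ℝ) + z) w)
  simp only [Vm]
  nlinarith

/-- Decomposition into the increments: `Vm m = ∑ j ≤ m, dV j` (`Vm_eq_sum`) with
`m = mst x w < 16` (`mst_spec`), all `dV j ≥ 0` (`dV_nonneg`), and `x ∈ miss j w` for `j ≤ m`
(`mem_miss`). -/
theorem Vm_le_miss {K : ℕ} (E : ℕ) {τ : ℝ} (hτ : 0 ≤ τ) (hK : 64 ≤ K) {x w : ℝ} (hx0 : 0 ≤ x)
    (hx1 : x < 16) (hw0 : 0 ≤ w) (hw1 : w ≤ 1) :
    ENNReal.ofReal (Vm K E τ (mst x w)) ≤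
      ∑ m ∈ Finset.range 16, ENNReal.ofReal (dV K E τ m) *
        (miss m w).indicator (fun _ => (1 : ℝ≥0∞)) x := by
  have hm := (mst_spec hx0 hx1 hw0 hw1).1
  rw [Vm_eq_sum, ENNReal.ofReal_sum_of_nonneg (fun j _ => dV_nonneg E hK hτ j)]
  have hsub : Finset.range (mst x w + 1) ⊆ Finset.range 16 := by
    intro j hj
    rw [Finset.mem_range] at hj ⊢
    omega
  refine le_trans (Finset.sum_le_sum ?_) (Finset.sum_le_sum_of_subset hsub)
  intro j hj
  rw [Finset.mem_range] at hj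
  have hmem : x ∈ miss j w := mem_miss hx0 hx1 hw0 (by omega) (by omega)
  rw [Set.indicator_of_mem hmem, mul_one]

/-- The average over the offset.

Proof. For `z ∈ [0, 1)` let
`H z = ∑ l < 16, ∑ m < 16, ofReal (dV m) * (miss m w).indicator 1 (l + z)` (a measurable function,
`measurableSet_miss`). By `Bk_nonneg` (`ENNReal.ofReal_sum_of_nonneg`), `sum_Bk` and `Vm_le_miss`
(`Vm ≥ 0`) the integrand is at most `ofReal (K / 16 + 1) * H (Int.fract ..)` (`Int.fract_nonneg`,
`Int.fract_lt_one`). By `fract_avg` the integral of `H (Int.fract ..)` is `∫⁻ z in Ico 0 1, H z`,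
which is `∑ m, ofReal (dV m) * volume (miss m w ∩ Ico 0 16)` by `lintegral_finset_sum`,
`lintegral_const_mul` and `sum_translates`. -/
theorem avg_offset {K : ℕ} (E : ℕ) {τ : ℝ} (hτ : 0 ≤ τ) (hK : 64 ≤ K) {w : ℝ} (hw0 : 0 ≤ w)
    (hw1 : w ≤ 1) (a : ℝ) {ε : ℝ} (hε : ε = 1 ∨ ε = -1) :
    ∫⁻ v in Ico (0 : ℝ) 1, ∑ k ∈ Finset.range K,
        ENNReal.ofReal (Bk K E τ w (Int.fract (ε * (a - v))) k) ≤
      ENNReal.ofReal ((K : ℝ) / 16 + 1) * ∑ m ∈ Finset.range 16,
        ENNReal.ofReal (dV K E τ m) * volume (miss m w ∩ Ico 0 16) := by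
  have hK0 : 0 < K := by omega
  let I : ℕ → ℝ → ℝ≥0∞ := fun m => (miss m w).indicator (fun _ => (1 : ℝ≥0∞))
  have hI : ∀ m, Measurable (I m) := fun m =>
    measurable_const.indicator (measurableSet_miss m w)
  let H : ℝ → ℝ≥0∞ := fun z => ∑ l ∈ Finset.range 16, ∑ m ∈ Finset.range 16,
    ENNReal.ofReal (dV K E τ m) * I m ((l : ℝ) + z)
  have hIl : ∀ (m l : ℕ), Measurable (fun z : ℝ => I m ((l : ℝ) + z)) := fun m l =>
    (hI m).comp (measurable_const.add measurable_id)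
  have hH : Measurable H := by
    apply Finset.measurable_sum
    intro l _
    apply Finset.measurable_sum
    intro m _
    exact (hIl m l).const_mul _
  have hpt : ∀ v : ℝ, ∑ k ∈ Finset.range K,
      ENNReal.ofReal (Bk K E τ w (Int.fract (ε * (a - v))) k) ≤
        ENNReal.ofReal ((K : ℝ) / 16 + 1) * H (Int.fract (ε * (a - v))) := by
    intro v
    set z := Int.fract (ε * (a - v)) with hz
    have hz0 : 0 ≤ z := Int.fract_nonneg _
    have hz1 : z < 1 := Int.fract_lt_one _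
    rw [← ENNReal.ofReal_sum_of_nonneg (fun k _ => Bk_nonneg E hτ hK0 w z k)]
    refine (ENNReal.ofReal_le_ofReal (sum_Bk E hτ hK0 w z)).trans ?_
    rw [ENNReal.ofReal_mul (by positivity)]
    apply mul_le_mul_right
    have hV : ∀ l ∈ Finset.range 16, 0 ≤ Vm K E τ (mst ((l : ℝ) + z) w) := by
      intro l _
      rw [Vm_eq_sum]
      exact Finset.sum_nonneg (fun j _ => dV_nonneg E hK hτ j)
    rw [ENNReal.ofReal_sum_of_nonneg hV]
    apply Finset.sum_le_sum
    intro l hl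
    rw [Finset.mem_range] at hl
    have hl' : (l : ℝ) + 1 ≤ 16 := by exact_mod_cast hl
    exact Vm_le_miss E hτ hK (by positivity) (by linarith) hw0 hw1
  calc ∫⁻ v in Ico (0 : ℝ) 1, ∑ k ∈ Finset.range K,
        ENNReal.ofReal (Bk K E τ w (Int.fract (ε * (a - v))) k)
      ≤ ∫⁻ v in Ico (0 : ℝ) 1,
          ENNReal.ofReal ((K : ℝ) / 16 + 1) * H (Int.fract (ε * (a - v))) :=
        lintegral_mono hpt
    _ = ENNReal.ofReal ((K : ℝ) / 16 + 1) *
          ∫⁻ v in Ico (0 : ℝ) 1, H (Int.fract (ε * (a - v))) := by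
        rw [lintegral_const_mul' _ _ ENNReal.ofReal_ne_top]
    _ = ENNReal.ofReal ((K : ℝ) / 16 + 1) * ∫⁻ z in Ico (0 : ℝ) 1, H z := by
        rw [fract_avg hH a hε]
    _ = ENNReal.ofReal ((K : ℝ) / 16 + 1) * ∑ m ∈ Finset.range 16,
        ENNReal.ofReal (dV K E τ m) * volume (miss m w ∩ Ico 0 16) := by
        congr 1
        have h1 : ∫⁻ z in Ico (0 : ℝ) 1, H z = ∑ l ∈ Finset.range 16,
            ∑ m ∈ Finset.range 16, ENNReal.ofReal (dV K E τ m) *
              ∫⁻ z in Ico (0 : ℝ) 1, I m ((l : ℝ) + z) := by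
          simp only [H]
          rw [lintegral_finset_sum]
          · apply Finset.sum_congr rfl
            intro l _
            rw [lintegral_finset_sum]
            · apply Finset.sum_congr rfl
              intro m _
              rw [lintegral_const_mul' _ _ ENNReal.ofReal_ne_top]
            · intro m _
              exact (hIl m l).const_mul _
          · intro l _
            apply Finset.measurable_sum
            intro m _
            exact (hIl m l).const_mul _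
        rw [h1, Finset.sum_comm]
        apply Finset.sum_congr rfl
        intro m _
        rw [← Finset.mul_sum, ← sum_translates (measurableSet_miss m w)]

end AstroR
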