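import Pool.Agent.Lib.H73R.S5
import Pool.Agent.Lib.H73R.C7
import Pool.Agent.Lib.H73R.G1

/-!
# Average over the second frame
-/

set_option autoImplicit false

noncomputable section

open MeasureTheory Metric Set Real Filter Topology
open scoped RealInnerProductSpace NNReal ENNReal

namespace AstroR

open Astro

/-- `Um` is not negative. -/
theorem s6_Um_nonneg (m : ℕ) : 0 ≤ Um m := by
  unfold Um
  split_ifs
  · norm_num
  · refine div_nonneg (List.sum_nonneg ?_) (by norm_num)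
    intro x hx
    obtain ⟨q, _, rfl⟩ := List.mem_map.1 hx
    positivity

/-- The matrix `q i v`. -/
def s6_q (K : ℕ) (A : O3) (i : ℕ) (v : ℝ) : O3 := A * rot (2 * π * ((i : ℝ) + v) / K) * A⁻¹

theorem s6_cont_q (K : ℕ) (A : O3) (i : ℕ) : Continuous (s6_q K A i) := by
  unfold s6_q
  exact (continuous_const.mul (continuous_rot.comp (by fun_prop))).mul continuous_const

theorem s6_meas_pair (K : ℕ) (A : O3) (i : ℕ) {F : O3 → ℝ≥0∞} (hF : Measurable F) :
    Measurable (fun p : ℝ × O3 => F (p.2 * s6_q K A i p.1)) :=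
  hF.comp (continuous_snd.mul ((s6_cont_q K A i).comp continuous_fst)).measurable

/-- The average over the rotations of the second frame is the integral. -/
theorem s6_inv {K : ℕ} (A : O3) {F : O3 → ℝ≥0∞} (hF : Measurable F) (v : ℝ) :
    (K : ℝ≥0∞) * ∫⁻ g, F g ∂haarO3 =
      ∫⁻ g, ∑ i ∈ Finset.range K, F (g * s6_q K A i v) ∂haarO3 := by
  rw [lintegral_finsetSum]
  · simp only [lintegral_mul_right_eq_self, Finset.sum_const, Finset.card_range, nsmul_eq_mul]
  · intro i _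
    exact hF.comp (by fun_prop : Measurable fun g : O3 => g * s6_q K A i v)

theorem s6_swap {K : ℕ} (A : O3) {F : O3 → ℝ≥0∞} (hF : Measurable F) :
    (K : ℝ≥0∞) * ∫⁻ g, F g ∂haarO3 =
      ∫⁻ g, ∫⁻ v in Ico (0 : ℝ) 1, ∑ i ∈ Finset.range K, F (g * s6_q K A i v) ∂volume ∂haarO3 := by
  have h1 : (K : ℝ≥0∞) * ∫⁻ g, F g ∂haarO3 =
      ∫⁻ v in Ico (0 : ℝ) 1, (K : ℝ≥0∞) * ∫⁻ g, F g ∂haarO3 := by
    rw [setLIntegral_const, Real.volume_Ico]
    simp
  rw [h1]
  have h2 : ∫⁻ v in Ico (0 : ℝ) 1, (K : ℝ≥0∞) * ∫⁻ g, F g ∂haarO3 =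
      ∫⁻ v in Ico (0 : ℝ) 1, ∫⁻ g, ∑ i ∈ Finset.range K, F (g * s6_q K A i v) ∂haarO3 := by
    apply lintegral_congr
    intro v
    exact s6_inv A hF v
  rw [h2]
  apply lintegral_lintegral_swap
  have h3 : Measurable (fun p : ℝ × O3 => ∑ i ∈ Finset.range K, F (p.2 * s6_q K A i p.1)) :=
    Finset.measurable_sum _ fun i _ => s6_meas_pair K A i hF
  exact h3.aemeasurable

theorem s6_meas_vol (m : ℕ) (g₁ A : O3) :
    Measurable (fun g : O3 => volume (miss m (wd ((g₁ * A)⁻¹ * (g * A))) ∩ Ico 0 16)) := by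
  have h1 : MeasurableSet {p : ℝ × ℝ | p.2 ∈ miss m p.1 ∧ p.2 ∈ Ico (0 : ℝ) 16} :=
    (measurableSet_miss_prod m).inter (measurable_snd measurableSet_Ico)
  have h2 : Measurable (fun w : ℝ => volume (miss m w ∩ Ico (0 : ℝ) 16)) :=
    measurable_measure_prodMk_left h1
  exact h2.comp (continuous_wd.comp (continuous_const.mul (continuous_id.mul
    continuous_const))).measurable

/-- The average over the second frame.

Proof. For `v ∈ ℝ`, `i < K` let `q i v = A * rot (2 π (i + v) / K) * A⁻¹`. By right invariance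
(`lintegral_mul_right_eq_self`) `K * ∫⁻ g, F g = ∫⁻ g, ∑ i < K, F (g * q i v)` for every `v`; integrate
over `v ∈ [0, 1)` (a set of measure one) and exchange the integrals
(`lintegral_lintegral_swap`; `(g, v) ↦ F (g * q i v)` is measurable since `F` is and the map
`(g, v) ↦ g * q i v` is continuous, `Astro.continuous_rot`):
`K * ∫⁻ g, F g = ∫⁻ g, ∫⁻ v in Ico 0 1, ∑ i < K, F (g * q i v)`. By `hF` and `avg_offset` (`wd_mem`,
`ENNReal.ofReal_mul` to take `ρ` out) the inner integral is at most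
`ofReal ρ * (ofReal (K / 16 + 1) * ∑ m < 16, ofReal (dV m) * volume (miss m (wd ..) ∩ Ico 0 16))`.
Integrate over `g` (`lintegral_const_mul'`, `lintegral_finsetSum'` or, to avoid measurability of
`g ↦ volume ..`, note that it is measurable: `measurable_measure_prodMk_left` with
`measurableSet_miss_prod` and `continuous_wd`) and use `avg_miss`. Divide by `K`: the result is
`ofReal (ρ * Phi K E τ)` (`dV_nonneg`, `0 ≤ Um m`). -/
theorem avg_frame {K : ℕ} (E : ℕ) {τ : ℝ} (hτ : 0 ≤ τ) (hK : 64 ≤ K) {ρ : ℝ} (hρ : 0 < ρ)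
    (g₁ A : O3) {F : O3 → ℝ≥0∞} (hFm : Measurable F)
    (hF : ∀ g : O3, ∃ a ε : ℝ, (ε = 1 ∨ ε = -1) ∧ ∀ v : ℝ,
      ∑ i ∈ Finset.range K, F (g * (A * rot (2 * π * ((i : ℝ) + v) / K) * A⁻¹)) ≤
        ∑ k ∈ Finset.range K, ENNReal.ofReal
          (ρ * Bk K E τ (wd ((g₁ * A)⁻¹ * (g * A))) (Int.fract (ε * (a - v))) k)) :
    ∫⁻ g, F g ∂haarO3 ≤ ENNReal.ofReal (ρ * Phi K E τ) := by
  have hK0 : (0 : ℝ) < K := by
    have : 0 < K := by omega
    exact_mod_cast this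
  have hKc : (0 : ℝ) ≤ (K : ℝ) / 16 + 1 := by positivity
  -- the inner integral
  have h1 : ∀ g : O3, ∫⁻ v in Ico (0 : ℝ) 1, ∑ i ∈ Finset.range K, F (g * s6_q K A i v) ≤
      ENNReal.ofReal ρ * (ENNReal.ofReal ((K : ℝ) / 16 + 1) * ∑ m ∈ Finset.range 16,
        ENNReal.ofReal (dV K E τ m) *
          volume (miss m (wd ((g₁ * A)⁻¹ * (g * A))) ∩ Ico 0 16)) := by
    intro g
    obtain ⟨a, ε, hε, hv⟩ := hF g
    obtain ⟨hw0, hw1⟩ := wd_mem ((g₁ * A)⁻¹ * (g * A))
    calc ∫⁻ v in Ico (0 : ℝ) 1, ∑ i ∈ Finset.range K, F (g * s6_q K A i v)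
        ≤ ∫⁻ v in Ico (0 : ℝ) 1, ENNReal.ofReal ρ * ∑ k ∈ Finset.range K,
            ENNReal.ofReal (Bk K E τ (wd ((g₁ * A)⁻¹ * (g * A))) (Int.fract (ε * (a - v))) k) := by
          apply lintegral_mono
          intro v
          refine (hv v).trans (le_of_eq ?_)
          show _ = ENNReal.ofReal ρ * ∑ k ∈ Finset.range K,
            ENNReal.ofReal (Bk K E τ (wd ((g₁ * A)⁻¹ * (g * A))) (Int.fract (ε * (a - v))) k)
          rw [Finset.mul_sum]
          refine Finset.sum_congr rfl fun k _ => ?_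
          rw [ENNReal.ofReal_mul hρ.le]
      _ = ENNReal.ofReal ρ * ∫⁻ v in Ico (0 : ℝ) 1, ∑ k ∈ Finset.range K,
            ENNReal.ofReal (Bk K E τ (wd ((g₁ * A)⁻¹ * (g * A))) (Int.fract (ε * (a - v))) k) :=
          lintegral_const_mul' _ _ ENNReal.ofReal_ne_top
      _ ≤ _ := mul_le_mul_right (avg_offset E hτ hK hw0 hw1 a hε) _
  -- the outer integral
  have h2 : (K : ℝ≥0∞) * ∫⁻ g, F g ∂haarO3 ≤
      ENNReal.ofReal ρ * (ENNReal.ofReal ((K : ℝ) / 16 + 1) * ∑ m ∈ Finset.range 16,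
        ENNReal.ofReal (dV K E τ m) * ENNReal.ofReal (16 * Um m)) := by
    rw [s6_swap A hFm]
    refine (lintegral_mono h1).trans ?_
    rw [lintegral_const_mul' _ _ ENNReal.ofReal_ne_top, lintegral_const_mul' _ _
      ENNReal.ofReal_ne_top, lintegral_finsetSum _ fun m _ =>
      (s6_meas_vol m g₁ A).const_mul _]
    refine mul_le_mul_right (mul_le_mul_right (Finset.sum_le_sum fun m hm => ?_) _) _
    rw [lintegral_const_mul' _ _ ENNReal.ofReal_ne_top]
    exact mul_le_mul_right (avg_miss (Finset.mem_range.1 hm) g₁ A) _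
  have h3 : ENNReal.ofReal ρ * (ENNReal.ofReal ((K : ℝ) / 16 + 1) * ∑ m ∈ Finset.range 16,
        ENNReal.ofReal (dV K E τ m) * ENNReal.ofReal (16 * Um m)) =
      (K : ℝ≥0∞) * ENNReal.ofReal (ρ * Phi K E τ) := by
    have e1 : ∑ m ∈ Finset.range 16, ENNReal.ofReal (dV K E τ m) * ENNReal.ofReal (16 * Um m) =
        ENNReal.ofReal (∑ m ∈ Finset.range 16, dV K E τ m * (16 * Um m)) := by
      rw [ENNReal.ofReal_sum_of_nonneg fun m _ => mul_nonneg (dV_nonneg E hK hτ m)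
        (mul_nonneg (by norm_num) (s6_Um_nonneg m))]
      refine Finset.sum_congr rfl fun m _ => ?_
      rw [ENNReal.ofReal_mul (dV_nonneg E hK hτ m)]
    have e2 : (K : ℝ≥0∞) = ENNReal.ofReal (K : ℝ) := (ENNReal.ofReal_natCast K).symm
    rw [e1, e2, ← ENNReal.ofReal_mul hKc, ← ENNReal.ofReal_mul hρ.le, ← ENNReal.ofReal_mul hK0.le]
    refine congrArg ENNReal.ofReal ?_
    unfold Phi
    field_simp
  rw [h3] at h2
  have hK1 : (K : ℝ≥0∞) ≠ 0 := by
    have : K ≠ 0 := by omega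
    exact_mod_cast this
  exact (ENNReal.mul_le_mul_iff_right hK1 (ENNReal.natCast_ne_top K)).1 h2

end AstroR
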