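import Pool.Agent.Lib.H73R.Defs

/-!
# The mixed strategy
-/

set_option autoImplicit false

noncomputable section

open MeasureTheory Metric Set Real Filter Topology
open scoped RealInnerProductSpace NNReal ENNReal

namespace AstroR

open Astro

attribute [local irreducible] meetTime

theorem s7_inner {ρ : ℝ} {N : E3} {M : ℕ} [NeZero M] (μ₀ : ProbabilityMeasure (Paths ρ N))
    (i : Fin M) (h : Paths ρ N → ℝ≥0∞) (hh : Measurable h) :
    ∫⁻ p' : Fin M × Paths ρ N, (if i = p'.1 then h p'.2 else 0)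
      ∂((unif M).prod (μ₀ : Measure (Paths ρ N))) = (M : ℝ≥0∞)⁻¹ * ∫⁻ γ', h γ' ∂(μ₀ : Measure _) := by
  have hS : MeasurableSet {p' : Fin M × Paths ρ N | i = p'.1} :=
    measurableSet_eq_fun measurable_const measurable_fst
  have hG : Measurable (fun p' : Fin M × Paths ρ N => if i = p'.1 then h p'.2 else 0) :=
    Measurable.ite hS (hh.comp measurable_snd) measurable_const
  rw [lintegral_prod _ hG.aemeasurable]
  have h1 : ∀ j : Fin M, ∫⁻ γ', (if i = (j, γ').1 then h (j, γ').2 else 0) ∂(μ₀ : Measure _) =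
      ({i} : Set (Fin M)).indicator (fun _ => ∫⁻ γ', h γ' ∂(μ₀ : Measure _)) j := by
    intro j
    by_cases hj : i = j
    · subst hj
      simp
    · rw [indicator_of_notMem (by simpa using fun h => hj h.symm)]
      simp [hj]
  simp_rw [h1]
  rw [lintegral_indicator (measurableSet_singleton i), setLIntegral_const, unif_singleton, mul_comm]

/-- The mixed strategy: choose a type `i` uniformly and a path `γ` from `μ₀`, and follow `Φ i γ`.

Proof. Let `f : Fin M × Paths ρ N → Paths ρ N`, `f (i, γ) = Φ i γ`; it is measurable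
(`measurable_from_prod_countable_right` or `measurable_from_prod_countable_left`, `hΦ`). Let
`μ = ((unif M).prod μ₀).map f`, a probability measure (`Astro.unif`); `value ≤ expMeet r μ`
(`iInf_le` at `⟨μ, _⟩`). As in `Astro.expMeet_strat_le`, with
`F (γ, γ') = ∫⁻ g, meetTime r g.1 g.2 γ γ' ∂(haarO3.prod haarO3)` (measurable),
`expMeet r μ = ∫⁻ (i, γ), ∫⁻ (j, γ'), F (Φ i γ, Φ j γ')` over `(unif M).prod μ₀` twice
(`Measure.map_prod_map`, `lintegral_map`). Pointwise,
`F (Φ i γ, Φ j γ') ≤ (if i = j then C + F (γ, γ') else 0) + D`: for `i = j` by `hsame` (integrate over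
the frames, probability measure); for `i ≠ j` by `hdiff` (`lintegral_prod_le`, integrate over `g₁`).
Integrating (`unif_singleton`: the measure of `{(i, j) | i = j}` is `1 / M`;
`lintegral_prod`, sums over `Fin M`) gives `(1 / M) (C + expMeet r μ₀) + D`, where
`expMeet r μ₀ = ∫⁻ γ, ∫⁻ γ', F (γ, γ')`. -/
theorem mixture {ρ r : ℝ} {N : E3} (hρ : 0 < ρ) (hr0 : 0 ≤ r) (hr : r ≤ π * ρ) {M : ℕ} [NeZero M]
    (μ₀ : ProbabilityMeasure (Paths ρ N)) (Φ : Fin M → Paths ρ N → Paths ρ N)
    (hΦ : ∀ i, Measurable (Φ i)) {C D : ℝ≥0∞}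
    (hsame : ∀ (i : Fin M) (γ γ' : Paths ρ N) (g₁ g₂ : O3),
      meetTime r g₁ g₂ (Φ i γ) (Φ i γ') ≤ C + meetTime r g₁ g₂ γ γ')
    (hdiff : ∀ i j : Fin M, i ≠ j → ∀ (γ γ' : Paths ρ N) (g₁ : O3),
      ∫⁻ g₂, meetTime r g₁ g₂ (Φ i γ) (Φ j γ') ∂haarO3 ≤ D) :
    value ρ r N ≤ (M : ℝ≥0∞)⁻¹ * (C + expMeet r (μ₀ : Measure (Paths ρ N))) + D := by
  have hmeas := measurable_meetTime (ρ := ρ) (r := r) N hρ hr0 hr
  set F : Paths ρ N × Paths ρ N → ℝ≥0∞ := fun γ => ∫⁻ g : O3 × O3,
    meetTime r g.1 g.2 γ.1 γ.2 ∂(haarO3.prod haarO3) with hF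
  have hFm : Measurable F := by
    have : Measurable (fun q : (Paths ρ N × Paths ρ N) × (O3 × O3) =>
        meetTime r q.2.1 q.2.2 q.1.1 q.1.2) := hmeas.comp measurable_swap
    exact this.lintegral_prod_right'
  have hexp : ∀ μ : Measure (Paths ρ N), SFinite μ → expMeet r μ = ∫⁻ γ, F γ ∂(μ.prod μ) := by
    intro μ hμ
    unfold expMeet
    rw [lintegral_prod_symm _ hmeas.aemeasurable]
  set f : Fin M × Paths ρ N → Paths ρ N := fun p => Φ p.1 p.2 with hf
  have hfm : Measurable f := measurable_from_prod_countable_right fun i => hΦ i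
  set P : Measure (Fin M × Paths ρ N) := (unif M).prod (μ₀ : Measure (Paths ρ N)) with hP
  have hprob : IsProbabilityMeasure (P.map f) := Measure.isProbabilityMeasure_map hfm.aemeasurable
  have hval : value ρ r N ≤ expMeet r (P.map f) :=
    iInf_le (fun μ : ProbabilityMeasure (Paths ρ N) => expMeet r (μ : Measure (Paths ρ N)))
      ⟨P.map f, hprob⟩
  refine hval.trans ?_
  rw [hexp _ inferInstance, Measure.map_prod_map _ _ hfm hfm, lintegral_map hFm (hfm.prodMap hfm)]
  have hpt : ∀ q : (Fin M × Paths ρ N) × (Fin M × Paths ρ N), F (Prod.map f f q) ≤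
      (if q.1.1 = q.2.1 then C + F (q.1.2, q.2.2) else 0) + D := by
    rintro ⟨⟨i, γ⟩, ⟨j, γ'⟩⟩
    show F (Φ i γ, Φ j γ') ≤ (if i = j then C + F (γ, γ') else 0) + D
    by_cases hij : i = j
    · subst hij
      rw [if_pos rfl]
      refine le_trans ?_ le_self_add
      calc F (Φ i γ, Φ i γ') ≤ ∫⁻ g : O3 × O3, (C + meetTime r g.1 g.2 γ γ') ∂(haarO3.prod haarO3) :=
            lintegral_mono fun g => hsame i γ γ' g.1 g.2
        _ = C + F (γ, γ') := by
            rw [lintegral_add_left measurable_const, lintegral_const, measure_univ, mul_one]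
    · rw [if_neg hij, zero_add]
      calc F (Φ i γ, Φ j γ') ≤ ∫⁻ g₁ : O3, ∫⁻ g₂ : O3, meetTime r g₁ g₂ (Φ i γ) (Φ j γ') ∂haarO3 ∂haarO3 :=
            lintegral_prod_le _
        _ ≤ ∫⁻ _ : O3, D ∂haarO3 := lintegral_mono fun g₁ => hdiff i j hij γ γ' g₁
        _ = D := by simp
  refine (lintegral_mono hpt).trans ?_
  rw [lintegral_add_right _ measurable_const, lintegral_const, measure_univ, mul_one]
  refine add_le_add (le_of_eq ?_) le_rfl
  have hS : MeasurableSet {q : (Fin M × Paths ρ N) × (Fin M × Paths ρ N) | q.1.1 = q.2.1} :=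
    measurableSet_eq_fun (measurable_fst.comp measurable_fst) (measurable_fst.comp measurable_snd)
  have hFq : Measurable (fun q : (Fin M × Paths ρ N) × (Fin M × Paths ρ N) => F (q.1.2, q.2.2)) :=
    hFm.comp ((measurable_snd.comp measurable_fst).prodMk (measurable_snd.comp measurable_snd))
  have hG : Measurable (fun q : (Fin M × Paths ρ N) × (Fin M × Paths ρ N) =>
      if q.1.1 = q.2.1 then C + F (q.1.2, q.2.2) else 0) :=
    Measurable.ite hS (measurable_const.add hFq) measurable_const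
  rw [lintegral_prod _ hG.aemeasurable]
  have hin : ∀ p : Fin M × Paths ρ N, ∫⁻ p' : Fin M × Paths ρ N,
      (if (p, p').1.1 = (p, p').2.1 then C + F ((p, p').1.2, (p, p').2.2) else 0) ∂P =
      (M : ℝ≥0∞)⁻¹ * ∫⁻ γ', (C + F (p.2, γ')) ∂(μ₀ : Measure _) := by
    intro p
    exact s7_inner μ₀ p.1 (fun γ' => C + F (p.2, γ'))
      (measurable_const.add (hFm.comp (measurable_const.prodMk measurable_id)))
  simp_rw [hin]
  have hFl : Measurable (fun γ : Paths ρ N => ∫⁻ γ', F (γ, γ') ∂(μ₀ : Measure _)) :=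
    hFm.lintegral_prod_right'
  have hin2 : ∀ γ : Paths ρ N, ∫⁻ γ', (C + F (γ, γ')) ∂(μ₀ : Measure _) =
      C + ∫⁻ γ', F (γ, γ') ∂(μ₀ : Measure _) := by
    intro γ
    rw [lintegral_add_left measurable_const, lintegral_const, measure_univ, mul_one]
  simp_rw [hin2]
  have hH : Measurable (fun p : Fin M × Paths ρ N =>
      C + ∫⁻ γ', F (p.2, γ') ∂(μ₀ : Measure _)) := measurable_const.add (hFl.comp measurable_snd)
  rw [lintegral_const_mul _ hH, hP, lintegral_prod _ hH.aemeasurable]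
  congr 1
  show ∫⁻ _ : Fin M, (∫⁻ γ : Paths ρ N, (C + ∫⁻ γ' : Paths ρ N, F (γ, γ') ∂(μ₀ : Measure _))
    ∂(μ₀ : Measure _)) ∂(unif M) = C + expMeet r (μ₀ : Measure (Paths ρ N))
  rw [lintegral_const, measure_univ, mul_one, lintegral_add_left measurable_const, lintegral_const,
    measure_univ, mul_one, hexp _ inferInstance, lintegral_prod _ hFm.aemeasurable]

end AstroR
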