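import Pool.Agent.Lib.H73R.S1
import Pool.Agent.Lib.H73R.S2
import Pool.Agent.Lib.H73R.S4
import Pool.Agent.Lib.H73R.S6
import Pool.Agent.Lib.H73R.S7
import Pool.Agent.Lib.H73R.P7

/-!
# The value of the strategy
-/

set_option autoImplicit false

noncomputable section

open MeasureTheory Metric Set Real Filter Topology
open scoped RealInnerProductSpace NNReal ENNReal

namespace AstroR

open Astro

attribute [local irreducible] meetTime

/-- The value of the strategy.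

Proof. `Astro.exists_act_eq` gives `A` with `act A e3 = ρ⁻¹ • N`. For `i : Fin M` let `c i` be the
curve of `epoch` (`hτa i`) and `Φ i` the map of `glue_path` for `T = Dm K E τ 16 ≥ 0`. Apply `mixture`
with `C = ofReal (ρ * Dm K E τ 16)` and `D = ofReal (ρ * Phi K E τ)`; `hsame` is `meetTime_after`.
`hdiff`: fix `i ≠ j`, `γ`, `γ'`, `g₁`, `F g = meetTime r g₁ g (Φ i γ) (Φ j γ')` (measurable:
`measurable_meetTime` composed with `g ↦ ((g₁, g), (_, _))`, as in `Astro.lintegral_pair_le`). For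
`avg_frame` let `T h = F (g₁ * A * h * A⁻¹)`, so `F g = T ((g₁ * A)⁻¹ * (g * A))` and
`F (g * (A * rot φ * A⁻¹)) = T ((g₁ * A)⁻¹ * (g * A) * rot φ)` (`group`). The hypothesis `hT` of
`sum_rot` with `b = sin (r / (2 ρ))` is `meet_of_close` (with `g₂ = g₁ * A * h * A⁻¹`,
`(g₁ * A)⁻¹ * (g₂ * A) = h`, `x = c i u`, `y = c j u`). -/
theorem value_le {ρ r : ℝ} {N : E3} (hρ : 0 < ρ) (hN : ‖N‖ = ρ) (hr0 : 0 ≤ r) (hr : r ≤ π * ρ)
    {M K E : ℕ} [NeZero M] {τ : ℝ} (hτ : 0 ≤ τ) (hK : 64 ≤ K) (a : Fin M → ℕ)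
    (hτa : ∀ i, 2 * π * (a i) / K ≤ τ)
    (hR : ∀ i j : Fin M, i ≠ j → ∀ ς : ℤ, (ς = 1 ∨ ς = -1) →
      ∃ R : ℤ, (K : ℤ) ∣ |(a j : ℤ) - ς * (a i : ℤ)| * R - 1 ∧
        9 * |(R : ℝ) - (K : ℝ) / 16| + 1 ≤ E)
    (hwin : ∀ y w : ℝ, 0 ≤ w → |y| ≤ 8 → 2 * w * |y| ≤ 1 →
      w * |tan (π * y / K)| ≤ sin (r / (2 * ρ)))
    (μ₀ : ProbabilityMeasure (Paths ρ N)) :
    value ρ r N ≤ (M : ℝ≥0∞)⁻¹ * (ENNReal.ofReal (ρ * Dm K E τ 16) +
      expMeet r (μ₀ : Measure (Paths ρ N))) + ENNReal.ofReal (ρ * Phi K E τ) := by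
  obtain ⟨A, hA⟩ := exists_act_eq (y := e3) (z := ρ⁻¹ • N) norm_e3
    (by rw [norm_smul, norm_inv, Real.norm_of_nonneg hρ.le, hN, inv_mul_cancel₀ hρ.ne'])
  have hK0 : 0 < K := by omega
  have hep := fun i : Fin M => epoch K E (a i) hK0 (hτa i)
  choose c hc using hep
  have hT0 : 0 ≤ Dm K E τ 16 := Dm_nonneg K E hτ 16
  have hgl := fun i : Fin M => glue_path (N := N) hρ A hA hT0 (hc i).lip (hc i).start (hc i).fin
  choose Φ hΦc hΦ using hgl
  refine mixture hρ hr0 hr μ₀ Φ (fun i => (hΦc i).measurable) ?_ ?_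
  · intro i γ γ' g₁ g₂
    exact meetTime_after γ γ' (Φ i γ) (Φ i γ') (hΦ i γ).2 (hΦ i γ').2 g₁ g₂
  · intro i j hij γ γ' g₁
    have hmeas : Measurable (fun g : O3 => meetTime r g₁ g (Φ i γ) (Φ j γ')) := by
      have h := measurable_meetTime N hρ hr0 hr
      have h2 : Measurable fun g : O3 => (((g₁, g), (Φ i γ, Φ j γ')) : Om ρ N) :=
        (measurable_const.prodMk measurable_id).prodMk measurable_const
      exact h.comp h2
    refine avg_frame E hτ hK hρ g₁ A hmeas ?_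
    intro g
    obtain ⟨a', ε, hε, h⟩ := sum_rot hτ (by omega) (hc i) (hc j) (hR i j hij) hwin hρ
      (fun h => meetTime r g₁ (g₁ * A * h * A⁻¹) (Φ i γ) (Φ j γ')) (by
        intro h u hu hu' hcl
        refine meet_of_close hρ hr0 hr A g₁ (g₁ * A * h * A⁻¹) (Φ i γ) (Φ j γ') hu
          ((hc i).lip.1 u) ((hc j).lip.1 u) ((hΦ i γ).1 u hu hu') ((hΦ j γ').1 u hu hu') ?_
        have e : (g₁ * A)⁻¹ * (g₁ * A * h * A⁻¹ * A) = h := by group
        rw [e]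
        exact hcl) ((g₁ * A)⁻¹ * (g * A))
    refine ⟨a', ε, hε, fun v => ?_⟩
    refine le_trans (le_of_eq ?_) (h v)
    refine Finset.sum_congr rfl fun n _ => ?_
    have e : g * (A * rot (2 * π * ((n : ℝ) + v) / K) * A⁻¹) =
        g₁ * A * ((g₁ * A)⁻¹ * (g * A) * rot (2 * π * ((n : ℝ) + v) / K)) * A⁻¹ := by
      generalize rot (2 * π * ((n : ℝ) + v) / K) = R
      group
    rw [e]

end AstroR
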